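import Mathlib

/-!
Rigidity of projective modules over `ℤ[G]`, `G` torsion-free, and the collapse lemma.
-/

set_option autoImplicit false

namespace Pool.Agent.Lib.MP_551055_al

universe u v w

open MonoidAlgebra

section Rigid

variable {G : Type u} [Group G]

/-- Rigidity: no `ℤ`-torsion, and no nonzero element is rationally proportional to a translate
of itself by a nontrivial group element. -/
structure IsRigid (P : Type v) [AddCommGroup P] [Module (MonoidAlgebra ℤ G) P] : Prop where
  tf : ∀ (a : ℤ) (x : P), a • x = 0 → a = 0 ∨ x = 0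
  rig : ∀ (x : P) (g : G) (a b : ℤ), x ≠ 0 → a ≠ 0 →
    a • x = b • ((single g (1 : ℤ)) • x) → g = 1 ∧ a = b

variable (hG : ∀ g : G, IsOfFinOrder g → g = 1)

theorem coeff_single_smul {I : Type w} (v : I → MonoidAlgebra ℤ G) (g : G) (a : ℤ) (k : I) (h : G) :
    (((single g a) • v) k).coeff h = a * (v k).coeff (g⁻¹ * h) := by
  simp [MonoidAlgebra.coeff_single_mul_apply]

theorem coeff_zsmul {I : Type w} (v : I → MonoidAlgebra ℤ G) (a : ℤ) (k : I) (h : G) :
    ((a • v) k).coeff h = a * (v k).coeff h := by
  change (a • v k).coeff h = _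
  have : (a • v k).coeff = a • (v k).coeff :=
    map_zsmul (MonoidAlgebra.coeffAddEquiv (R := ℤ) (M := G)) a (v k)
  rw [this]
  simp

include hG in
theorem isRigid_pi (I : Type w) : IsRigid (G := G) (I → MonoidAlgebra ℤ G) where
  tf a x h := by
    by_cases ha : a = 0
    · exact Or.inl ha
    · right
      funext k
      ext g
      have h1 := congrArg (fun v => (v k).coeff g) h
      simp only [coeff_zsmul] at h1
      simpa [ha] using h1
  rig x g a b hx ha h := by
    -- find a nonzero coefficient
    have hcoef : ∀ k h', a * (x k).coeff h' = b * (x k).coeff (g⁻¹ * h') := by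
      intro k h'
      have h1 := congrArg (fun v => (v k).coeff h') h
      simp only [coeff_zsmul, coeff_single_smul, one_mul] at h1
      exact h1
    have hex : ∃ k, x k ≠ 0 := by
      by_contra hcon
      push Not at hcon
      exact hx (funext hcon)
    obtain ⟨k, hk⟩ := hex
    have hex2 : ∃ h', (x k).coeff h' ≠ 0 := by
      by_contra hcon
      push Not at hcon
      apply hk
      ext h'
      simpa using hcon h'
    obtain ⟨h', hh'⟩ := hex2
    have hb : b ≠ 0 := by
      rintro rfl
      have := hcoef k h'
      simp [ha, hh'] at this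
    -- the support is invariant under translation by g⁻¹
    have hsupp : ∀ n : ℕ, (x k).coeff ((g⁻¹) ^ n * h') ≠ 0 := by
      intro n
      induction n with
      | zero => simpa using hh'
      | succ n ih =>
        have := hcoef k ((g⁻¹) ^ n * h')
        rw [← mul_assoc, ← pow_succ'] at this
        intro h0
        rw [h0, mul_zero] at this
        rcases mul_eq_zero.1 this with h1 | h1
        · exact ha h1
        · exact ih h1
    have hg1 : g = 1 := by
      apply hG
      have hfin : ((x k).coeff.support : Set G).Finite := Finset.finite_toSet _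
      have hnot : ¬ Function.Injective (fun n : ℕ => (g⁻¹) ^ n * h') := by
        intro hinj
        have := Set.infinite_range_of_injective hinj
        apply this
        apply hfin.subset
        rintro _ ⟨n, rfl⟩
        simpa using hsupp n
      have h2 : ¬ Function.Injective (fun n : ℕ => (g⁻¹) ^ n) := by
        intro hinj
        apply hnot
        intro m n hmn
        exact hinj (mul_right_cancel hmn)
      rw [← isOfFinOrder_inv_iff]
      by_contra h3
      exact h2 (injective_pow_iff_not_isOfFinOrder.2 h3)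
    refine ⟨hg1, ?_⟩
    have := hcoef k h'
    rw [hg1] at this
    simp only [inv_one, one_mul] at this
    exact mul_right_cancel₀ hh' this

theorem IsRigid.of_injective {P : Type v} {Q : Type w} [AddCommGroup P]
    [Module (MonoidAlgebra ℤ G) P] [AddCommGroup Q] [Module (MonoidAlgebra ℤ G) Q]
    (hQ : IsRigid (G := G) Q) (f : P →ₗ[MonoidAlgebra ℤ G] Q) (hf : Function.Injective f) :
    IsRigid (G := G) P where
  tf a x h := by
    have h1 : a • f x = 0 := by rw [← map_zsmul, h, map_zero]
    rcases hQ.tf a _ h1 with h2 | h2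
    · exact Or.inl h2
    · exact Or.inr (hf (by rw [h2, map_zero]))
  rig x g a b hx ha h := by
    apply hQ.rig (f x) g a b
    · intro h0; exact hx (hf (by rw [h0, map_zero]))
    · exact ha
    · rw [← map_smul f, ← map_zsmul f, ← map_zsmul f, h]

include hG in
/-- A finitely generated projective module over the group ring of a torsion-free group is
rigid. -/
theorem isRigid_of_projective (P : Type v) [AddCommGroup P] [Module (MonoidAlgebra ℤ G) P]
    [Module.Finite (MonoidAlgebra ℤ G) P] [Module.Projective (MonoidAlgebra ℤ G) P] :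
    IsRigid (G := G) P := by
  obtain ⟨n, f, hf⟩ := Module.Finite.exists_fin' (MonoidAlgebra ℤ G) P
  obtain ⟨s, hs⟩ := Module.projective_lifting_property f LinearMap.id hf
  refine (isRigid_pi hG (Fin n)).of_injective s ?_
  intro a b hab
  have h1 : f (s a) = a := by rw [← LinearMap.comp_apply, hs]; rfl
  have h2 : f (s b) = b := by rw [← LinearMap.comp_apply, hs]; rfl
  rw [← h1, ← h2, hab]

end Rigid

section Collapse

variable {G : Type u} [Group G] {P : Type v} [AddCommGroup P] [Module (MonoidAlgebra ℤ G) P]

theorem single_smul_eq (g : G) (a : ℤ) (x : P) :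
    (single g a : MonoidAlgebra ℤ G) • x = a • ((single g (1 : ℤ) : MonoidAlgebra ℤ G) • x) := by
  rw [← smul_assoc]
  congr 1
  simp

theorem single_one_smul_smul (g h : G) (x : P) :
    (single g (1 : ℤ) : MonoidAlgebra ℤ G) • ((single h (1 : ℤ) : MonoidAlgebra ℤ G) • x)
      = (single (g * h) (1 : ℤ) : MonoidAlgebra ℤ G) • x := by
  rw [← mul_smul, single_mul_single, one_mul]

theorem one_smul_tr (x : P) : (single (1 : G) (1 : ℤ) : MonoidAlgebra ℤ G) • x = x := by
  rw [← MonoidAlgebra.one_def, one_smul]

theorem tr_zsmul (g : G) (a : ℤ) (x : P) :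
    (single g (1 : ℤ) : MonoidAlgebra ℤ G) • (a • x)
      = a • ((single g (1 : ℤ) : MonoidAlgebra ℤ G) • x) := by
  rw [smul_comm]

/-- Two elements are proportional up to translation. -/
def Pr (x y : P) : Prop :=
  ∃ (g : G) (a b : ℤ), a ≠ 0 ∧ b ≠ 0 ∧ a • x = b • ((single g (1 : ℤ) : MonoidAlgebra ℤ G) • y)

theorem Pr.refl (x : P) : Pr (G := G) x x := ⟨1, 1, 1, one_ne_zero, one_ne_zero, by rw [one_smul_tr]⟩

theorem Pr.symm {x y : P} (h : Pr (G := G) x y) : Pr (G := G) y x := by
  obtain ⟨g, a, b, ha, hb, h⟩ := h
  refine ⟨g⁻¹, b, a, hb, ha, ?_⟩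
  rw [← tr_zsmul, h, tr_zsmul, single_one_smul_smul, inv_mul_cancel, one_smul_tr]

theorem Pr.trans {x y z : P} (h : Pr (G := G) x y) (h' : Pr (G := G) y z) : Pr (G := G) x z := by
  obtain ⟨g, a, b, ha, hb, h⟩ := h
  obtain ⟨g', a', b', ha', hb', h'⟩ := h'
  refine ⟨g * g', a' * a, b * b', mul_ne_zero ha' ha, mul_ne_zero hb hb', ?_⟩
  rw [mul_smul, h, smul_comm, ← tr_zsmul, h', tr_zsmul, single_one_smul_smul, mul_smul]

/-- A relation all of whose terms are pairwise rationally proportional. -/
def RigidRel {I : Type w} (x : I → P) (r : I → MonoidAlgebra ℤ G) : Prop :=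
  ∀ i g j h, (r i).coeff g ≠ 0 → (r j).coeff h ≠ 0 → x i ≠ 0 → x j ≠ 0 →
    ∃ a b : ℤ, a ≠ 0 ∧ b ≠ 0 ∧ a • ((single g (1 : ℤ) : MonoidAlgebra ℤ G) • x i)
      = b • ((single h (1 : ℤ) : MonoidAlgebra ℤ G) • x j)

/-- The equivalence relation of proportionality on the nonzero generators. -/
def prSetoid (G : Type u) [Group G] {P : Type v} [AddCommGroup P] [Module (MonoidAlgebra ℤ G) P]
    {I : Type w} (x : I → P) : Setoid {i // x i ≠ 0} where
  r i j := Pr (G := G) (x i) (x j)
  iseqv := ⟨fun _ => Pr.refl _, fun h => h.symm, fun h h' => h.trans h'⟩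

/-- A finite family of elements all of which are proportional to one nonzero element `x0`
(without translation) lies in a cyclic group generated by a combination of them. -/
theorem exists_generator (hP : IsRigid (G := G) P) {J : Type w} [Fintype J] (z : J → P) (x0 : P)
    (hx0 : x0 ≠ 0) (hz : ∀ j, ∃ a b : ℤ, a ≠ 0 ∧ a • z j = b • x0) :
    ∃ y ∈ AddSubgroup.closure (Set.range z), ∀ u ∈ AddSubgroup.closure (Set.range z),
      ∃ k : ℤ, u = k • y := by
  classical
  choose a b ha hab using hz
  set N : ℤ := ∏ j, a j with hN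
  have hN0 : N ≠ 0 := Finset.prod_ne_zero_iff.2 fun j _ => ha j
  let A := AddSubgroup.closure (Set.range z)
  let D : AddSubgroup ℤ :=
    { carrier := {t | ∃ u ∈ A, N • u = t • x0}
      zero_mem' := ⟨0, A.zero_mem, by simp⟩
      add_mem' := by
        rintro s t ⟨u, hu, hu'⟩ ⟨v, hv, hv'⟩
        exact ⟨u + v, A.add_mem hu hv, by rw [smul_add, add_smul, hu', hv']⟩
      neg_mem' := by
        rintro s ⟨u, hu, hu'⟩
        exact ⟨-u, A.neg_mem hu, by rw [smul_neg, neg_smul, hu']⟩ }
  have hall : ∀ u ∈ A, ∃ t : ℤ, N • u = t • x0 := by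
    intro u hu
    induction hu using AddSubgroup.closure_induction with
    | mem u hu =>
      obtain ⟨j, rfl⟩ := hu
      refine ⟨(∏ i ∈ Finset.univ.erase j, a i) * b j, ?_⟩
      rw [hN, ← Finset.prod_erase_mul _ _ (Finset.mem_univ j), mul_smul, hab, mul_smul]
    | zero => exact ⟨0, by simp⟩
    | add u v _ _ hu hv =>
      obtain ⟨s, hs⟩ := hu
      obtain ⟨t, ht⟩ := hv
      exact ⟨s + t, by rw [smul_add, add_smul, hs, ht]⟩
    | neg u _ hu =>
      obtain ⟨s, hs⟩ := hu
      exact ⟨-s, by rw [smul_neg, neg_smul, hs]⟩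
  obtain ⟨d, hd⟩ := Int.subgroup_cyclic D
  have hdD : d ∈ D := by rw [hd]; exact AddSubgroup.subset_closure rfl
  obtain ⟨y, hy, hy'⟩ := hdD
  refine ⟨y, hy, fun u hu => ?_⟩
  obtain ⟨t, ht⟩ := hall u hu
  have htD : t ∈ D := ⟨u, hu, ht⟩
  rw [hd, AddSubgroup.mem_closure_singleton] at htD
  obtain ⟨k, rfl⟩ := htD
  refine ⟨k, ?_⟩
  have h1 : N • (u - k • y) = 0 := by
    rw [smul_sub, ht, smul_comm, hy', ← mul_smul, smul_eq_mul, sub_self]
  rcases hP.tf _ _ h1 with h2 | h2
  · exact absurd h2 hN0
  · exact sub_eq_zero.1 h2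

open Classical in
/-- **Collapse lemma.** -/
theorem collapse (hP : IsRigid (G := G) P) {I : Type w} [Fintype I] (x : I → P) :
    ∃ (k : ℕ) (y : Fin k → P) (s : (I → MonoidAlgebra ℤ G) →ₗ[MonoidAlgebra ℤ G]
      (Fin k → MonoidAlgebra ℤ G)),
      Function.Surjective s ∧
      (∀ v, Fintype.linearCombination (MonoidAlgebra ℤ G) y (s v)
        = Fintype.linearCombination (MonoidAlgebra ℤ G) x v) ∧
      (∀ r, Fintype.linearCombination (MonoidAlgebra ℤ G) x r = 0 → RigidRel x r → s r = 0) := by
  let S := prSetoid G x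
  let C := Quotient S
  have : Fintype C := Fintype.ofFinite C
  -- choose representatives and translations
  have h1 : ∀ i : {i // x i ≠ 0}, Pr (G := G) (x i) (x (Quotient.out (Quotient.mk S i)).1) := by
    intro i
    have : S.r (Quotient.out (Quotient.mk S i)) i := Quotient.exact (Quotient.out_eq _)
    exact (show Pr (G := G) _ _ from this).symm
  choose gg aa bb haa hbb hrel using h1
  -- the normalised vectors
  let z : {i // x i ≠ 0} → P := fun i => (single (gg i)⁻¹ (1 : ℤ) : MonoidAlgebra ℤ G) • x i
  have hz0 : ∀ i, x i.1 = (single (gg i) (1 : ℤ) : MonoidAlgebra ℤ G) • z i := by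
    intro i
    simp only [z]
    rw [single_one_smul_smul, mul_inv_cancel, one_smul_tr]
  have hzne : ∀ i, z i ≠ 0 := by
    intro i h0
    apply i.2
    rw [hz0, h0, smul_zero]
  have hzrel : ∀ i : {i // x i ≠ 0}, aa i • z i = bb i • x (Quotient.out (Quotient.mk S i)).1 := by
    intro i
    simp only [z]
    rw [← tr_zsmul, hrel, tr_zsmul, single_one_smul_smul, inv_mul_cancel, one_smul_tr]
  -- generators of the rank one groups
  have h2 : ∀ c : C, ∃ y ∈ AddSubgroup.closure (Set.range fun j : {j // Quotient.mk S j = c} => z j),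
      ∀ u ∈ AddSubgroup.closure (Set.range fun j : {j // Quotient.mk S j = c} => z j),
      ∃ k : ℤ, u = k • y := by
    intro c
    apply exists_generator hP _ (x (Quotient.out c).1) (Quotient.out c).2
    rintro ⟨j, hj⟩
    refine ⟨aa j, bb j, haa j, ?_⟩
    have := hzrel j
    rw [hj] at this
    exact this
  choose y hy hygen using h2
  have h3 : ∀ i : {i // x i ≠ 0}, ∃ n : ℤ, z i = n • y (Quotient.mk S i) := by
    intro i
    exact hygen _ _ (AddSubgroup.subset_closure ⟨⟨i, rfl⟩, rfl⟩)
  choose nn hnn using h3
  have hyne : ∀ c, y c ≠ 0 := by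
    intro c h0
    have := hnn (Quotient.out c)
    rw [Quotient.out_eq, h0, smul_zero] at this
    exact hzne _ this
  have hxy : ∀ i : {i // x i ≠ 0},
      x i.1 = (single (gg i) (nn i) : MonoidAlgebra ℤ G) • y (Quotient.mk S i) := by
    intro i
    rw [single_smul_eq, ← tr_zsmul, ← hnn, ← hz0]
  -- the substitution map
  let sv : I → (C → MonoidAlgebra ℤ G) := fun i =>
    if h : x i ≠ 0 then Pi.single (Quotient.mk S ⟨i, h⟩) (single (gg ⟨i, h⟩) (nn ⟨i, h⟩)) else 0
  have hsv : ∀ i : {i // x i ≠ 0},
      sv i.1 = Pi.single (Quotient.mk S i) (single (gg i) (nn i)) := by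
    intro i
    simp only [sv]
    rw [dif_pos i.2]
  have hsv0 : ∀ i, x i = 0 → sv i = 0 := by
    intro i hi
    simp only [sv]
    rw [dif_neg (by simpa using hi)]
  let s := Fintype.linearCombination (MonoidAlgebra ℤ G) sv
  have hsingle : ∀ (c : C) (r : MonoidAlgebra ℤ G),
      Fintype.linearCombination (MonoidAlgebra ℤ G) y (Pi.single c r) = r • y c := by
    intro c r
    rw [Fintype.linearCombination_apply, Finset.sum_eq_single c]
    · simp
    · intro b _ hb
      rw [Pi.single_eq_of_ne hb, zero_smul]
    · intro h; exact absurd (Finset.mem_univ _) h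
  have hys : ∀ v, Fintype.linearCombination (MonoidAlgebra ℤ G) y (s v)
        = Fintype.linearCombination (MonoidAlgebra ℤ G) x v := by
    intro v
    have hsvv : s v = ∑ i, v i • sv i := rfl
    rw [hsvv, map_sum, Fintype.linearCombination_apply]
    refine Finset.sum_congr rfl fun i _ => ?_
    rw [map_smul]
    congr 1
    by_cases hi : x i = 0
    · rw [hsv0 i hi, map_zero, hi]
    · have := hsv ⟨i, hi⟩
      simp only at this
      rw [this, hsingle, ← hxy]
  -- surjectivity
  have hsurj : Function.Surjective s := by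
    rw [← LinearMap.range_eq_top, eq_top_iff]
    have key : ∀ c : C, Pi.single c (1 : MonoidAlgebra ℤ G) ∈ LinearMap.range s := by
      intro c
      have hQ : ∀ u ∈ AddSubgroup.closure
          (Set.range fun j : {j // Quotient.mk S j = c} => z j),
          ∃ k : ℤ, u = k • y c ∧ Pi.single c (single (1 : G) k) ∈ LinearMap.range s := by
        intro u hu
        induction hu using AddSubgroup.closure_induction with
        | mem u hu =>
          obtain ⟨⟨j, rfl⟩, rfl⟩ := hu
          refine ⟨nn j, hnn j, ?_⟩
          refine ⟨Pi.single j.1 (single (gg j)⁻¹ 1), ?_⟩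
          simp only [s]
          rw [Fintype.linearCombination_apply, Finset.sum_eq_single j.1]
          · rw [Pi.single_eq_same, hsv]
            rw [← Pi.single_smul, smul_eq_mul, single_mul_single, inv_mul_cancel, one_mul]
          · intro b _ hb
            rw [Pi.single_eq_of_ne hb, zero_smul]
          · intro h; exact absurd (Finset.mem_univ _) h
        | zero => exact ⟨0, by simp, by simp⟩
        | add u v _ _ hu hv =>
          obtain ⟨a, ha, ha'⟩ := hu
          obtain ⟨b, hb, hb'⟩ := hv
          refine ⟨a + b, by rw [add_smul, ha, hb], ?_⟩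
          rw [MonoidAlgebra.single_add, Pi.single_add]
          exact Submodule.add_mem _ ha' hb'
        | neg u _ hu =>
          obtain ⟨a, ha, ha'⟩ := hu
          refine ⟨-a, by rw [neg_smul, ha], ?_⟩
          have : (single (1 : G) (-a) : MonoidAlgebra ℤ G) = - single (1 : G) a := by
            ext; simp
          rw [this, Pi.single_neg]
          exact Submodule.neg_mem _ ha'
      obtain ⟨k, hk, hk'⟩ := hQ (y c) (hy c)
      have h4 : (1 - k) • y c = 0 := by
        rw [sub_smul, one_smul, ← hk, sub_self]
      rcases hP.tf _ _ h4 with h5 | h5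
      · have : k = 1 := by omega
        rw [this, ← MonoidAlgebra.one_def] at hk'
        exact hk'
      · exact absurd h5 (hyne c)
    rintro v -
    have hv : v = ∑ c, v c • (Pi.single c (1 : MonoidAlgebra ℤ G) : C → MonoidAlgebra ℤ G) := by
      funext c
      rw [Finset.sum_apply, Finset.sum_eq_single c]
      · simp
      · intro b _ hb
        simp [Pi.single_eq_of_ne hb.symm]
      · intro h; exact absurd (Finset.mem_univ _) h
    rw [hv]
    exact Submodule.sum_mem _ fun c _ => Submodule.smul_mem _ _ (key c)
  -- rigid relations die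
  have hrigid : ∀ r, Fintype.linearCombination (MonoidAlgebra ℤ G) x r = 0 → RigidRel x r →
      s r = 0 := by
    intro r hr hrr
    by_cases hex : ∃ i g, (r i).coeff g ≠ 0 ∧ x i ≠ 0
    · obtain ⟨i0, g0, hi0, hx0⟩ := hex
      let c0 : C := Quotient.mk S ⟨i0, hx0⟩
      let k0 : G := g0 * gg ⟨i0, hx0⟩
      let φ : ℤ →+ (C → MonoidAlgebra ℤ G) :=
        { toFun := fun ν => Pi.single c0 (single k0 ν)
          map_zero' := by simp
          map_add' := by intro a b; rw [MonoidAlgebra.single_add, Pi.single_add] }
      have hφ : ∀ i, r i • sv i ∈ φ.range := by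
        intro i
        by_cases hi : x i = 0
        · rw [hsv0 i hi, smul_zero]; exact φ.range.zero_mem
        · rw [← MonoidAlgebra.sum_coeff_single (r i), Finsupp.sum, Finset.sum_smul]
          refine AddSubgroup.sum_mem _ fun g hg => ?_
          rw [Finsupp.mem_support_iff] at hg
          obtain ⟨a, b, ha, hb, hab⟩ := hrr i0 g0 i g hi0 hg hx0 hi
          have hcl : Quotient.mk S (⟨i, hi⟩ : {i // x i ≠ 0}) = c0 := by
            apply Quotient.sound
            change Pr (G := G) (x i) (x i0)
            apply Pr.symm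
            refine ⟨g0⁻¹ * g, a, b, ha, hb, ?_⟩
            rw [← single_one_smul_smul, ← tr_zsmul, ← hab, tr_zsmul, single_one_smul_smul,
              inv_mul_cancel, one_smul_tr]
          have hxi := hxy ⟨i, hi⟩
          have hxi0 := hxy ⟨i0, hx0⟩
          simp only at hxi hxi0
          rw [hcl] at hxi
          rw [hxi, hxi0] at hab
          rw [single_smul_eq (gg ⟨i, hi⟩), single_smul_eq (gg ⟨i0, hx0⟩), tr_zsmul, tr_zsmul,
            single_one_smul_smul, single_one_smul_smul, ← mul_smul, ← mul_smul] at hab
          have hn0 : nn ⟨i0, hx0⟩ ≠ 0 := by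
            intro h0
            have := hnn ⟨i0, hx0⟩
            rw [h0, zero_smul] at this
            exact hzne _ this
          have hab' : (a * nn ⟨i0, hx0⟩) • y c0 = (b * nn ⟨i, hi⟩) •
              ((single (k0⁻¹ * (g * gg ⟨i, hi⟩)) (1 : ℤ) : MonoidAlgebra ℤ G) • y c0) := by
            rw [← single_one_smul_smul, ← tr_zsmul, ← hab, tr_zsmul, single_one_smul_smul]
            simp only [k0]
            rw [inv_mul_cancel, one_smul_tr]
          have hg1 := (hP.rig _ _ _ _ (hyne c0) (mul_ne_zero ha hn0) hab').1
          have hgk : g * gg ⟨i, hi⟩ = k0 := by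
            have := congrArg (fun t => k0 * t) hg1
            simpa using this
          have hs' := hsv ⟨i, hi⟩
          simp only at hs'
          rw [hs', hcl, ← Pi.single_smul, smul_eq_mul, single_mul_single, hgk]
          exact ⟨_, rfl⟩
      have hsr : s r ∈ φ.range := by
        simp only [s]
        rw [Fintype.linearCombination_apply]
        exact AddSubgroup.sum_mem _ fun i _ => hφ i
      obtain ⟨ν, hν⟩ := hsr
      have h5 := hys r
      rw [hr, ← hν] at h5
      change Fintype.linearCombination (MonoidAlgebra ℤ G) y (Pi.single c0 (single k0 ν)) = 0 at h5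
      rw [hsingle, single_smul_eq, ← tr_zsmul] at h5
      have h6 : ν • y c0 = 0 := by
        have := congrArg (fun t => (single k0⁻¹ (1 : ℤ) : MonoidAlgebra ℤ G) • t) h5
        rw [single_one_smul_smul, inv_mul_cancel, one_smul_tr, smul_zero] at this
        exact this
      rcases hP.tf _ _ h6 with h7 | h7
      · rw [← hν, h7, map_zero]
      · exact absurd h7 (hyne c0)
    · push Not at hex
      simp only [s]
      rw [Fintype.linearCombination_apply]
      refine Finset.sum_eq_zero fun i _ => ?_
      by_cases hi : x i = 0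
      · rw [hsv0 i hi, smul_zero]
      · have : r i = 0 := by
          ext g
          by_contra hg
          exact hi (hex i g hg)
        rw [this, zero_smul]
  -- reindex
  let e := Fintype.equivFin C
  refine ⟨Fintype.card C, fun j => y (e.symm j),
    (LinearEquiv.funCongrLeft (MonoidAlgebra ℤ G) (MonoidAlgebra ℤ G) e.symm).toLinearMap ∘ₗ s,
    ?_, ?_, ?_⟩
  · rw [LinearMap.coe_comp]
    exact (LinearEquiv.surjective _).comp hsurj
  · intro v
    rw [← hys v]
    simp only [LinearMap.comp_apply, LinearEquiv.coe_coe, Fintype.linearCombination_apply,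
      LinearEquiv.funCongrLeft_apply, LinearMap.funLeft_apply]
    exact Equiv.sum_comp e.symm (fun c => s v c • y c)
  · intro r hr hrr
    rw [LinearMap.comp_apply, hrigid r hr hrr, map_zero]

end Collapse

end Pool.Agent.Lib.MP_551055_al
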