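import Pool.Agent.Lib.MP_551055_al.FreeSubgroup

/-!
Extension of coefficients from `ℤ` to `ℚ` and the subgroup maps.
-/

set_option autoImplicit false
set_option linter.unusedSectionVars false

namespace Pool.Agent.Lib.MP_551055_al

universe u v w z

open MonoidAlgebra

variable {G : Type u} [Group G] {H : Type v} [Group H] {n m : ℕ}

/-- Extension of coefficients. -/
noncomputable def cQ (G : Type u) [Group G] : MonoidAlgebra ℤ G →+* MonoidAlgebra ℚ G :=
  MonoidAlgebra.mapRingHom G (Int.castRingHom ℚ)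

theorem cQ_coeff (a : MonoidAlgebra ℤ G) (g : G) : (cQ G a).coeff g = ((a.coeff g : ℤ) : ℚ) := by
  simp [cQ, MonoidAlgebra.coeff_mapRingHom]

theorem cQ_injective : Function.Injective (cQ G) := by
  intro a b hab
  ext g
  have h := congrArg (fun z => z.coeff g) hab
  simp only [cQ_coeff] at h
  exact_mod_cast h

theorem cQ_inc (φ : H →* G) (a : MonoidAlgebra ℤ H) : cQ G (inc ℤ φ a) = inc ℚ φ (cQ H a) := by
  induction a using MonoidAlgebra.induction_linear with
  | zero => simp
  | add a b ha hb => rw [map_add, map_add, ha, hb, map_add, map_add]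
  | single h c =>
    rw [inc_single, cQ, cQ, MonoidAlgebra.mapRingHom_single, MonoidAlgebra.mapRingHom_single,
      inc_single]

theorem cQ_prj (φ : H →* G) (hφ : Function.Injective φ) (a : MonoidAlgebra ℤ G) :
    prj ℚ φ hφ (cQ G a) = cQ H (prj ℤ φ hφ a) := by
  ext h
  rw [prj_coeff, cQ_coeff, cQ_coeff, prj_coeff]

/-- Extension of coefficients on vectors. -/
noncomputable def cv (v : Fin n → MonoidAlgebra ℤ G) : Fin n → MonoidAlgebra ℚ G :=
  fun i => cQ G (v i)

theorem cv_injective : Function.Injective (cv (n := n) (G := G)) := fun a b hab => by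
  funext i
  exact cQ_injective (congrFun hab i)

theorem cv_incv (φ : H →* G) (v : Fin n → MonoidAlgebra ℤ H) :
    cv (incv ℤ φ v) = incv ℚ φ (cv v) := funext fun _ => cQ_inc φ _

theorem cv_prjv (φ : H →* G) (hφ : Function.Injective φ) (v : Fin n → MonoidAlgebra ℤ G) :
    prjv ℚ φ hφ (cv v) = cv (prjv ℤ φ hφ v) := funext fun _ => cQ_prj φ hφ _

theorem cv_vecMul (v : Fin n → MonoidAlgebra ℤ G)
    (M : Matrix (Fin n) (Fin m) (MonoidAlgebra ℤ G)) :
    cv (Matrix.vecMul v M) = Matrix.vecMul (cv v) (M.map (cQ G)) := by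
  funext j
  change cQ G (∑ i, v i * M i j) = ∑ i, cQ G (v i) * cQ G (M i j)
  rw [map_sum]
  exact Finset.sum_congr rfl (fun i _ => map_mul _ _ _)

theorem cv_add (v w : Fin n → MonoidAlgebra ℤ G) : cv (v + w) = cv v + cv w :=
  funext fun _ => map_add _ _ _

theorem cv_smul (a : MonoidAlgebra ℤ G) (v : Fin n → MonoidAlgebra ℤ G) :
    cv (a • v) = cQ G a • cv v :=
  funext fun _ => map_mul _ _ _

theorem tau_map_cQ (M : Matrix (Fin n) (Fin n) (MonoidAlgebra ℤ G)) :
    tau (M.map (cQ G)) = ((tau M : ℤ) : ℚ) := by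
  unfold tau
  push_cast
  exact Finset.sum_congr rfl (fun i _ => cQ_coeff _ _)

theorem vecMul_smul' {R : Type u} [Ring R] (a : R) (v : Fin n → R) (M : Matrix (Fin n) (Fin m) R) :
    Matrix.vecMul (a • v) M = a • Matrix.vecMul v M := by
  funext j
  change ∑ i, (a * v i) * M i j = a * ∑ i, v i * M i j
  rw [Finset.mul_sum]
  exact Finset.sum_congr rfl (fun i _ => mul_assoc _ _ _)

section Descent

variable {R : Type u} [Ring R]

/-- Two idempotents with the same rows span have isomorphic complements. -/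
theorem complement_equiv (a b : Matrix (Fin n) (Fin n) R) (hab : a * b = a) (hba : b * a = b) :
    Nonempty (LinearMap.range (Matrix.toLinearMapRight' (1 - a)) ≃ₗ[R]
      LinearMap.range (Matrix.toLinearMapRight' (1 - b))) := by
  have haa : a * a = a := by
    calc a * a = (a * b) * a := by rw [hab]
      _ = a * (b * a) := Matrix.mul_assoc _ _ _
      _ = a := by rw [hba, hab]
  have hbb : b * b = b := by
    calc b * b = (b * a) * b := by rw [hba]
      _ = b * (a * b) := Matrix.mul_assoc _ _ _
      _ = b := by rw [hab, hba]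
  have h1 : (1 - a) * (1 - b) = 1 - b := by
    rw [Matrix.mul_sub, Matrix.mul_one, Matrix.sub_mul, Matrix.one_mul, hab]; abel
  have h2 : (1 - b) * (1 - a) = 1 - a := by
    rw [Matrix.mul_sub, Matrix.mul_one, Matrix.sub_mul, Matrix.one_mul, hba]; abel
  have h3 : (1 - a) * (1 - a) = 1 - a := by
    rw [Matrix.mul_sub, Matrix.mul_one, Matrix.sub_mul, Matrix.one_mul, haa]; abel
  have h4 : (1 - b) * (1 - b) = 1 - b := by
    rw [Matrix.mul_sub, Matrix.mul_one, Matrix.sub_mul, Matrix.one_mul, hbb]; abel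
  let f : LinearMap.range (Matrix.toLinearMapRight' (1 - a)) →ₗ[R]
      LinearMap.range (Matrix.toLinearMapRight' (1 - b)) :=
    ((Matrix.toLinearMapRight' (1 - b)).rangeRestrict).comp
      (LinearMap.range (Matrix.toLinearMapRight' (1 - a))).subtype
  let g : LinearMap.range (Matrix.toLinearMapRight' (1 - b)) →ₗ[R]
      LinearMap.range (Matrix.toLinearMapRight' (1 - a)) :=
    ((Matrix.toLinearMapRight' (1 - a)).rangeRestrict).comp
      (LinearMap.range (Matrix.toLinearMapRight' (1 - b))).subtype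
  refine ⟨LinearEquiv.ofLinearMap f g ?_ ?_⟩
  · apply LinearMap.ext
    rintro ⟨_, v, rfl⟩
    apply Subtype.ext
    change Matrix.toLinearMapRight' (1 - b) (Matrix.toLinearMapRight' (1 - a)
      (Matrix.toLinearMapRight' (1 - b) v)) = Matrix.toLinearMapRight' (1 - b) v
    rw [← Matrix.toLinearMapRight'_mul_apply, ← Matrix.toLinearMapRight'_mul_apply, h1, h4]
  · apply LinearMap.ext
    rintro ⟨_, v, rfl⟩
    apply Subtype.ext
    change Matrix.toLinearMapRight' (1 - a) (Matrix.toLinearMapRight' (1 - b)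
      (Matrix.toLinearMapRight' (1 - a) v)) = Matrix.toLinearMapRight' (1 - a) v
    rw [← Matrix.toLinearMapRight'_mul_apply, ← Matrix.toLinearMapRight'_mul_apply, h2, h3]

end Descent

end Pool.Agent.Lib.MP_551055_al
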