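import Mathlib

/-!
Restriction and extension between the group rings of a group and of a subgroup.
-/

set_option autoImplicit false
set_option linter.unusedSectionVars false

namespace Pool.Agent.Lib.MP_551055_al

universe u v w z

open MonoidAlgebra

variable {G : Type u} [Group G] {H : Type v} [Group H] {k : Type w} [CommRing k]

/-- The inclusion of group rings. -/
noncomputable def inc (k : Type w) [CommRing k] (φ : H →* G) :
    MonoidAlgebra k H →+* MonoidAlgebra k G := MonoidAlgebra.mapDomainRingHom k φ

theorem inc_single (φ : H →* G) (h : H) (a : k) :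
    inc k φ (single h a) = single (φ h) a := by
  simp [inc]

/-- The restriction of coefficients to a subgroup. -/
noncomputable def prj (k : Type w) [CommRing k] (φ : H →* G) (hφ : Function.Injective φ) :
    MonoidAlgebra k G →+ MonoidAlgebra k H where
  toFun r := MonoidAlgebra.ofCoeff (r.coeff.comapDomain φ hφ.injOn)
  map_zero' := by ext h; simp
  map_add' r s := by ext h; simp

theorem prj_coeff (φ : H →* G) (hφ : Function.Injective φ) (r : MonoidAlgebra k G) (h : H) :
    (prj k φ hφ r).coeff h = r.coeff (φ h) := rfl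

theorem inc_coeff_apply (φ : H →* G) (hφ : Function.Injective φ) (a : MonoidAlgebra k H) (h : H) :
    (inc k φ a).coeff (φ h) = a.coeff h := by
  classical
  induction a using MonoidAlgebra.induction_linear with
  | zero => simp
  | add a b ha hb => rw [map_add, MonoidAlgebra.coeff_add, MonoidAlgebra.coeff_add,
      Finsupp.add_apply, Finsupp.add_apply, ha, hb]
  | single g c =>
    rw [inc_single, MonoidAlgebra.coeff_single, MonoidAlgebra.coeff_single, Finsupp.single_apply,
      Finsupp.single_apply]
    simp only [hφ.eq_iff]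

theorem inc_coeff_of_notMem (φ : H →* G) (a : MonoidAlgebra k H) (g : G)
    (hg : g ∉ Set.range φ) : (inc k φ a).coeff g = 0 := by
  classical
  induction a using MonoidAlgebra.induction_linear with
  | zero => simp
  | add a b ha hb => rw [map_add, MonoidAlgebra.coeff_add, Finsupp.add_apply, ha, hb, add_zero]
  | single h c =>
    rw [inc_single, MonoidAlgebra.coeff_single, Finsupp.single_apply, if_neg]
    rintro rfl
    exact hg ⟨h, rfl⟩

theorem prj_inc (φ : H →* G) (hφ : Function.Injective φ) (a : MonoidAlgebra k H) :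
    prj k φ hφ (inc k φ a) = a := by
  ext h
  rw [prj_coeff, inc_coeff_apply φ hφ]

theorem inc_injective (φ : H →* G) (hφ : Function.Injective φ) :
    Function.Injective (inc k φ) := fun a b hab => by
  rw [← prj_inc φ hφ a, ← prj_inc φ hφ b, hab]

theorem prj_inc_mul (φ : H →* G) (hφ : Function.Injective φ) (a : MonoidAlgebra k H)
    (r : MonoidAlgebra k G) : prj k φ hφ (inc k φ a * r) = a * prj k φ hφ r := by
  induction a using MonoidAlgebra.induction_linear with
  | zero => simp
  | add a b ha hb => rw [map_add, add_mul, map_add, ha, hb, add_mul]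
  | single g c =>
    ext h
    rw [prj_coeff, inc_single, MonoidAlgebra.coeff_single_mul_apply,
      MonoidAlgebra.coeff_single_mul_apply, prj_coeff, ← map_inv, ← map_mul]

theorem prj_mul_inc (φ : H →* G) (hφ : Function.Injective φ) (a : MonoidAlgebra k H)
    (r : MonoidAlgebra k G) : prj k φ hφ (r * inc k φ a) = prj k φ hφ r * a := by
  induction a using MonoidAlgebra.induction_linear with
  | zero => simp
  | add a b ha hb => rw [map_add, mul_add, map_add, ha, hb, mul_add]
  | single g c =>
    ext h
    rw [prj_coeff, inc_single, MonoidAlgebra.coeff_mul_single_apply,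
      MonoidAlgebra.coeff_mul_single_apply, prj_coeff, ← map_inv, ← map_mul]

variable {n m : ℕ}

/-- Inclusion of vectors. -/
noncomputable def incv (k : Type w) [CommRing k] (φ : H →* G) (v : Fin n → MonoidAlgebra k H) :
    Fin n → MonoidAlgebra k G := fun i => inc k φ (v i)

/-- Restriction of vectors. -/
noncomputable def prjv (k : Type w) [CommRing k] (φ : H →* G) (hφ : Function.Injective φ)
    (v : Fin n → MonoidAlgebra k G) : Fin n → MonoidAlgebra k H := fun i => prj k φ hφ (v i)

theorem prjv_incv (φ : H →* G) (hφ : Function.Injective φ) (v : Fin n → MonoidAlgebra k H) :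
    prjv k φ hφ (incv k φ v) = v := by
  funext i; exact prj_inc φ hφ _

theorem incv_injective (φ : H →* G) (hφ : Function.Injective φ) :
    Function.Injective (incv (n := n) k φ) := fun a b hab => by
  rw [← prjv_incv φ hφ a, ← prjv_incv φ hφ b, hab]

theorem prjv_add (φ : H →* G) (hφ : Function.Injective φ) (v w : Fin n → MonoidAlgebra k G) :
    prjv k φ hφ (v + w) = prjv k φ hφ v + prjv k φ hφ w := by
  funext i; exact map_add _ _ _

theorem prjv_zero (φ : H →* G) (hφ : Function.Injective φ) :
    prjv k φ hφ (0 : Fin n → MonoidAlgebra k G) = 0 := by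
  funext i; exact map_zero _

theorem prjv_incv_vecMul (φ : H →* G) (hφ : Function.Injective φ) (v : Fin n → MonoidAlgebra k H)
    (M : Matrix (Fin n) (Fin m) (MonoidAlgebra k G)) :
    prjv k φ hφ (Matrix.vecMul (incv k φ v) M) = Matrix.vecMul v (M.map (prj k φ hφ)) := by
  funext j
  change prj k φ hφ (∑ i, inc k φ (v i) * M i j) = ∑ i, v i * prj k φ hφ (M i j)
  rw [map_sum]
  exact Finset.sum_congr rfl (fun i _ => prj_inc_mul φ hφ _ _)

theorem prjv_vecMul_inc (φ : H →* G) (hφ : Function.Injective φ) (z : Fin n → MonoidAlgebra k G)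
    (M : Matrix (Fin n) (Fin m) (MonoidAlgebra k H)) :
    prjv k φ hφ (Matrix.vecMul z (M.map (inc k φ))) = Matrix.vecMul (prjv k φ hφ z) M := by
  funext j
  change prj k φ hφ (∑ i, z i * inc k φ (M i j)) = ∑ i, prj k φ hφ (z i) * M i j
  rw [map_sum]
  exact Finset.sum_congr rfl (fun i _ => prj_mul_inc φ hφ _ _)

theorem incv_vecMul (φ : H →* G) (v : Fin n → MonoidAlgebra k H)
    (M : Matrix (Fin n) (Fin m) (MonoidAlgebra k H)) :
    incv k φ (Matrix.vecMul v M) = Matrix.vecMul (incv k φ v) (M.map (inc k φ)) := by
  funext j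
  change inc k φ (∑ i, v i * M i j) = ∑ i, inc k φ (v i) * inc k φ (M i j)
  rw [map_sum]
  exact Finset.sum_congr rfl (fun i _ => map_mul _ _ _)

theorem incv_smul (φ : H →* G) (a : MonoidAlgebra k H) (v : Fin n → MonoidAlgebra k H) :
    incv k φ (a • v) = inc k φ a • incv k φ v := by
  funext i; exact map_mul _ _ _

theorem prjv_smul_incv (φ : H →* G) (hφ : Function.Injective φ) (r : MonoidAlgebra k G)
    (v : Fin n → MonoidAlgebra k H) :
    prjv k φ hφ (r • incv k φ v) = prj k φ hφ r • v := by
  funext i; exact prj_mul_inc φ hφ _ _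

/-- Decomposition along left cosets. -/
theorem mem_span_prjv (φ : H →* G) (hφ : Function.Injective φ) (z : Fin n → MonoidAlgebra k G) :
    z ∈ Submodule.span (MonoidAlgebra k G) (Set.range (fun x : G =>
      incv k φ (prjv k φ hφ ((single x⁻¹ (1 : k) : MonoidAlgebra k G) • z)))) := by
  classical
  let S : Finset G := Finset.univ.biUnion (fun i => (z i).coeff.support)
  let rep : G → G := fun g => (Quotient.out (QuotientGroup.mk g : G ⧸ φ.range) : G)
  have hrep : ∀ g, (rep g)⁻¹ * g ∈ φ.range := by
    intro g
    rw [← QuotientGroup.eq]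
    exact Quotient.out_eq _
  let T : Finset G := S.image rep
  have key : z = ∑ x ∈ T, (single x (1 : k) : MonoidAlgebra k G) •
      incv k φ (prjv k φ hφ ((single x⁻¹ (1 : k) : MonoidAlgebra k G) • z)) := by
    funext i
    ext g
    rw [Finset.sum_apply, MonoidAlgebra.coeff_sum, Finsupp.finsetSum_apply]
    have hterm : ∀ x : G, (((single x (1 : k) : MonoidAlgebra k G) •
        incv k φ (prjv k φ hφ ((single x⁻¹ (1 : k) : MonoidAlgebra k G) • z))) i).coeff g
        = if x⁻¹ * g ∈ φ.range then (z i).coeff g else 0 := by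
      intro x
      change (single x (1 : k) * inc k φ (prj k φ hφ (single x⁻¹ (1 : k) * z i))).coeff g = _
      rw [MonoidAlgebra.coeff_single_mul_apply, one_mul]
      split_ifs with h
      · obtain ⟨h', hh'⟩ := h
        rw [← hh', inc_coeff_apply φ hφ, prj_coeff, MonoidAlgebra.coeff_single_mul_apply, one_mul,
          inv_inv, hh', mul_inv_cancel_left]
      · exact inc_coeff_of_notMem φ _ _ (fun ⟨h', hh'⟩ => h ⟨h', hh'⟩)
    rw [Finset.sum_congr rfl (fun x _ => hterm x)]
    by_cases hg : (z i).coeff g = 0
    · rw [hg]; simp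
    · have hgS : g ∈ S := Finset.mem_biUnion.2 ⟨i, Finset.mem_univ i, Finsupp.mem_support_iff.2 hg⟩
      rw [Finset.sum_eq_single (rep g)]
      · rw [if_pos (hrep g)]
      · intro x hx hne
        rw [if_neg]
        intro hmem
        apply hne
        obtain ⟨g', -, rfl⟩ := Finset.mem_image.1 hx
        have h1 : (QuotientGroup.mk (rep g') : G ⧸ φ.range) = QuotientGroup.mk g :=
          QuotientGroup.eq.2 hmem
        have h2 : (QuotientGroup.mk (rep g') : G ⧸ φ.range) = QuotientGroup.mk g' :=
          Quotient.out_eq _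
        change Quotient.out (QuotientGroup.mk g' : G ⧸ φ.range)
          = Quotient.out (QuotientGroup.mk g : G ⧸ φ.range)
        rw [← h2, h1]
      · intro hx
        exact absurd (Finset.mem_image_of_mem rep hgS) hx
  rw [key]
  refine Submodule.sum_mem _ (fun x _ => Submodule.smul_mem _ _ ?_)
  rw [← key]
  exact Submodule.subset_span ⟨x, rfl⟩

end Pool.Agent.Lib.MP_551055_al
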