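import Pool.Agent.Lib.MP_551055_al.Kaplansky

/-!
Projective modules over `ℤ[G]` presented by one relation are stably free.
-/

set_option autoImplicit false

namespace Pool.Agent.Lib.MP_551055_al

universe u v w

/-- Stable freeness, in the form used in the problem. -/
def StFree (R : Type u) [Ring R] (P : Type v) [AddCommGroup P] [Module R P] : Prop :=
  ∃ n m : ℕ, Nonempty ((P × (Fin n → R)) ≃ₗ[R] (Fin m → R))

theorem StFree.congr {R : Type u} [Ring R] {P : Type v} [AddCommGroup P] [Module R P]
    {Q : Type w} [AddCommGroup Q] [Module R Q] (e : P ≃ₗ[R] Q) (h : StFree R P) :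
    StFree R Q := by
  obtain ⟨n, m, ⟨f⟩⟩ := h
  exact ⟨n, m, ⟨(LinearEquiv.prodCongr e.symm (LinearEquiv.refl R _)).trans f⟩⟩

theorem StFree.of_equiv_fin {R : Type u} [Ring R] {P : Type v} [AddCommGroup P] [Module R P]
    {k : ℕ} (e : P ≃ₗ[R] (Fin k → R)) : StFree R P := by
  refine ⟨0, k, ⟨?_⟩⟩
  exact (LinearEquiv.prodUnique (R := R) (M := P) (M₂ := Fin 0 → R)).trans e

/-- A surjection from a free module onto a projective module whose kernel is generated by one
element, over a ring with only trivial idempotents. -/
theorem stFree_of_cyclic_kernel {R : Type u} [Ring R] (hR : ∀ e : R, e * e = e → e = 0 ∨ e = 1)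
    {P : Type v} [AddCommGroup P] [Module R P] [Module.Projective R P] {k : ℕ}
    (π : (Fin k → R) →ₗ[R] P) (hπ : Function.Surjective π) (w : Fin k → R)
    (hw : LinearMap.ker π = Submodule.span R {w}) : StFree R P := by
  obtain ⟨σ, hσ⟩ := Module.projective_lifting_property π LinearMap.id hπ
  have hσ' : ∀ p, π (σ p) = p := fun p => DFunLike.congr_fun hσ p
  have hww : π w = 0 := by
    have : w ∈ LinearMap.ker π := by rw [hw]; exact Submodule.mem_span_singleton_self w
    exact this
  -- projection onto the kernel
  let q : (Fin k → R) →ₗ[R] (Fin k → R) := LinearMap.id - σ ∘ₗ π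
  have hq : ∀ v, q v ∈ Submodule.span R {w} := by
    intro v
    rw [← hw, LinearMap.mem_ker]
    simp only [q, LinearMap.sub_apply, LinearMap.id_apply, LinearMap.comp_apply, map_sub]
    rw [hσ', sub_self]
  let q' : (Fin k → R) →ₗ[R] Submodule.span R {w} := q.codRestrict _ hq
  let τ : R →ₗ[R] Submodule.span R {w} :=
    (LinearMap.toSpanSingleton R (Fin k → R) w).codRestrict _
      (fun r => Submodule.mem_span_singleton.2 ⟨r, rfl⟩)
  have hτ : Function.Surjective τ := by
    rintro ⟨v, hv⟩
    obtain ⟨r, rfl⟩ := Submodule.mem_span_singleton.1 hv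
    exact ⟨r, rfl⟩
  obtain ⟨φ, hφ⟩ := Module.projective_lifting_property τ q' hτ
  have hφ' : ∀ v, φ v • w = q v := by
    intro v
    have := congrArg Subtype.val (DFunLike.congr_fun hφ v)
    exact this
  have hqw : q w = w := by
    simp only [q, LinearMap.sub_apply, LinearMap.id_apply, LinearMap.comp_apply, hww, map_zero,
      sub_zero]
  have hf1 : φ w • w = w := by rw [hφ', hqw]
  have hf2 : φ w * φ w = φ w := by
    have := congrArg φ hf1
    rw [map_smul, smul_eq_mul] at this
    exact this
  rcases hR _ hf2 with h0 | h1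
  · -- the relation is trivial
    have hw0 : w = 0 := by rw [← hf1, h0, zero_smul]
    have hinj : Function.Injective π := by
      rw [← LinearMap.ker_eq_bot, hw, hw0]; simp
    exact StFree.of_equiv_fin (LinearEquiv.ofBijective π ⟨hinj, hπ⟩).symm
  · -- split off a copy of R
    refine ⟨1, k, ⟨?_⟩⟩
    let f : (Fin k → R) →ₗ[R] P × R := π.prod φ
    have hbij : Function.Bijective f := by
      constructor
      · rw [← LinearMap.ker_eq_bot, eq_bot_iff]
        intro v hv
        have hv' : f v = 0 := hv
        have hv1 : π v = 0 := congrArg Prod.fst hv'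
        have hv2 : φ v = 0 := congrArg Prod.snd hv'
        have : v ∈ Submodule.span R {w} := by rw [← hw]; exact hv1
        obtain ⟨r, rfl⟩ := Submodule.mem_span_singleton.1 this
        rw [map_smul, h1, smul_eq_mul, mul_one] at hv2
        rw [hv2, zero_smul]; exact Submodule.zero_mem _
      · rintro ⟨p, r⟩
        obtain ⟨v, rfl⟩ := hπ p
        refine ⟨v + (r - φ v) • w, ?_⟩
        refine Prod.ext ?_ ?_
        · change π (v + (r - φ v) • w) = π v
          rw [map_add, map_smul, hww, smul_zero, add_zero]
        · change φ (v + (r - φ v) • w) = r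
          rw [map_add, map_smul, h1, smul_eq_mul, mul_one, add_sub_cancel]
    let e : (Fin k → R) ≃ₗ[R] P × R := LinearEquiv.ofBijective f hbij
    exact (LinearEquiv.prodCongr (LinearEquiv.refl R P)
      (LinearEquiv.funUnique (Fin 1) R R)).trans e.symm

end Pool.Agent.Lib.MP_551055_al
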