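import Pool.Agent.Lib.MP_551055_al.Kaplansky

/-!
Kaplansky's theorem for matrices: an idempotent matrix over `ℝ[G]` has nonnegative trace, and is
zero if its trace is zero.
-/

set_option autoImplicit false
set_option linter.unusedSectionVars false

namespace Pool.Agent.Lib.MP_551055_al.KaplanskyMatrix

open scoped InnerProductSpace
open Pool.Agent.Lib.MP_551055_al.Kaplansky

universe u

variable {G : Type u} [Group G] {ι : Type} [Fintype ι] [DecidableEq ι]

/-- The action of the real group ring. -/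
noncomputable def Lr : MonoidAlgebra ℝ G →ₐ[ℝ] (Hs G →L[ℝ] Hs G) :=
  MonoidAlgebra.lift ℝ (Hs G →L[ℝ] Hs G) G lam

theorem Lr_apply (a : MonoidAlgebra ℝ G) (x : Hs G) :
    Lr a x = a.coeff.sum fun h c => c • lam h x := by
  simp only [Lr, MonoidAlgebra.lift_apply, Finsupp.sum]
  rw [sum_apply]
  refine Finset.sum_congr rfl fun h _ => ?_
  rw [smul_apply]

theorem inner_Lr_bs (a : MonoidAlgebra ℝ G) (x : Hs G) :
    ⟪Lr a (bs G 1), x⟫_ℝ = a.coeff.sum fun h c => c * ⟪bs G h, x⟫_ℝ := by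
  rw [Lr_apply, Finsupp.sum, Finsupp.sum, sum_inner]
  refine Finset.sum_congr rfl fun h _ => ?_
  rw [real_inner_smul_left, lam_bs, mul_one]

theorem inner_Lr_bs_bs (a : MonoidAlgebra ℝ G) (g : G) :
    ⟪Lr a (bs G 1), bs G g⟫_ℝ = a.coeff g := by
  classical
  rw [inner_Lr_bs]
  simp only [inner_bs]
  rw [Finsupp.sum]
  simp only [mul_ite, mul_one, mul_zero]
  rw [Finset.sum_ite_eq']
  split_ifs with h
  · rfl
  · simp only [Finsupp.mem_support_iff, not_not] at h
    rw [h]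

theorem lam_comm_Rt (h s : G) (x : Hs G) : lam h (Rt s x) = Rt s (lam h x) := by
  have : (lam h) ∘L (Rt s).toContinuousLinearEquiv.toContinuousLinearMap
      = (Rt s).toContinuousLinearEquiv.toContinuousLinearMap ∘L (lam h) := by
    apply ext_bs
    intro g
    change lam h (Rt s (bs G g)) = Rt s (lam h (bs G g))
    rw [Rt_bs, lam_bs, lam_bs, Rt_bs, mul_assoc]
  exact DFunLike.congr_fun this x

theorem Lr_comm_Rt (a : MonoidAlgebra ℝ G) (s : G) (x : Hs G) :
    Lr a (Rt s x) = Rt s (Lr a x) := by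
  rw [Lr_apply, Lr_apply, Finsupp.sum, Finsupp.sum, map_sum]
  refine Finset.sum_congr rfl fun h _ => ?_
  rw [map_smul, lam_comm_Rt]

/-- The Hilbert space `ℓ²(G)^ι`. -/
abbrev Vs (G : Type u) (ι : Type) [Fintype ι] : Type u := PiLp 2 (fun _ : ι => Hs G)

/-- The operator given by a matrix. -/
noncomputable def opE (e : Matrix ι ι (MonoidAlgebra ℝ G)) : Vs G ι →L[ℝ] Vs G ι :=
  (PiLp.continuousLinearEquiv 2 ℝ (fun _ : ι => Hs G)).symm.toContinuousLinearMap ∘L
    ContinuousLinearMap.pi (fun i => ∑ j, (Lr (e i j)) ∘L (PiLp.proj 2 (fun _ : ι => Hs G) j))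

theorem opE_apply (e : Matrix ι ι (MonoidAlgebra ℝ G)) (x : Vs G ι) (i : ι) :
    (opE e x) i = ∑ j, Lr (e i j) (x j) := by
  simp [opE]

theorem opE_mul (e f : Matrix ι ι (MonoidAlgebra ℝ G)) (x : Vs G ι) :
    opE (e * f) x = opE e (opE f x) := by
  ext1 i
  rw [opE_apply, opE_apply]
  simp only [opE_apply, Matrix.mul_apply, map_sum]
  simp only [map_mul, sum_apply]
  rw [Finset.sum_comm]
  rfl

/-- Right translation. -/
noncomputable def RV (s : G) : Vs G ι ≃ₗᵢ[ℝ] Vs G ι :=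
  LinearIsometryEquiv.piLpCongrRight 2 (fun _ : ι => Rt s)

theorem RV_apply (s : G) (x : Vs G ι) (i : ι) : (RV s x) i = Rt s (x i) := rfl

theorem RV_single (s : G) (i : ι) (a : Hs G) :
    RV s (PiLp.single 2 i a : Vs G ι) = PiLp.single 2 i (Rt s a) :=
  LinearIsometryEquiv.piLpCongrRight_single (fun _ : ι => Rt s) i a

theorem opE_comm_RV (e : Matrix ι ι (MonoidAlgebra ℝ G)) (s : G) (x : Vs G ι) :
    opE e (RV s x) = RV s (opE e x) := by
  ext1 i
  rw [opE_apply, RV_apply, opE_apply, map_sum]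
  refine Finset.sum_congr rfl fun j _ => ?_
  rw [RV_apply, Lr_comm_Rt]

theorem Rt_inv (s : G) (x : Hs G) : Rt s (Rt s⁻¹ x) = x := by
  have : (Rt s).toContinuousLinearEquiv.toContinuousLinearMap ∘L
    (Rt s⁻¹).toContinuousLinearEquiv.toContinuousLinearMap = ContinuousLinearMap.id ℝ _ := by
    apply ext_bs
    intro g
    change Rt s (Rt s⁻¹ (bs G g)) = _
    rw [Rt_bs, Rt_bs]; simp
  exact DFunLike.congr_fun this x

theorem RV_inv (s : G) (x : Vs G ι) : RV s (RV s⁻¹ x) = x := by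
  ext1 i
  rw [RV_apply, RV_apply, Rt_inv]

theorem inner_single (i : ι) (a : Hs G) (x : Vs G ι) :
    ⟪(PiLp.single 2 i a : Vs G ι), x⟫_ℝ = ⟪a, x i⟫_ℝ := by
  rw [PiLp.inner_apply, Finset.sum_eq_single i]
  · rw [PiLp.single_eq_same]
  · intro j _ hj
    rw [PiLp.single_eq_of_ne _ hj, inner_zero_left]
  · intro h; exact absurd (Finset.mem_univ i) h

theorem opE_single (e : Matrix ι ι (MonoidAlgebra ℝ G)) (i j : ι) (a : Hs G) :
    (opE e (PiLp.single 2 i a : Vs G ι)) j = Lr (e j i) a := by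
  rw [opE_apply, Finset.sum_eq_single i]
  · rw [PiLp.single_eq_same]
  · intro k _ hk
    rw [PiLp.single_eq_of_ne _ hk, map_zero]
  · intro h; exact absurd (Finset.mem_univ i) h

theorem trace_nonneg (e : Matrix ι ι (MonoidAlgebra ℝ G)) (he : e * e = e) :
    0 ≤ ∑ i, (e i i).coeff 1 ∧ (∑ i, (e i i).coeff 1 = 0 → e = 0) := by
  classical
  set E := opE e with hE
  have hEE : ∀ x, E (E x) = E x := by
    intro x
    rw [hE, ← opE_mul, he]
  let K : Submodule ℝ (Vs G ι) := LinearMap.ker ((1 : Vs G ι →L[ℝ] Vs G ι) - E).toLinearMap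
  have hKmem : ∀ x, x ∈ K ↔ E x = x := by
    intro x
    simp only [K, LinearMap.mem_ker]
    change x - E x = 0 ↔ _
    rw [sub_eq_zero]; exact eq_comm
  have hKc : IsClosed (K : Set (Vs G ι)) := by
    exact ContinuousLinearMap.isClosed_ker ((1 : Vs G ι →L[ℝ] Vs G ι) - E)
  have : CompleteSpace K := hKc.completeSpace_coe
  let p : Vs G ι →L[ℝ] Vs G ι := K.starProjection
  have hpK : ∀ x, p x ∈ K := fun x => K.starProjection_apply_mem x
  have hpid : ∀ x ∈ K, p x = x := fun x hx => K.starProjection_eq_self_iff.2 hx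
  have hpsa : ∀ x y, ⟪p x, y⟫_ℝ = ⟪x, p y⟫_ℝ := fun x y => K.inner_starProjection_left_eq_right x y
  have hKR : ∀ s x, x ∈ K → RV s x ∈ K := by
    intro s x hx
    rw [hKmem] at hx ⊢
    rw [hE, opE_comm_RV, ← hE, hx]
  have hpR : ∀ s x, p (RV s x) = RV s (p x) := by
    intro s x
    apply K.eq_starProjection_of_mem_of_inner_eq_zero (hKR s _ (hpK x))
    intro w hw
    have h2 : RV s⁻¹ w ∈ K := hKR _ _ hw
    rw [← RV_inv s w, ← map_sub, LinearIsometryEquiv.inner_map_map]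
    exact K.starProjection_inner_eq_zero x _ h2
  let δ : ι → Vs G ι := fun i => PiLp.single 2 i (bs G 1)
  have hδ : ∀ i g, (PiLp.single 2 i (bs G g) : Vs G ι) = RV g (δ i) := by
    intro i g
    rw [RV_single, Rt_bs, one_mul]
  let x0 : ι → Vs G ι := fun i => p (δ i)
  have hsym : ∀ i j g, ⟪bs G g, x0 i j⟫_ℝ = ⟪bs G g⁻¹, x0 j i⟫_ℝ := by
    intro i j g
    calc ⟪bs G g, x0 i j⟫_ℝ = ⟪(PiLp.single 2 j (bs G g) : Vs G ι), p (δ i)⟫_ℝ := by
          rw [inner_single]
      _ = ⟪p (RV g (δ j)), δ i⟫_ℝ := by rw [hδ, hpsa]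
      _ = ⟪RV g (x0 j), RV g (RV g⁻¹ (δ i))⟫_ℝ := by rw [hpR, RV_inv]
      _ = ⟪x0 j, RV g⁻¹ (δ i)⟫_ℝ := by rw [LinearIsometryEquiv.inner_map_map]
      _ = ⟪(PiLp.single 2 i (bs G g⁻¹) : Vs G ι), x0 j⟫_ℝ := by rw [hδ, real_inner_comm]
      _ = _ := by rw [inner_single]
  have key : ∑ i, (e i i).coeff 1 = ∑ i, ⟪x0 i, x0 i⟫_ℝ := by
    have a1 : ∀ i, (e i i).coeff 1 = ⟪E (δ i), x0 i⟫_ℝ := by
      intro i
      have : ⟪E (δ i), x0 i⟫_ℝ = ⟪E (δ i), δ i⟫_ℝ := by
        change ⟪E (δ i), p (δ i)⟫_ℝ = _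
        rw [← hpsa, hpid]
        rw [hKmem, hEE]
      rw [this, real_inner_comm, inner_single, hE, opE_single, real_inner_comm, inner_Lr_bs_bs]
    have a2 : ∑ i, ⟪E (δ i), x0 i⟫_ℝ = ∑ i, ⟪E (x0 i), δ i⟫_ℝ := by
      have b1 : ∀ i, ⟪E (δ i), x0 i⟫_ℝ = ∑ j, ⟪Lr (e j i) (bs G 1), x0 i j⟫_ℝ := by
        intro i
        rw [PiLp.inner_apply]
        refine Finset.sum_congr rfl fun j _ => ?_
        rw [hE, opE_single]
      have b2 : ∀ i, ⟪E (x0 i), δ i⟫_ℝ = ∑ j, ⟪Lr (e i j) (x0 i j), bs G 1⟫_ℝ := by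
        intro i
        rw [real_inner_comm, inner_single, hE, opE_apply, inner_sum]
        refine Finset.sum_congr rfl fun j _ => real_inner_comm _ _
      rw [Finset.sum_congr rfl (fun i _ => b1 i), Finset.sum_congr rfl (fun i _ => b2 i),
        Finset.sum_comm]
      refine Finset.sum_congr rfl fun j _ => Finset.sum_congr rfl fun i _ => ?_
      rw [inner_Lr_bs, Lr_apply, Finsupp.sum, Finsupp.sum, sum_inner]
      refine Finset.sum_congr rfl fun h _ => ?_
      rw [real_inner_smul_left]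
      congr 1
      rw [hsym]
      have a4 : bs G 1 = lam h (bs G h⁻¹) := by rw [lam_bs]; simp
      conv_rhs => rw [a4]
      change _ = ⟪Tp (Equiv.mulLeft h) (x0 j i), Tp (Equiv.mulLeft h) (bs G h⁻¹)⟫_ℝ
      rw [LinearIsometryEquiv.inner_map_map, real_inner_comm]
    have a5 : ∀ i, E (x0 i) = x0 i := fun i => (hKmem _).1 (hpK _)
    rw [Finset.sum_congr rfl (fun i _ => a1 i), a2]
    refine Finset.sum_congr rfl fun i _ => ?_
    rw [a5]
    have : ⟪x0 i, δ i⟫_ℝ = ⟪p (x0 i), δ i⟫_ℝ := by rw [hpid _ (hpK _)]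
    rw [this, hpsa]
  refine ⟨?_, ?_⟩
  · rw [key]
    exact Finset.sum_nonneg (fun i _ => real_inner_self_nonneg)
  · intro h0
    rw [key, Finset.sum_eq_zero_iff_of_nonneg (fun i _ => real_inner_self_nonneg)] at h0
    have hx00 : ∀ i, p (δ i) = 0 := fun i => inner_self_eq_zero.1 (h0 i (Finset.mem_univ i))
    have hE0 : ∀ i, E (δ i) = 0 := by
      intro i
      have h1 : p (E (δ i)) = E (δ i) := hpid _ (by rw [hKmem, hEE])
      have h3 : ∀ j g, ⟪E (δ i), (PiLp.single 2 j (bs G g) : Vs G ι)⟫_ℝ = 0 := by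
        intro j g
        rw [← h1, hpsa, hδ, hpR, hx00, map_zero, inner_zero_right]
      ext1 j
      have h4 : ∀ g, ⟪bs G g, (E (δ i)) j⟫_ℝ = 0 := by
        intro g
        rw [← inner_single, real_inner_comm]
        exact h3 j g
      have h5 : (bs G).repr ((E (δ i)) j) = 0 := by
        ext g
        rw [HilbertBasis.repr_apply_apply]
        exact h4 g
      have h6 := (bs G).repr.injective (h5.trans (map_zero (bs G).repr).symm)
      exact h6
    ext i j g
    have h1 := inner_Lr_bs_bs (e i j) g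
    have h2 : Lr (e i j) (bs G 1) = 0 := by
      rw [← opE_single e j i (bs G 1)]
      have := hE0 j
      rw [hE] at this
      change (opE e (δ j)) i = 0
      rw [this]; rfl
    rw [h2, inner_zero_left] at h1
    rw [← h1]; simp

end Pool.Agent.Lib.MP_551055_al.KaplanskyMatrix
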