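import Pool.Agent.Lib.MP_551055_al.Dual
import Pool.Agent.Lib.MP_551055_al.KaplanskyMatrix

/-!
Stable freeness of the image of an idempotent matrix in terms of matrices; traces.
-/

set_option autoImplicit false
set_option linter.unusedSectionVars false

namespace Pool.Agent.Lib.MP_551055_al

universe u v w z

open Matrix

section General

variable {R : Type u} [Ring R]

theorem matrices_of_stFree {n : ℕ} (e : Matrix (Fin n) (Fin n) R) (he : e * e = e)
    (h : StFree R (LinearMap.range (Matrix.toLinearMapRight' e))) :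
    ∃ (a b : ℕ) (MU : Matrix (Fin n ⊕ Fin a) (Fin b) R) (MV : Matrix (Fin b) (Fin n ⊕ Fin a) R),
      MV * MU = 1 ∧ MU * MV = Matrix.fromBlocks e 0 0 (1 : Matrix (Fin a) (Fin a) R) := by
  classical
  obtain ⟨a, b, ⟨Φ⟩⟩ := h
  let S := LinearEquiv.sumArrowLequivProdArrow (Fin n) (Fin a) R R
  let U : (Fin n ⊕ Fin a → R) →ₗ[R] (Fin b → R) :=
    Φ.toLinearMap ∘ₗ (LinearMap.prodMap (Matrix.toLinearMapRight' e).rangeRestrict
      (LinearMap.id : (Fin a → R) →ₗ[R] (Fin a → R))) ∘ₗ S.toLinearMap
  let V : (Fin b → R) →ₗ[R] (Fin n ⊕ Fin a → R) :=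
    S.symm.toLinearMap ∘ₗ (LinearMap.prodMap
      (LinearMap.range (Matrix.toLinearMapRight' e)).subtype
      (LinearMap.id : (Fin a → R) →ₗ[R] (Fin a → R))) ∘ₗ Φ.symm.toLinearMap
  have hfix : ∀ v ∈ LinearMap.range (Matrix.toLinearMapRight' e),
      Matrix.toLinearMapRight' e v = v := by
    rintro _ ⟨v, rfl⟩
    rw [← Matrix.toLinearMapRight'_mul_apply, he]
  have hUV : U ∘ₗ V = LinearMap.id := by
    apply LinearMap.ext
    intro v
    simp only [U, V, LinearMap.comp_apply, LinearEquiv.coe_coe, LinearEquiv.apply_symm_apply,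
      LinearMap.id_apply, LinearMap.prodMap_apply]
    rw [← LinearEquiv.apply_symm_apply Φ v]
    congr 1
    rw [LinearEquiv.apply_symm_apply Φ v]
    refine Prod.ext (Subtype.ext ?_) rfl
    exact hfix _ (Φ.symm v).1.2
  have hVU : V ∘ₗ U = Matrix.toLinearMapRight'
      (Matrix.fromBlocks e 0 0 (1 : Matrix (Fin a) (Fin a) R)) := by
    apply LinearMap.ext
    intro x
    rw [fromBlocks_apply_sum]
    simp only [U, V, LinearMap.comp_apply, LinearEquiv.coe_coe, LinearEquiv.symm_apply_apply,
      LinearMap.prodMap_apply]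
    ext i
    cases i <;> rfl
  obtain ⟨MU, hMU⟩ :=
    (Matrix.toLinearMapRight' (m := Fin n ⊕ Fin a) (n := Fin b) (R := R)).surjective U
  obtain ⟨MV, hMV⟩ :=
    (Matrix.toLinearMapRight' (m := Fin b) (n := Fin n ⊕ Fin a) (R := R)).surjective V
  refine ⟨a, b, MU, MV, ?_, ?_⟩
  · apply (Matrix.toLinearMapRight' (m := Fin b) (n := Fin b) (R := R)).injective
    rw [Matrix.toLinearMapRight'_mul, hMU, hMV, hUV, Matrix.toLinearMapRight'_one]
  · apply (Matrix.toLinearMapRight' (m := Fin n ⊕ Fin a) (n := Fin n ⊕ Fin a) (R := R)).injective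
    rw [Matrix.toLinearMapRight'_mul, hMU, hMV, hVU]

theorem stFree_of_matrices {n : ℕ} (e : Matrix (Fin n) (Fin n) R) (he : e * e = e) {a b : ℕ}
    (MU : Matrix (Fin n ⊕ Fin a) (Fin b) R) (MV : Matrix (Fin b) (Fin n ⊕ Fin a) R)
    (h1 : MV * MU = 1) (h2 : MU * MV = Matrix.fromBlocks e 0 0 (1 : Matrix (Fin a) (Fin a) R)) :
    StFree R (LinearMap.range (Matrix.toLinearMapRight' e)) := by
  classical
  let S := LinearEquiv.sumArrowLequivProdArrow (Fin n) (Fin a) R R
  have hfix : ∀ v ∈ LinearMap.range (Matrix.toLinearMapRight' e),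
      Matrix.toLinearMapRight' e v = v := by
    rintro _ ⟨v, rfl⟩
    rw [← Matrix.toLinearMapRight'_mul_apply, he]
  let U' : (LinearMap.range (Matrix.toLinearMapRight' e) × (Fin a → R)) →ₗ[R] (Fin b → R) :=
    (Matrix.toLinearMapRight' MU) ∘ₗ S.symm.toLinearMap ∘ₗ
      (LinearMap.prodMap (LinearMap.range (Matrix.toLinearMapRight' e)).subtype LinearMap.id)
  have hU' : Function.Bijective U' := by
    constructor
    · rw [← LinearMap.ker_eq_bot, eq_bot_iff]
      rintro ⟨⟨q, hq⟩, w⟩ hv
      have hv' : Matrix.toLinearMapRight' MU (Sum.elim q w) = 0 := hv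
      have h3 : Matrix.toLinearMapRight' (MU * MV) (Sum.elim q w) = 0 := by
        rw [Matrix.toLinearMapRight'_mul_apply, hv', map_zero]
      rw [h2, fromBlocks_apply_sum, Sum.elim_comp_inl, Sum.elim_comp_inr, hfix q hq] at h3
      have hq0 : q = 0 := by
        ext i; exact congrFun h3 (Sum.inl i)
      have hw0 : w = 0 := by
        ext i; exact congrFun h3 (Sum.inr i)
      subst hq0
      subst hw0
      exact Submodule.zero_mem _
    · intro v
      set x := Matrix.toLinearMapRight' MV v with hx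
      have hx1 : Matrix.toLinearMapRight' MU x = v := by
        rw [hx, ← Matrix.toLinearMapRight'_mul_apply, h1, Matrix.toLinearMapRight'_one,
          LinearMap.id_apply]
      have hx2 : x = Sum.elim (Matrix.toLinearMapRight' e (x ∘ Sum.inl)) (x ∘ Sum.inr) := by
        rw [← fromBlocks_apply_sum, ← h2, Matrix.toLinearMapRight'_mul_apply, hx1]
      refine ⟨(⟨Matrix.toLinearMapRight' e (x ∘ Sum.inl), ⟨_, rfl⟩⟩, x ∘ Sum.inr), ?_⟩
      change Matrix.toLinearMapRight' MU
        (Sum.elim (Matrix.toLinearMapRight' e (x ∘ Sum.inl)) (x ∘ Sum.inr)) = v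
      rw [← hx2, hx1]
  exact ⟨a, b, ⟨LinearEquiv.ofBijective U' hU'⟩⟩

/-- Stable freeness is preserved by ring homomorphisms. -/
theorem stFree_map {S : Type v} [Ring S] (f : R →+* S) {n : ℕ} (e : Matrix (Fin n) (Fin n) R)
    (he : e * e = e) (h : StFree R (LinearMap.range (Matrix.toLinearMapRight' e))) :
    StFree S (LinearMap.range (Matrix.toLinearMapRight' (e.map f))) := by
  obtain ⟨a, b, MU, MV, h1, h2⟩ := matrices_of_stFree e he h
  apply stFree_of_matrices (e.map f) _ (MU.map f) (MV.map f)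
  · rw [← Matrix.map_mul, h1, Matrix.map_one f (map_zero f) (map_one f)]
  · rw [← Matrix.map_mul, h2, Matrix.fromBlocks_map, Matrix.map_one f (map_zero f) (map_one f),
      Matrix.map_zero _ (map_zero f), Matrix.map_zero _ (map_zero f)]
  · rw [← Matrix.map_mul, he]

theorem StFree.projective {P : Type v} [AddCommGroup P] [Module R P] (h : StFree R P) :
    Module.Projective R P := by
  obtain ⟨a, b, ⟨Φ⟩⟩ := h
  have h1 : Module.Projective R (P × (Fin a → R)) := Module.Projective.of_equiv Φ.symm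
  exact Module.Projective.of_split (LinearMap.inl R P (Fin a → R)) (LinearMap.fst R P (Fin a → R))
    (by apply LinearMap.ext; intro x; rfl)

end General

section Trace

variable {k : Type u} [CommRing k] {G : Type v} [Group G]

theorem coeff_one_mul_comm (a b : MonoidAlgebra k G) : (a * b).coeff 1 = (b * a).coeff 1 := by
  classical
  induction a using MonoidAlgebra.induction_linear with
  | zero => simp
  | add a a' ha ha' => rw [add_mul, mul_add, MonoidAlgebra.coeff_add, MonoidAlgebra.coeff_add,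
      Finsupp.add_apply, Finsupp.add_apply, ha, ha']
  | single g c =>
    induction b using MonoidAlgebra.induction_linear with
    | zero => simp
    | add b b' hb hb' => rw [add_mul, mul_add, MonoidAlgebra.coeff_add, MonoidAlgebra.coeff_add,
        Finsupp.add_apply, Finsupp.add_apply, hb, hb']
    | single h d =>
      rw [MonoidAlgebra.single_mul_single, MonoidAlgebra.single_mul_single,
        MonoidAlgebra.coeff_single, MonoidAlgebra.coeff_single, Finsupp.single_apply,
        Finsupp.single_apply, mul_comm c d]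
      have : g * h = 1 ↔ h * g = 1 := by
        rw [mul_eq_one_iff_eq_inv, mul_eq_one_iff_inv_eq, eq_comm]
      simp only [this]

/-- The Kaplansky trace. -/
noncomputable def tau {ι : Type w} [Fintype ι] (M : Matrix ι ι (MonoidAlgebra k G)) : k :=
  ∑ i, (M i i).coeff 1

theorem tau_mul_comm {ι : Type w} {κ : Type z} [Fintype ι] [Fintype κ]
    (A : Matrix ι κ (MonoidAlgebra k G)) (B : Matrix κ ι (MonoidAlgebra k G)) :
    tau (A * B) = tau (B * A) := by
  unfold tau
  simp only [Matrix.mul_apply, MonoidAlgebra.coeff_sum, Finsupp.finsetSum_apply]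
  rw [Finset.sum_comm]
  exact Finset.sum_congr rfl (fun j _ => Finset.sum_congr rfl (fun i _ => coeff_one_mul_comm _ _))

theorem tau_sub {ι : Type w} [Fintype ι] (A B : Matrix ι ι (MonoidAlgebra k G)) :
    tau (A - B) = tau A - tau B := by
  unfold tau
  simp only [Matrix.sub_apply, MonoidAlgebra.coeff_sub, Finsupp.sub_apply]
  rw [Finset.sum_sub_distrib]

theorem tau_one {ι : Type w} [Fintype ι] [DecidableEq ι] :
    tau (1 : Matrix ι ι (MonoidAlgebra k G)) = (Fintype.card ι : k) := by
  unfold tau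
  simp

theorem tau_of_stFree {n : ℕ} (e : Matrix (Fin n) (Fin n) (MonoidAlgebra k G)) (he : e * e = e)
    (h : StFree (MonoidAlgebra k G) (LinearMap.range (Matrix.toLinearMapRight' e))) :
    ∃ z : ℤ, tau e = (z : k) := by
  obtain ⟨a, b, MU, MV, h1, h2⟩ := matrices_of_stFree e he h
  have h3 := tau_mul_comm MU MV
  rw [h1, h2, tau_one] at h3
  have h4 : tau (Matrix.fromBlocks e 0 0 (1 : Matrix (Fin a) (Fin a) (MonoidAlgebra k G)))
      = tau e + (a : k) := by
    unfold tau
    rw [Fintype.sum_sum_type]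
    simp
  rw [h4] at h3
  refine ⟨(b : ℤ) - a, ?_⟩
  push_cast
  rw [eq_sub_iff_add_eq, h3]
  simp

/-- **Kaplansky's theorem** over the rationals. -/
theorem kaplansky_rat {n : ℕ} (e : Matrix (Fin n) (Fin n) (MonoidAlgebra ℚ G)) (he : e * e = e) :
    0 ≤ tau e ∧ (tau e = 0 → e = 0) := by
  classical
  let c : MonoidAlgebra ℚ G →+* MonoidAlgebra ℝ G := MonoidAlgebra.mapRingHom G (Rat.castHom ℝ)
  have hc : ∀ a g, (c a).coeff g = ((a.coeff g : ℚ) : ℝ) := fun a g => by
    simp [c, MonoidAlgebra.coeff_mapRingHom]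
  have he' : e.map c * e.map c = e.map c := by rw [← Matrix.map_mul, he]
  obtain ⟨h1, h2⟩ := KaplanskyMatrix.trace_nonneg (e.map c) he'
  have h3 : ∑ i, ((e.map c) i i).coeff 1 = ((tau e : ℚ) : ℝ) := by
    unfold tau
    push_cast
    exact Finset.sum_congr rfl (fun i _ => hc _ _)
  rw [h3] at h1 h2
  refine ⟨by exact_mod_cast h1, fun h0 => ?_⟩
  have h4 := h2 (by rw [h0]; simp)
  ext i j g
  have h5 := congrFun (congrFun h4 i) j
  have h6 : (c (e i j)).coeff g = 0 := by
    have : c (e i j) = 0 := h5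
    rw [this]; rfl
  rw [hc] at h6
  have h7 : (e i j).coeff g = 0 := by exact_mod_cast h6
  rw [h7]; rfl

end Trace

end Pool.Agent.Lib.MP_551055_al
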