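import Pool.Agent.Lib.MP_551055_al.TwoTerm
import Pool.Agent.Lib.MP_551055_al.Dual

/-!
Projective modules over `ℤ[G]`, `G` torsion-free, presented by a matrix all of whose rows (or all
of whose columns), with one exception, have at most two terms.
-/

set_option autoImplicit false

namespace Pool.Agent.Lib.MP_551055_al

universe u v w

open MonoidAlgebra

variable {G : Type u} [Group G]

/-- The standard involution of `ℤ[G]`, as a ring homomorphism to the opposite ring. -/
noncomputable def invHom (G : Type u) [Group G] :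
    MonoidAlgebra ℤ G →ₐ[ℤ] (MonoidAlgebra ℤ G)ᵐᵒᵖ :=
  MonoidAlgebra.lift ℤ (MonoidAlgebra ℤ G)ᵐᵒᵖ G
    { toFun := fun g => MulOpposite.op (single g⁻¹ 1)
      map_one' := by rw [inv_one]; rfl
      map_mul' := fun g h => by
        rw [← MulOpposite.op_mul, MonoidAlgebra.single_mul_single, mul_inv_rev, mul_one] }

theorem invHom_single (g : G) (a : ℤ) : invHom G (single g a) = MulOpposite.op (single g⁻¹ a) := by
  rw [invHom, MonoidAlgebra.lift_single]
  change a • MulOpposite.op (single g⁻¹ (1 : ℤ)) = _
  rw [← MulOpposite.op_smul, MonoidAlgebra.smul_single, smul_eq_mul, mul_one]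

theorem invHom_invol (x : MonoidAlgebra ℤ G) : (invHom G (invHom G x).unop).unop = x := by
  induction x using MonoidAlgebra.induction_linear with
  | zero => simp
  | add x y hx hy => rw [map_add, MulOpposite.unop_add, map_add, MulOpposite.unop_add, hx, hy]
  | single g a => rw [invHom_single, MulOpposite.unop_op, invHom_single, MulOpposite.unop_op,
      inv_inv]

/-- The standard involution. -/
noncomputable abbrev starInst (G : Type u) [Group G] : StarRing (MonoidAlgebra ℤ G) where
  star x := (invHom G x).unop
  star_involutive := invHom_invol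
  star_mul x y := by rw [map_mul, MulOpposite.unop_mul]
  star_add x y := by rw [map_add, MulOpposite.unop_add]

theorem invHom_coeff (x : MonoidAlgebra ℤ G) (g : G) :
    (invHom G x).unop.coeff g = x.coeff g⁻¹ := by
  classical
  induction x using MonoidAlgebra.induction_linear with
  | zero => simp
  | add x y hx hy =>
    rw [map_add, MulOpposite.unop_add, MonoidAlgebra.coeff_add, MonoidAlgebra.coeff_add,
      Finsupp.add_apply, Finsupp.add_apply, hx, hy]
  | single h a =>
    rw [invHom_single, MulOpposite.unop_op, MonoidAlgebra.coeff_single, MonoidAlgebra.coeff_single,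
      Finsupp.single_apply, Finsupp.single_apply]
    simp only [inv_eq_iff_eq_inv]

theorem invHom_support_card (x : MonoidAlgebra ℤ G) :
    (invHom G x).unop.coeff.support.card = x.coeff.support.card := by
  classical
  refine Finset.card_bij' (fun g _ => g⁻¹) (fun g _ => g⁻¹) ?_ ?_ ?_ ?_
  · intro g hg
    rw [Finsupp.mem_support_iff] at hg ⊢
    rwa [invHom_coeff] at hg
  · intro g hg
    rw [Finsupp.mem_support_iff] at hg ⊢
    rwa [invHom_coeff, inv_inv]
  · intro g _; exact inv_inv g
  · intro g _; exact inv_inv g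

/-- The number of terms of a vector over `ℤ[G]`. -/
def numTerms {n : ℕ} (r : Fin n → MonoidAlgebra ℤ G) : ℕ := ∑ i, (r i).coeff.support.card

theorem isTwoTerm_of_numTerms {n : ℕ} {r : Fin n → MonoidAlgebra ℤ G} (h : numTerms r ≤ 2) :
    r = 0 ∨ IsTwoTerm r := by
  classical
  let S : Finset (Σ _ : Fin n, G) := Finset.univ.sigma (fun i => (r i).coeff.support)
  have hS : S.card = numTerms r := Finset.card_sigma _ _
  have hr : r = ∑ p ∈ S, (Pi.single p.1 (single p.2 ((r p.1).coeff p.2)) :
      Fin n → MonoidAlgebra ℤ G) := by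
    rw [Finset.sum_sigma]
    have h1 : ∀ i, (∑ g ∈ (r i).coeff.support, (Pi.single i (single g ((r i).coeff g)) :
        Fin n → MonoidAlgebra ℤ G)) = Pi.single i (r i) := by
      intro i
      have : r i = ∑ g ∈ (r i).coeff.support, single g ((r i).coeff g) := by
        conv_lhs => rw [← MonoidAlgebra.sum_coeff_single (r i)]
        rfl
      conv_rhs => rw [this]
      rw [← LinearMap.single_apply (R := ℤ) (φ := fun _ : Fin n => MonoidAlgebra ℤ G)]
      rw [map_sum]
      rfl
    rw [Finset.sum_congr rfl (fun i _ => h1 i)]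
    exact (Finset.univ_sum_single r).symm
  rw [← hS] at h
  have h3 : S.card = 0 ∨ S.card = 1 ∨ S.card = 2 := by omega
  rcases h3 with h3 | h3 | h3
  · left
    rw [Finset.card_eq_zero] at h3
    rw [hr, h3, Finset.sum_empty]
  · right
    obtain ⟨p, hp⟩ := Finset.card_eq_one.1 h3
    rw [hp, Finset.sum_singleton] at hr
    refine ⟨p.1, p.1, p.2, p.2, (r p.1).coeff p.2, 0, ?_⟩
    rw [MonoidAlgebra.single_zero, Pi.single_zero, add_zero]
    exact hr
  · right
    obtain ⟨p, q, hpq, hp⟩ := Finset.card_eq_two.1 h3
    rw [hp, Finset.sum_pair hpq] at hr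
    exact ⟨p.1, q.1, p.2, q.2, _, _, hr⟩

theorem stFree_cok_rows (hG : ∀ g : G, IsOfFinOrder g → g = 1) {m n : ℕ}
    (A : Matrix (Fin m) (Fin n) (MonoidAlgebra ℤ G))
    [Module.Projective (MonoidAlgebra ℤ G) (Cok A)]
    (hA : {i | 2 < numTerms (A i)}.Subsingleton) : StFree (MonoidAlgebra ℤ G) (Cok A) := by
  classical
  let R := MonoidAlgebra ℤ G
  let π := (LinearMap.range (Matrix.toLinearMapRight' A)).mkQ
  let x : Fin n → Cok A := fun j => π (Pi.single j 1)
  have hx : Fintype.linearCombination R x = π := by
    apply LinearMap.pi_ext'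
    intro j
    ext1
    simp [x]
  have hx1 : Submodule.span R (Set.range x) = ⊤ := by
    rw [← Fintype.range_linearCombination, hx]
    exact Submodule.range_mkQ _
  have hw : ∃ w : Fin n → R, LinearMap.range (Matrix.toLinearMapRight' A)
      = Submodule.span R (insert w {r | IsTwoTerm r ∧ ∃ i, A i = r}) := by
    have hrange : LinearMap.range (Matrix.toLinearMapRight' A)
        = Submodule.span R (Set.range A) := by
      apply le_antisymm
      · rintro _ ⟨v, rfl⟩
        rw [Matrix.toLinearMapRight'_apply]
        have : Matrix.vecMul v A = ∑ i, v i • A i := by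
          ext j
          simp [Matrix.vecMul, dotProduct]
        rw [this]
        exact Submodule.sum_mem _ (fun i _ => Submodule.smul_mem _ _
          (Submodule.subset_span ⟨i, rfl⟩))
      · rw [Submodule.span_le]
        rintro _ ⟨i, rfl⟩
        exact ⟨Pi.single i 1, by rw [Matrix.toLinearMapRight'_apply, Matrix.single_one_vecMul]; rfl⟩
    rw [hrange]
    have key : ∀ w : Fin n → R, (w = 0 ∨ ∃ i, A i = w) →
        (∀ i, A i = w ∨ numTerms (A i) ≤ 2) → Submodule.span R (Set.range A)
          = Submodule.span R (insert w {r | IsTwoTerm r ∧ ∃ i, A i = r}) := by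
      intro w hw1 hw2
      apply le_antisymm
      · rw [Submodule.span_le]
        rintro _ ⟨i, rfl⟩
        rcases hw2 i with h | h
        · rw [h]; exact Submodule.subset_span (Or.inl rfl)
        · rcases isTwoTerm_of_numTerms h with h0 | h0
          · rw [h0]; exact Submodule.zero_mem _
          · exact Submodule.subset_span (Or.inr ⟨h0, i, rfl⟩)
      · rw [Submodule.span_le]
        rintro r (rfl | ⟨-, i, rfl⟩)
        · rcases hw1 with rfl | ⟨i, rfl⟩
          · exact Submodule.zero_mem _
          · exact Submodule.subset_span ⟨i, rfl⟩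
        · exact Submodule.subset_span ⟨i, rfl⟩
    by_cases hex : ∃ i0, 2 < numTerms (A i0)
    · obtain ⟨i0, hi0⟩ := hex
      refine ⟨A i0, key _ (Or.inr ⟨i0, rfl⟩) ?_⟩
      intro i
      by_cases hi : 2 < numTerms (A i)
      · left; rw [hA (show i ∈ {i | 2 < numTerms (A i)} from hi) hi0]
      · right; omega
    · push Not at hex
      exact ⟨0, key _ (Or.inl rfl) (fun i => Or.inr (hex i))⟩
  obtain ⟨w, hw⟩ := hw
  refine stFree_of_twoTerm_relations hG x hx1 {r | IsTwoTerm r ∧ ∃ i, A i = r} w
    (fun r hr => hr.1) ?_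
  rw [hx, ← hw]
  exact Submodule.ker_mkQ _

theorem stFree_cok (hG : ∀ g : G, IsOfFinOrder g → g = 1) {m n : ℕ}
    (A : Matrix (Fin m) (Fin n) (MonoidAlgebra ℤ G))
    [Module.Projective (MonoidAlgebra ℤ G) (Cok A)]
    (hA : {i | 2 < numTerms (A i)}.Subsingleton ∨ {j | 2 < numTerms (fun i => A i j)}.Subsingleton) :
    StFree (MonoidAlgebra ℤ G) (Cok A) := by
  rcases hA with hA | hA
  · exact stFree_cok_rows hG A hA
  · let _inst := starInst G
    apply stFree_cok_of_conjTranspose
    intro hproj
    apply stFree_cok_rows hG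
    have hn : ∀ j, numTerms (A.conjTranspose j) = numTerms (fun i => A i j) := by
      intro j
      unfold numTerms
      exact Finset.sum_congr rfl (fun i _ => invHom_support_card (A i j))
    intro j hj j' hj'
    refine hA (x := j) (y := j') ?_ ?_
    · change 2 < numTerms (fun i => A i j)
      rw [← hn j]; exact hj
    · change 2 < numTerms (fun i => A i j')
      rw [← hn j']; exact hj'

theorem stFree_of_presentation (hG : ∀ g : G, IsOfFinOrder g → g = 1)
    {P : Type v} [AddCommGroup P] [Module (MonoidAlgebra ℤ G) P]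
    (hP : Module.Projective (MonoidAlgebra ℤ G) P) {m n : ℕ}
    (A : Matrix (Fin m) (Fin n) (MonoidAlgebra ℤ G)) (x : Fin n → P)
    (hx : Submodule.span (MonoidAlgebra ℤ G) (Set.range x) = ⊤)
    (hrel : ∀ r : Fin n → MonoidAlgebra ℤ G,
      ∑ j, r j • x j = 0 ↔ ∃ u : Fin m → MonoidAlgebra ℤ G, r = Matrix.vecMul u A)
    (hA : {i | 2 < numTerms (A i)}.Subsingleton ∨ {j | 2 < numTerms (fun i => A i j)}.Subsingleton) :
    StFree (MonoidAlgebra ℤ G) P := by
  classical
  have hsurj : Function.Surjective (Fintype.linearCombination (MonoidAlgebra ℤ G) x) := by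
    rw [← LinearMap.range_eq_top, Fintype.range_linearCombination, hx]
  have hker : LinearMap.range (Matrix.toLinearMapRight' A)
      = LinearMap.ker (Fintype.linearCombination (MonoidAlgebra ℤ G) x) := by
    ext r
    rw [LinearMap.mem_ker, Fintype.linearCombination_apply, hrel r]
    constructor
    · rintro ⟨u, rfl⟩; exact ⟨u, rfl⟩
    · rintro ⟨u, rfl⟩; exact ⟨u, rfl⟩
  let e : Cok A ≃ₗ[MonoidAlgebra ℤ G] P :=
    (Submodule.quotEquivOfEq _ _ hker).trans (LinearMap.quotKerEquivOfSurjective _ hsurj)
  have : Module.Projective (MonoidAlgebra ℤ G) (Cok A) := Module.Projective.of_equiv e.symm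
  exact (stFree_cok hG A hA).congr e

end Pool.Agent.Lib.MP_551055_al
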