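import Pool.Agent.Lib.MP_551055_al.FreeSubgroupMain
import Pool.Agent.Lib.MP_551055_al.TwoTermMatrix

/-!
Projective modules over `ℤ[G]` with a presentation matrix all of whose rows but one, or all of whose
columns but one, have coefficients in `ℤ[H]` for a free subgroup `H`.
-/

set_option autoImplicit false
set_option linter.unusedSectionVars false

namespace Pool.Agent.Lib.MP_551055_al

universe u v w z

open MonoidAlgebra

variable {G : Type u} [Group G]

theorem mk_mem_range_map {Y : Type} {B : Type u} (f : Y → B) (L : List (B × Bool))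
    (hL : ∀ p ∈ L, p.1 ∈ Set.range f) : FreeGroup.mk L ∈ (FreeGroup.map f).range := by
  induction L with
  | nil => exact ⟨1, map_one _⟩
  | cons p L ih =>
    obtain ⟨y, hy⟩ := hL p List.mem_cons_self
    obtain ⟨z, hz⟩ := ih (fun q hq => hL q (List.mem_cons_of_mem _ hq))
    refine ⟨FreeGroup.mk [(y, p.2)] * z, ?_⟩
    rw [map_mul, hz, FreeGroup.map.mk]
    simp [hy]

/-- Finitely many elements of a free subgroup lie in a free subgroup of finite rank. -/
theorem exists_finite_free (H : Subgroup G) [IsFreeGroup H] (Z : Finset G)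
    (hZ : ∀ z ∈ Z, z ∈ H) :
    ∃ (m : ℕ) (φ : FreeGroup (Fin m) →* G), Function.Injective φ ∧ ∀ z ∈ Z, z ∈ φ.range := by
  classical
  let B := IsFreeGroup.Generators H
  let μ : FreeGroup B ≃* H := (IsFreeGroup.toFreeGroup H).symm
  let word : G → List (B × Bool) := fun z => if h : z ∈ H then (μ.symm ⟨z, h⟩).toWord else []
  let Y : Finset B := Z.biUnion (fun z => ((word z).map Prod.fst).toFinset)
  let eY : Fin (Fintype.card Y) ≃ Y := (Fintype.equivFin Y).symm
  let f : Fin (Fintype.card Y) → B := fun i => (eY i : B)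
  have hf : Function.Injective f := fun a b hab => eY.injective (Subtype.ext hab)
  refine ⟨Fintype.card Y, H.subtype.comp (μ.toMonoidHom.comp (FreeGroup.map f)), ?_, ?_⟩
  · intro a b hab
    have h1 : μ (FreeGroup.map f a) = μ (FreeGroup.map f b) := Subtype.ext hab
    exact FreeGroup.map_injective hf (μ.injective h1)
  · intro z hz
    have hzH := hZ z hz
    have h1 : FreeGroup.mk (word z) ∈ (FreeGroup.map f).range := by
      apply mk_mem_range_map
      intro p hp
      have hpY : p.1 ∈ Y := Finset.mem_biUnion.2 ⟨z, hz, List.mem_toFinset.2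
        (List.mem_map_of_mem hp)⟩
      exact ⟨eY.symm ⟨p.1, hpY⟩, by simp [f]⟩
    obtain ⟨t, ht⟩ := h1
    refine ⟨t, ?_⟩
    change ((μ (FreeGroup.map f t) : H) : G) = z
    have h2 : word z = (μ.symm ⟨z, hzH⟩).toWord := by simp [word, hzH]
    rw [ht, h2, FreeGroup.mk_toWord, MulEquiv.apply_symm_apply]

/-- Relations over a free subgroup and one more relation. -/
theorem stFree_of_free_relations {n k : ℕ} (φ : FreeGroup (Fin k) →* G)
    (hφ : Function.Injective φ)
    {P : Type v} [AddCommGroup P] [Module (MonoidAlgebra ℤ G) P]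
    [Module.Projective (MonoidAlgebra ℤ G) P] (x : Fin n → P)
    (hx : Submodule.span (MonoidAlgebra ℤ G) (Set.range x) = ⊤)
    (T : Set (Fin n → MonoidAlgebra ℤ (FreeGroup (Fin k)))) (w : Fin n → MonoidAlgebra ℤ G)
    (hker : LinearMap.ker (Fintype.linearCombination (MonoidAlgebra ℤ G) x)
      = Submodule.span (MonoidAlgebra ℤ G) (incv ℤ φ '' T ∪ {w})) :
    StFree (MonoidAlgebra ℤ G) P := by
  classical
  let R := MonoidAlgebra ℤ G
  let π : (Fin n → R) →ₗ[R] P := Fintype.linearCombination R x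
  have hπ : Function.Surjective π := by
    rw [← LinearMap.range_eq_top, Fintype.range_linearCombination, hx]
  obtain ⟨σ, hσ⟩ := Module.projective_lifting_property π LinearMap.id hπ
  have hσ' : ∀ p, π (σ p) = p := fun p => DFunLike.congr_fun hσ p
  let q : (Fin n → R) →ₗ[R] (Fin n → R) := LinearMap.id - σ ∘ₗ π
  have hq : ∀ v, q v = v - σ (π v) := fun v => rfl
  have hπq : ∀ v, π (q v) = 0 := fun v => by rw [hq, map_sub, hσ', sub_self]
  obtain ⟨e, he⟩ := (Matrix.toLinearMapRight' (m := Fin n) (n := Fin n) (R := R)).surjective q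
  have he' : ∀ v, Matrix.vecMul v e = q v := fun v => DFunLike.congr_fun he v
  have hee : e * e = e := by
    apply (Matrix.toLinearMapRight' (m := Fin n) (n := Fin n) (R := R)).injective
    rw [Matrix.toLinearMapRight'_mul, he]
    apply LinearMap.ext
    intro v
    change q (q v) = q v
    rw [hq (q v), hπq, map_zero, sub_zero]
  have hst := stFree_complement φ hφ e hee T w (fun v => by
    rw [← hker, LinearMap.mem_ker, he', hq]
    constructor
    · intro h
      have h1 : σ (π v) = 0 := by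
        have h2 : v - σ (π v) = v := h
        exact sub_eq_self.1 h2
      have h3 : π (σ (π v)) = 0 := by rw [h1, map_zero]
      rw [hσ'] at h3
      exact h3
    · intro h
      have h1 : π v = 0 := h
      rw [h1, map_zero, sub_zero])
  have h1e : ∀ v, Matrix.toLinearMapRight' (1 - e) v = σ (π v) := by
    intro v
    change Matrix.vecMul v (1 - e) = σ (π v)
    rw [Matrix.vecMul_sub, Matrix.vecMul_one, he', hq, sub_sub_cancel]
  refine hst.congr ?_
  let F : LinearMap.range (Matrix.toLinearMapRight' (1 - e)) →ₗ[R] P :=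
    π.comp (LinearMap.range (Matrix.toLinearMapRight' (1 - e))).subtype
  refine LinearEquiv.ofBijective F ⟨?_, ?_⟩
  · rw [← LinearMap.ker_eq_bot, eq_bot_iff]
    rintro ⟨_, v, rfl⟩ h0
    have h0' : π (Matrix.toLinearMapRight' (1 - e) v) = 0 := h0
    rw [h1e, hσ'] at h0'
    rw [Submodule.mem_bot]
    apply Subtype.ext
    change Matrix.toLinearMapRight' (1 - e) v = 0
    rw [h1e, h0', map_zero]
  · intro p
    refine ⟨⟨σ p, ⟨σ p, ?_⟩⟩, hσ' p⟩
    rw [h1e, hσ']

/-- The coefficients of `a` lie in the coset `k H h`. -/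
def InCoset (H : Subgroup G) (k h : G) (a : MonoidAlgebra ℤ G) : Prop :=
  ∀ g ∈ a.coeff.support, k⁻¹ * g * h⁻¹ ∈ H

theorem exists_incv {n k : ℕ} (φ : FreeGroup (Fin k) →* G) (v : Fin n → MonoidAlgebra ℤ G)
    (hφ : Function.Injective φ)
    (hv : ∀ j, ∀ g ∈ (v j).coeff.support, g ∈ φ.range) : ∃ t, incv ℤ φ t = v := by
  refine ⟨prjv ℤ φ hφ v, ?_⟩
  funext j
  ext g
  by_cases hg : g ∈ φ.range
  · obtain ⟨h, rfl⟩ := hg
    change (inc ℤ φ (prj ℤ φ hφ (v j))).coeff (φ h) = _
    rw [inc_coeff_apply φ hφ, prj_coeff]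
  · change (inc ℤ φ (prj ℤ φ hφ (v j))).coeff g = _
    rw [inc_coeff_of_notMem φ _ g hg]
    by_contra hne
    exact hg (hv j g (Finsupp.mem_support_iff.2 (Ne.symm hne)))

theorem stFree_of_rows {n m : ℕ} (H : Subgroup G) [IsFreeGroup H]
    {P : Type v} [AddCommGroup P] [Module (MonoidAlgebra ℤ G) P]
    [Module.Projective (MonoidAlgebra ℤ G) P]
    (A : Matrix (Fin m) (Fin n) (MonoidAlgebra ℤ G)) (x : Fin n → P)
    (hx : Submodule.span (MonoidAlgebra ℤ G) (Set.range x) = ⊤)
    (hrel : ∀ r : Fin n → MonoidAlgebra ℤ G,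
      ∑ j, r j • x j = 0 ↔ ∃ u : Fin m → MonoidAlgebra ℤ G, r = Matrix.vecMul u A)
    (k : Fin m → G) (h : Fin n → G)
    (hA : {i | ∃ j, ¬ InCoset H (k i) (h j) (A i j)}.Subsingleton) :
    StFree (MonoidAlgebra ℤ G) P := by
  classical
  let R := MonoidAlgebra ℤ G
  let bad : Set (Fin m) := {i | ∃ j, ¬ InCoset H (k i) (h j) (A i j)}
  let A' : Matrix (Fin m) (Fin n) R := fun i j => single (k i)⁻¹ 1 * A i j * single (h j)⁻¹ 1
  let Z : Finset G := (Finset.univ.filter (fun i => i ∉ bad)).biUnion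
    (fun i => Finset.univ.biUnion (fun j => (A' i j).coeff.support))
  have hA' : ∀ i j g, (A' i j).coeff g = (A i j).coeff (k i * g * h j) := by
    intro i j g
    change (single (k i)⁻¹ 1 * A i j * single (h j)⁻¹ 1).coeff g = _
    rw [MonoidAlgebra.coeff_mul_single_apply, MonoidAlgebra.coeff_single_mul_apply]
    simp [mul_assoc]
  have hZ : ∀ z ∈ Z, z ∈ H := by
    intro z hz
    obtain ⟨i, hi, hz⟩ := Finset.mem_biUnion.1 hz
    obtain ⟨j, -, hz⟩ := Finset.mem_biUnion.1 hz
    have hi' : i ∉ bad := (Finset.mem_filter.1 hi).2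
    have h1 : InCoset H (k i) (h j) (A i j) := by
      by_contra hcon
      exact hi' ⟨j, hcon⟩
    rw [Finsupp.mem_support_iff, hA'] at hz
    have h2 := h1 _ (Finsupp.mem_support_iff.2 hz)
    have h3 : (k i)⁻¹ * (k i * z * h j) * (h j)⁻¹ = z := by group
    rw [h3] at h2
    exact h2
  obtain ⟨d, φ, hφ, hφZ⟩ := exists_finite_free H Z hZ
  let x' : Fin n → P := fun j => (single (h j) (1 : ℤ) : R) • x j
  have hss : ∀ g : G, (single g⁻¹ 1 : R) * single g 1 = 1 := fun g => by
    rw [MonoidAlgebra.single_mul_single, inv_mul_cancel, one_mul]; rfl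
  have hss' : ∀ g : G, (single g 1 : R) * single g⁻¹ 1 = 1 := fun g => by
    rw [MonoidAlgebra.single_mul_single, mul_inv_cancel, one_mul]; rfl
  have hx' : Submodule.span R (Set.range x') = ⊤ := by
    rw [eq_top_iff, ← hx, Submodule.span_le]
    rintro _ ⟨j, rfl⟩
    have h1 : x j = (single (h j)⁻¹ (1 : ℤ) : R) • x' j := by
      change x j = (single (h j)⁻¹ (1 : ℤ) : R) • (single (h j) (1 : ℤ) : R) • x j
      rw [smul_smul, hss, one_smul]
    rw [h1]
    exact Submodule.smul_mem _ _ (Submodule.subset_span ⟨j, rfl⟩)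
  have hker : LinearMap.ker (Fintype.linearCombination R x')
      = Submodule.span R (Set.range A') := by
    apply le_antisymm
    · intro r hr
      rw [LinearMap.mem_ker, Fintype.linearCombination_apply] at hr
      have h1 : ∑ j, r j • x' j = ∑ j, (r j * single (h j) 1) • x j :=
        Finset.sum_congr rfl (fun j _ => smul_smul _ _ _)
      rw [h1, hrel (fun j => r j * single (h j) 1)] at hr
      obtain ⟨u, hu⟩ := hr
      have h2 : r = ∑ i, (u i * single (k i) 1) • A' i := by
        funext j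
        rw [Finset.sum_apply]
        have h3 : r j = (∑ i, u i * A i j) * single (h j)⁻¹ 1 := by
          have h4 := congrFun hu j
          change r j * single (h j) 1 = ∑ i, u i * A i j at h4
          rw [← h4, mul_assoc, hss', mul_one]
        rw [h3, Finset.sum_mul]
        refine Finset.sum_congr rfl (fun i _ => ?_)
        change u i * A i j * single (h j)⁻¹ 1
          = (u i * single (k i) 1) * (single (k i)⁻¹ 1 * A i j * single (h j)⁻¹ 1)
        rw [mul_assoc (u i) (single (k i) 1), ← mul_assoc (single (k i) (1 : ℤ)),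
          ← mul_assoc (single (k i) (1 : ℤ)), hss', one_mul, mul_assoc]
      rw [h2]
      exact Submodule.sum_mem _ (fun i _ => Submodule.smul_mem _ _
        (Submodule.subset_span ⟨i, rfl⟩))
    · rw [Submodule.span_le]
      rintro _ ⟨i, rfl⟩
      rw [SetLike.mem_coe, LinearMap.mem_ker, Fintype.linearCombination_apply]
      have h5 : ∑ j, A i j • x j = 0 :=
        (hrel (A i)).2 ⟨Pi.single i 1, by rw [Matrix.single_one_vecMul]; rfl⟩
      have h6 : ∑ j, A' i j • x' j = (single (k i)⁻¹ (1 : ℤ) : R) • ∑ j, A i j • x j := by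
        rw [Finset.smul_sum]
        refine Finset.sum_congr rfl (fun j _ => ?_)
        change (single (k i)⁻¹ 1 * A i j * single (h j)⁻¹ 1) • (single (h j) (1 : ℤ) : R) • x j
          = _
        rw [smul_smul, mul_assoc _ (single (h j)⁻¹ (1 : ℤ)), hss, mul_one, smul_smul]
      rw [h6, h5, smul_zero]
  let T : Set (Fin n → MonoidAlgebra ℤ (FreeGroup (Fin d))) :=
    {t | ∃ i, i ∉ bad ∧ incv ℤ φ t = A' i}
  have hgood : ∀ i, i ∉ bad → A' i ∈ incv ℤ φ '' T := by
    intro i hi
    obtain ⟨t, ht⟩ := exists_incv φ (A' i) hφ (fun j g hg => hφZ g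
      (Finset.mem_biUnion.2 ⟨i, Finset.mem_filter.2 ⟨Finset.mem_univ i, hi⟩,
        Finset.mem_biUnion.2 ⟨j, Finset.mem_univ j, hg⟩⟩))
    exact ⟨t, ⟨i, hi, ht⟩, ht⟩
  have key : ∀ w : Fin n → R, (w = 0 ∨ ∃ i, A' i = w) → (∀ i, A' i = w ∨ i ∉ bad) →
      Submodule.span R (Set.range A') = Submodule.span R (incv ℤ φ '' T ∪ {w}) := by
    intro w hw1 hw2
    apply le_antisymm
    · rw [Submodule.span_le]
      rintro _ ⟨i, rfl⟩
      rcases hw2 i with h1 | h1
      · exact Submodule.subset_span (Or.inr h1)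
      · exact Submodule.subset_span (Or.inl (hgood i h1))
    · rw [Submodule.span_le]
      rintro r (⟨t, ⟨i, -, hi⟩, rfl⟩ | hr)
      · rw [hi]; exact Submodule.subset_span ⟨i, rfl⟩
      · rw [Set.mem_singleton_iff] at hr
        subst hr
        rcases hw1 with rfl | ⟨i, rfl⟩
        · exact Submodule.zero_mem _
        · exact Submodule.subset_span ⟨i, rfl⟩
  by_cases hex : ∃ i0, i0 ∈ bad
  · obtain ⟨i0, hi0⟩ := hex
    refine stFree_of_free_relations φ hφ x' hx' T (A' i0) ?_
    rw [hker]
    refine key _ (Or.inr ⟨i0, rfl⟩) (fun i => ?_)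
    by_cases hi : i ∈ bad
    · left; rw [hA hi hi0]
    · right; exact hi
  · push Not at hex
    refine stFree_of_free_relations φ hφ x' hx' T 0 ?_
    rw [hker]
    exact key _ (Or.inl rfl) (fun i => Or.inr (hex i))

theorem inCoset_inv (H : Subgroup G) (k h : G) (a : MonoidAlgebra ℤ G)
    (ha : InCoset H k h a) : InCoset H h⁻¹ k⁻¹ (invHom G a).unop := by
  intro g hg
  rw [Finsupp.mem_support_iff, invHom_coeff] at hg
  have h1 := ha g⁻¹ (Finsupp.mem_support_iff.2 hg)
  have h2 := H.inv_mem h1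
  have h3 : (k⁻¹ * g⁻¹ * h⁻¹)⁻¹ = (h⁻¹)⁻¹ * g * (k⁻¹)⁻¹ := by group
  rw [← h3]
  exact h2

/-- Presentations with all rows but one, or all columns but one, over a free subgroup. -/
theorem stFree_of_presentation_free {n m : ℕ} (H : Subgroup G) [IsFreeGroup H]
    {P : Type v} [AddCommGroup P] [Module (MonoidAlgebra ℤ G) P]
    (hP : Module.Projective (MonoidAlgebra ℤ G) P)
    (A : Matrix (Fin m) (Fin n) (MonoidAlgebra ℤ G)) (x : Fin n → P)
    (hx : Submodule.span (MonoidAlgebra ℤ G) (Set.range x) = ⊤)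
    (hrel : ∀ r : Fin n → MonoidAlgebra ℤ G,
      ∑ j, r j • x j = 0 ↔ ∃ u : Fin m → MonoidAlgebra ℤ G, r = Matrix.vecMul u A)
    (k : Fin m → G) (h : Fin n → G)
    (hA : {i | ∃ j, ¬ InCoset H (k i) (h j) (A i j)}.Subsingleton ∨
      {j | ∃ i, ¬ InCoset H (k i) (h j) (A i j)}.Subsingleton) :
    StFree (MonoidAlgebra ℤ G) P := by
  classical
  rcases hA with hA | hA
  · exact stFree_of_rows H A x hx hrel k h hA
  · have hsurj : Function.Surjective (Fintype.linearCombination (MonoidAlgebra ℤ G) x) := by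
      rw [← LinearMap.range_eq_top, Fintype.range_linearCombination, hx]
    have hker : LinearMap.range (Matrix.toLinearMapRight' A)
        = LinearMap.ker (Fintype.linearCombination (MonoidAlgebra ℤ G) x) := by
      ext r
      rw [LinearMap.mem_ker, Fintype.linearCombination_apply, hrel r]
      constructor
      · rintro ⟨u, rfl⟩; exact ⟨u, rfl⟩
      · rintro ⟨u, rfl⟩; exact ⟨u, rfl⟩
    let e : Cok A ≃ₗ[MonoidAlgebra ℤ G] P :=
      (Submodule.quotEquivOfEq _ _ hker).trans (LinearMap.quotKerEquivOfSurjective _ hsurj)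
    have hproj : Module.Projective (MonoidAlgebra ℤ G) (Cok A) :=
      Module.Projective.of_equiv e.symm
    let _inst := starInst G
    refine (stFree_cok_of_conjTranspose A ?_).congr e
    intro hproj'
    let π := (LinearMap.range (Matrix.toLinearMapRight' A.conjTranspose)).mkQ
    let y : Fin m → Cok A.conjTranspose := fun j => π (Pi.single j 1)
    have hy : Fintype.linearCombination (MonoidAlgebra ℤ G) y = π := by
      apply LinearMap.pi_ext'
      intro j
      ext1
      simp [y]
    refine stFree_of_rows H A.conjTranspose y ?_ ?_ (fun j => (h j)⁻¹) (fun i => (k i)⁻¹) ?_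
    · rw [← Fintype.range_linearCombination, hy]
      exact Submodule.range_mkQ _
    · intro r
      rw [← Fintype.linearCombination_apply, hy, ← LinearMap.mem_ker, Submodule.ker_mkQ]
      constructor
      · rintro ⟨u, rfl⟩; exact ⟨u, rfl⟩
      · rintro ⟨u, rfl⟩; exact ⟨u, rfl⟩
    · intro j hj j' hj'
      have hbad : ∀ j, (∃ i, ¬ InCoset H (h j)⁻¹ (k i)⁻¹ (A.conjTranspose j i)) →
          ∃ i, ¬ InCoset H (k i) (h j) (A i j) := by
        rintro j ⟨i, hi⟩
        exact ⟨i, fun hcon => hi (inCoset_inv H _ _ _ hcon)⟩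
      exact hA (x := j) (y := j') (hbad j hj) (hbad j' hj')

end Pool.Agent.Lib.MP_551055_al
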