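import Mathlib

/-!
Kaplansky's theorem for the integral group ring: the only idempotents of `ℤ[G]` are `0` and `1`.
-/

set_option autoImplicit false

namespace Pool.Agent.Lib.MP_551055_al.Kaplansky

open scoped InnerProductSpace

universe u

variable {G : Type u}

/-- The real Hilbert space of square-summable functions. -/
abbrev Hs (G : Type u) : Type u := lp (fun _ : G => ℝ) 2

/-- Its canonical Hilbert basis. -/
noncomputable def bs (G : Type u) : HilbertBasis G ℝ (Hs G) :=
  HilbertBasis.ofRepr (LinearIsometryEquiv.refl ℝ _)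

theorem ext_bs {A B : Hs G →L[ℝ] Hs G} (h : ∀ g, A (bs G g) = B (bs G g)) : A = B := by
  apply ContinuousLinearMap.ext_on (s := Set.range (bs G))
  · have := (bs G).dense_span
    rw [Submodule.dense_iff_topologicalClosure_eq_top]
    exact this
  · rintro _ ⟨g, rfl⟩
    exact h g

/-- The permuted basis. -/
noncomputable def bsPerm (σ : Equiv.Perm G) : HilbertBasis G ℝ (Hs G) :=
  HilbertBasis.mk (v := fun g => bs G (σ g)) ((bs G).orthonormal.comp σ σ.injective) (by
    have h1 : Set.range (fun g => bs G (σ g)) = Set.range (bs G) := by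
      ext x
      constructor
      · rintro ⟨g, rfl⟩; exact ⟨σ g, rfl⟩
      · rintro ⟨g, rfl⟩; exact ⟨σ.symm g, by simp⟩
    rw [h1, (bs G).dense_span])

theorem bsPerm_apply (σ : Equiv.Perm G) (g : G) : bsPerm σ g = bs G (σ g) := by
  simp [bsPerm]

/-- The unitary operator permuting the canonical basis. -/
noncomputable def Tp (σ : Equiv.Perm G) : Hs G ≃ₗᵢ[ℝ] Hs G :=
  (bs G).repr.trans (bsPerm σ).repr.symm

theorem Tp_bs (σ : Equiv.Perm G) (g : G) : Tp σ (bs G g) = bs G (σ g) := by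
  classical
  simp only [Tp, LinearIsometryEquiv.trans_apply, HilbertBasis.repr_self]
  rw [HilbertBasis.repr_symm_single, bsPerm_apply]

variable [Group G]

/-- Left translation as a monoid homomorphism. -/
noncomputable def lam : G →* (Hs G →L[ℝ] Hs G) where
  toFun g := (Tp (Equiv.mulLeft g)).toContinuousLinearEquiv.toContinuousLinearMap
  map_one' := by
    apply ext_bs
    intro g
    change Tp (Equiv.mulLeft 1) (bs G g) = _
    rw [Tp_bs]
    simp
  map_mul' a b := by
    apply ext_bs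
    intro g
    change Tp (Equiv.mulLeft (a * b)) (bs G g) = Tp (Equiv.mulLeft a) (Tp (Equiv.mulLeft b) (bs G g))
    rw [Tp_bs, Tp_bs, Tp_bs]
    simp

theorem lam_bs (a g : G) : lam a (bs G g) = bs G (a * g) := by
  change Tp (Equiv.mulLeft a) (bs G g) = _
  rw [Tp_bs]; rfl

/-- The action of the integral group ring. -/
noncomputable def La : MonoidAlgebra ℤ G →ₐ[ℤ] (Hs G →L[ℝ] Hs G) :=
  MonoidAlgebra.lift ℤ (Hs G →L[ℝ] Hs G) G lam

/-- Right translation. -/
noncomputable def Rt (s : G) : Hs G ≃ₗᵢ[ℝ] Hs G := Tp (Equiv.mulRight s)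

theorem Rt_bs (s g : G) : Rt s (bs G g) = bs G (g * s) := by
  change Tp (Equiv.mulRight s) (bs G g) = _
  rw [Tp_bs]; rfl

theorem La_bs (a : MonoidAlgebra ℤ G) (g : G) :
    La a (bs G g) = a.coeff.sum fun h c => (c : ℝ) • bs G (h * g) := by
  simp only [La, MonoidAlgebra.lift_apply, Finsupp.sum]
  rw [sum_apply]
  refine Finset.sum_congr rfl fun h _ => ?_
  rw [smul_apply, lam_bs]
  exact (Int.cast_smul_eq_zsmul ℝ _ _).symm

open Classical in
theorem inner_bs (g h : G) : ⟪bs G g, bs G h⟫_ℝ = if g = h then 1 else 0 := by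
  have := (bs G).orthonormal
  rw [orthonormal_iff_ite] at this
  exact this g h

theorem inner_La_bs (a : MonoidAlgebra ℤ G) (g : G) (x : Hs G) :
    ⟪La a (bs G g), x⟫_ℝ = a.coeff.sum fun h c => (c : ℝ) * ⟪bs G (h * g), x⟫_ℝ := by
  rw [La_bs, Finsupp.sum, Finsupp.sum, sum_inner]
  refine Finset.sum_congr rfl fun h _ => ?_
  rw [real_inner_smul_left]

theorem inner_La_one (a : MonoidAlgebra ℤ G) : ⟪La a (bs G 1), bs G 1⟫_ℝ = (a.coeff 1 : ℝ) := by
  classical
  rw [inner_La_bs]
  simp only [mul_one, inner_bs]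
  rw [Finsupp.sum]
  simp only [mul_ite, mul_one, mul_zero]
  rw [Finset.sum_ite_eq']
  split_ifs with h
  · rfl
  · simp only [Finsupp.mem_support_iff, not_not] at h
    rw [h]; simp

theorem La_comm_Rt (a : MonoidAlgebra ℤ G) (s : G) (x : Hs G) : La a (Rt s x) = Rt s (La a x) := by
  have : (La a) ∘L (Rt s).toContinuousLinearEquiv.toContinuousLinearMap
      = (Rt s).toContinuousLinearEquiv.toContinuousLinearMap ∘L (La a) := by
    apply ext_bs
    intro g
    change La a (Rt s (bs G g)) = Rt s (La a (bs G g))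
    rw [Rt_bs, La_bs, La_bs, Finsupp.sum, Finsupp.sum, map_sum]
    refine Finset.sum_congr rfl fun h _ => ?_
    rw [map_smul, Rt_bs, mul_assoc]
  exact DFunLike.congr_fun this x

/-- Positivity of the trace of an idempotent. -/
theorem coeff_one_nonneg (e : MonoidAlgebra ℤ G) (he : e * e = e) :
    0 ≤ e.coeff 1 ∧ (e.coeff 1 = 0 → e = 0) := by
  classical
  set E := La e with hE
  have hEE : ∀ x, E (E x) = E x := by
    intro x
    have : E * E = E := by rw [hE, ← map_mul, he]
    exact DFunLike.congr_fun this x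
  -- the closed range
  let K : Submodule ℝ (Hs G) := LinearMap.ker ((1 : Hs G →L[ℝ] Hs G) - E).toLinearMap
  have hKmem : ∀ x, x ∈ K ↔ E x = x := by
    intro x
    simp only [K, LinearMap.mem_ker]
    change x - E x = 0 ↔ _
    rw [sub_eq_zero]; exact eq_comm
  have hKc : IsClosed (K : Set (Hs G)) := by
    exact ContinuousLinearMap.isClosed_ker ((1 : Hs G →L[ℝ] Hs G) - E)
  have : CompleteSpace K := hKc.completeSpace_coe
  let p : Hs G →L[ℝ] Hs G := K.starProjection
  have hpK : ∀ x, p x ∈ K := fun x => K.starProjection_apply_mem x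
  have hpid : ∀ x ∈ K, p x = x := fun x hx => K.starProjection_eq_self_iff.2 hx
  have hpsa : ∀ x y, ⟪p x, y⟫_ℝ = ⟪x, p y⟫_ℝ := fun x y => K.inner_starProjection_left_eq_right x y
  -- p commutes with right translations
  have hKR : ∀ s x, x ∈ K → Rt s x ∈ K := by
    intro s x hx
    rw [hKmem] at hx ⊢
    rw [hE, La_comm_Rt, ← hE, hx]
  have hpR : ∀ s x, p (Rt s x) = Rt s (p x) := by
    intro s x
    apply K.eq_starProjection_of_mem_of_inner_eq_zero (hKR s _ (hpK x))
    intro w hw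
    have h2 : Rt s⁻¹ w ∈ K := hKR _ _ hw
    have h3 : Rt s (Rt s⁻¹ w) = w := by
      have : (Rt s).toContinuousLinearEquiv.toContinuousLinearMap ∘L
        (Rt s⁻¹).toContinuousLinearEquiv.toContinuousLinearMap = ContinuousLinearMap.id ℝ _ := by
        apply ext_bs
        intro g
        change Rt s (Rt s⁻¹ (bs G g)) = _
        rw [Rt_bs, Rt_bs]; simp
      exact DFunLike.congr_fun this w
    rw [← h3, ← map_sub, LinearIsometryEquiv.inner_map_map]
    have h4 : ⟪x - p x, Rt s⁻¹ w⟫_ℝ = 0 := K.starProjection_inner_eq_zero x _ h2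
    exact h4
  set x0 := p (bs G 1) with hx0
  have hsym : ∀ g, ⟪bs G g, x0⟫_ℝ = ⟪bs G g⁻¹, x0⟫_ℝ := by
    intro g
    have h1 : bs G g = Rt g (bs G 1) := by rw [Rt_bs, one_mul]
    have h2 : bs G g⁻¹ = Rt g⁻¹ (bs G 1) := by rw [Rt_bs, one_mul]
    calc ⟪bs G g, x0⟫_ℝ = ⟪p (bs G g), bs G 1⟫_ℝ := by rw [hpsa]
      _ = ⟪Rt g x0, bs G 1⟫_ℝ := by rw [h1, hpR]
      _ = ⟪Rt g x0, Rt g (bs G g⁻¹)⟫_ℝ := by rw [Rt_bs]; simp
      _ = ⟪x0, bs G g⁻¹⟫_ℝ := by rw [LinearIsometryEquiv.inner_map_map]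
      _ = _ := real_inner_comm _ _
  -- e(1) = <x0, x0>
  have key : (e.coeff 1 : ℝ) = ⟪x0, x0⟫_ℝ := by
    have a1 : (e.coeff 1 : ℝ) = ⟪E (bs G 1), x0⟫_ℝ := by
      rw [← inner_La_one, ← hE, hx0, ← hpsa, hpid]
      rw [hKmem, hEE]
    have a2 : ⟪E (bs G 1), x0⟫_ℝ = ⟪E x0, bs G 1⟫_ℝ := by
      rw [hE, inner_La_bs]
      have a3 : La e x0 = e.coeff.sum fun h c => (c : ℝ) • lam h x0 := by
        simp only [La, MonoidAlgebra.lift_apply, Finsupp.sum]
        rw [sum_apply]
        refine Finset.sum_congr rfl fun h _ => ?_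
        rw [smul_apply]
        exact (Int.cast_smul_eq_zsmul ℝ _ _).symm
      rw [a3, Finsupp.sum, Finsupp.sum, sum_inner]
      refine Finset.sum_congr rfl fun h _ => ?_
      rw [real_inner_smul_left, mul_one]
      congr 1
      rw [hsym]
      have a4 : bs G 1 = lam h (bs G h⁻¹) := by rw [lam_bs]; simp
      conv_rhs => rw [a4]
      change _ = ⟪Tp (Equiv.mulLeft h) x0, Tp (Equiv.mulLeft h) (bs G h⁻¹)⟫_ℝ
      rw [LinearIsometryEquiv.inner_map_map, real_inner_comm]
    have a5 : E x0 = x0 := (hKmem _).1 (hpK _)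
    rw [a1, a2, a5]
    conv_lhs => rw [← a5, a5]
    have : ⟪x0, bs G 1⟫_ℝ = ⟪p x0, bs G 1⟫_ℝ := by rw [hpid _ (hpK _)]
    rw [this, hpsa]
  have hnn : (0:ℝ) ≤ (e.coeff 1 : ℝ) := by rw [key]; exact real_inner_self_nonneg
  refine ⟨by exact_mod_cast hnn, ?_⟩
  intro h0
  have hx00 : x0 = 0 := by
    rw [h0] at key
    simp only [Int.cast_zero] at key
    exact inner_self_eq_zero.1 key.symm
  have hE0 : E (bs G 1) = 0 := by
    have hall : ∀ g, p (bs G g) = 0 := by
      intro g
      have h1 : bs G g = Rt g (bs G 1) := by rw [Rt_bs, one_mul]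
      rw [h1, hpR, ← hx0, hx00, map_zero]
    have hp0 : p = 0 := by
      apply ext_bs
      intro g
      rw [hall]; rfl
    have : p (E (bs G 1)) = E (bs G 1) := hpid _ (by rw [hKmem, hEE])
    rw [← this, hp0]; rfl
  -- coefficients of e vanish
  ext g
  have h1 : ⟪E (bs G 1), bs G g⟫_ℝ = (e.coeff g : ℝ) := by
    rw [hE, inner_La_bs]
    simp only [mul_one, inner_bs]
    rw [Finsupp.sum]
    simp only [mul_ite, mul_one, mul_zero]
    rw [Finset.sum_ite_eq']
    split_ifs with h
    · rfl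
    · simp only [Finsupp.mem_support_iff, not_not] at h
      rw [h]; simp
  rw [hE0, inner_zero_left] at h1
  have : e.coeff g = 0 := by exact_mod_cast h1.symm
  simpa using this

/-- **Kaplansky**: an idempotent of the integral group ring of any group is `0` or `1`. -/
theorem idempotent_trivial (e : MonoidAlgebra ℤ G) (he : e * e = e) : e = 0 ∨ e = 1 := by
  obtain ⟨h1, h2⟩ := coeff_one_nonneg e he
  have he' : (1 - e) * (1 - e) = 1 - e := by
    rw [mul_sub, sub_mul, sub_mul]; simp [he]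
  obtain ⟨h3, h4⟩ := coeff_one_nonneg (1 - e) he'
  have h5 : (1 - e).coeff 1 = 1 - e.coeff 1 := by
    rw [MonoidAlgebra.coeff_sub, Finsupp.sub_apply, MonoidAlgebra.coeff_one_one]
  rw [h5] at h3 h4
  rcases eq_or_ne (e.coeff 1) 0 with h | h
  · left; exact h2 h
  · right
    have : e.coeff 1 = 1 := by omega
    have := h4 (by omega)
    exact (sub_eq_zero.1 this).symm

end Pool.Agent.Lib.MP_551055_al.Kaplansky
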