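import Pool.Agent.Lib.MP_551055_al.VNDefs

/-!
Free groups have integral von Neumann dimensions of kernels and stably free projectives.
-/

set_option autoImplicit false
set_option linter.unusedSectionVars false

namespace Pool.Agent.Lib.MP_551055_al.VN

open scoped InnerProductSpace
open Pool.Agent.Lib.MP_551055_al
open MonoidAlgebra

universe u v w

section Kernel

variable {X : Type} [Fintype X] [DecidableEq X] {n m : ℕ}

/-- The kernel of a matrix over `ℚ[F]` is a direct summand. -/
theorem exists_ker_eps (C : Matrix (Fin n) (Fin m) (MonoidAlgebra ℚ (FreeGroup X))) :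
    ∃ ε : Matrix (Fin n) (Fin n) (MonoidAlgebra ℚ (FreeGroup X)),
      ε * C = 0 ∧
      (∀ v : Fin n → MonoidAlgebra ℚ (FreeGroup X),
        Matrix.vecMul v C = 0 → Matrix.vecMul v ε = v) ∧
      ∃ z : ℤ, tau ε = (z : ℚ) := by
  classical
  let L := MonoidAlgebra ℚ (FreeGroup X)
  let ψ : (Fin n → L) →ₗ[L] (Fin m → L) := Matrix.toLinearMapRight' C
  have hFG : (LinearMap.range ψ).FG := by
    rw [LinearMap.range_eq_map]
    exact (Module.Finite.fg_top (R := L) (M := Fin n → L)).map ψ
  have hst : StFree L (LinearMap.range ψ) := by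
    apply stFree_submodule _ hFG
    intro a v ha hv
    have : v = a⁻¹ • (a • v) := by rw [smul_smul, inv_mul_cancel₀ ha, one_smul]
    rw [this]
    exact Submodule.smul_of_tower_mem _ _ hv
  have hproj : Module.Projective L (LinearMap.range ψ) := hst.projective
  obtain ⟨σ, hσ⟩ := Module.projective_lifting_property ψ.rangeRestrict LinearMap.id
    ψ.surjective_rangeRestrict
  have hσ' : ∀ y, ψ.rangeRestrict (σ y) = y := fun y => DFunLike.congr_fun hσ y
  let q : (Fin n → L) →ₗ[L] (Fin n → L) := σ ∘ₗ ψ.rangeRestrict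
  have hψq : ∀ v, ψ (q v) = ψ v := fun v => congrArg Subtype.val (hσ' (ψ.rangeRestrict v))
  have hq0 : ∀ v, ψ v = 0 → q v = 0 := by
    intro v hv
    have : ψ.rangeRestrict v = 0 := Subtype.ext hv
    change σ (ψ.rangeRestrict v) = 0
    rw [this, map_zero]
  have hqq : ∀ v, q (q v) = q v := by
    intro v
    change σ (ψ.rangeRestrict (q v)) = σ (ψ.rangeRestrict v)
    congr 1
    exact Subtype.ext (hψq v)
  obtain ⟨Mq, hMq⟩ := (Matrix.toLinearMapRight' (m := Fin n) (n := Fin n) (R := L)).surjective q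
  have hMq' : ∀ v, Matrix.vecMul v Mq = q v := fun v => DFunLike.congr_fun hMq v
  have hMqq : Mq * Mq = Mq := by
    apply (Matrix.toLinearMapRight' (m := Fin n) (n := Fin n) (R := L)).injective
    rw [Matrix.toLinearMapRight'_mul, hMq]
    exact LinearMap.ext hqq
  have hvε : ∀ v, Matrix.vecMul v (1 - Mq) = v - q v := by
    intro v
    rw [Matrix.vecMul_sub, Matrix.vecMul_one, hMq']
  refine ⟨1 - Mq, ?_, ?_, ?_⟩
  · ext1 i j
    have h2 : ψ ((1 - Mq) i) = 0 := by
      have h3 : (1 - Mq) i = Matrix.vecMul (Pi.single i 1) (1 - Mq) := by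
        rw [Matrix.single_one_vecMul]; rfl
      rw [h3, hvε, map_sub, hψq, sub_self]
    exact congrFun h2 j
  · intro v hv
    rw [hvε, hq0 v hv, sub_zero]
  · have h1 : StFree L (LinearMap.range (Matrix.toLinearMapRight' Mq)) := by
      refine hst.congr ?_
      rw [hMq]
      let f : LinearMap.range ψ →ₗ[L] LinearMap.range q :=
        σ.codRestrict _ (fun y => by
          obtain ⟨v, hv⟩ := y.2
          refine ⟨v, ?_⟩
          change σ (ψ.rangeRestrict v) = σ y
          congr 1
          exact Subtype.ext hv)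
      refine LinearEquiv.ofBijective f ⟨?_, ?_⟩
      · intro y y' hyy
        have h2 : σ y = σ y' := congrArg Subtype.val hyy
        rw [← hσ' y, ← hσ' y', h2]
      · rintro ⟨_, v, rfl⟩
        exact ⟨ψ.rangeRestrict v, rfl⟩
    obtain ⟨z, hz⟩ := tau_of_stFree Mq hMqq h1
    refine ⟨n - z, ?_⟩
    rw [tau_sub, tau_one, hz]
    simp

end Kernel

section Rat

variable {G : Type u} [Group G] {n m : ℕ}

/-- `ℚ[G] → ℝ[G]`. -/
noncomputable def qR (G : Type u) [Group G] : MonoidAlgebra ℚ G →+* MonoidAlgebra ℝ G :=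
  MonoidAlgebra.mapRingHom G (algebraMap ℚ ℝ)

theorem qR_coeff (a : MonoidAlgebra ℚ G) (g : G) : (qR G a).coeff g = ((a.coeff g : ℚ) : ℝ) := by
  simp [qR, MonoidAlgebra.coeff_mapRingHom]

theorem qR_cQ (a : MonoidAlgebra ℤ G) : qR G (cQ G a) = cR G a := by
  ext g
  rw [qR_coeff, cQ_coeff, cR_coeff]
  simp

/-- Clearing denominators. -/
theorem exists_cQ (a : MonoidAlgebra ℚ G) :
    ∃ (N : ℤ) (y : MonoidAlgebra ℤ G), N ≠ 0 ∧ cQ G y = (N : ℚ) • a := by
  induction a using MonoidAlgebra.induction_linear with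
  | zero => exact ⟨1, 0, one_ne_zero, by simp⟩
  | add a b ha hb =>
    obtain ⟨N, y, hN, hy⟩ := ha
    obtain ⟨N', y', hN', hy'⟩ := hb
    refine ⟨N * N', N' • y + N • y', mul_ne_zero hN hN', ?_⟩
    rw [map_add, map_zsmul, map_zsmul, hy, hy', smul_add]
    congr 1
    · rw [← Int.cast_smul_eq_zsmul ℚ, smul_smul]
      congr 1
      push_cast
      ring
    · rw [← Int.cast_smul_eq_zsmul ℚ, smul_smul]
      congr 1
      push_cast
      ring
  | single g c =>
    refine ⟨c.den, single g c.num, by exact_mod_cast c.den_nz, ?_⟩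
    ext h
    classical
    rw [cQ_coeff, MonoidAlgebra.coeff_smul, Finsupp.smul_apply, MonoidAlgebra.coeff_single,
      MonoidAlgebra.coeff_single, Finsupp.single_apply, Finsupp.single_apply]
    split_ifs
    · rw [smul_eq_mul]
      push_cast
      rw [mul_comm]
      exact (Rat.mul_den_eq_num c).symm
    · simp

theorem exists_cv (a : Fin n → MonoidAlgebra ℚ G) :
    ∃ (N : ℤ) (y : Fin n → MonoidAlgebra ℤ G), N ≠ 0 ∧ cv y = (N : ℚ) • a := by
  classical
  choose N y hN hy using fun i => exists_cQ (a i)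
  refine ⟨∏ i, N i, fun i => (∏ j ∈ Finset.univ.erase i, N j) • y i,
    Finset.prod_ne_zero_iff.2 fun i _ => hN i, ?_⟩
  funext i
  change cQ G ((∏ j ∈ Finset.univ.erase i, N j) • y i) = ((∏ i, N i : ℤ) : ℚ) • a i
  rw [map_zsmul, hy, ← Int.cast_smul_eq_zsmul ℚ, smul_smul]
  congr 1
  rw [← Finset.prod_erase_mul Finset.univ N (Finset.mem_univ i)]
  push_cast
  ring

theorem RM_qR (M : Matrix (Fin n) (Fin m) (MonoidAlgebra ℚ G)) (v : Fin n → MonoidAlgebra ℤ G)
    (j : Fin m) :
    (RM (M.map (qR G)) (toVs v)) j = Rr (qR G (Matrix.vecMul (cv v) M j)) (Kaplansky.bs G 1) := by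
  rw [RM_apply]
  change _ = Rr (qR G (∑ i, cQ G (v i) * M i j)) (Kaplansky.bs G 1)
  rw [map_sum, Rr_sum, sum_apply]
  refine Finset.sum_congr rfl fun i _ => ?_
  rw [map_mul, Rr_mul, toVs_apply, qR_cQ]
  rfl

end Rat

section Free

variable {H : Type u} [Group H] {n m : ℕ}

theorem integral_aux {k : ℕ} (φ : FreeGroup (Fin k) →* H) (hφ : Function.Injective φ)
    (M₀ : Matrix (Fin n) (Fin m) (MonoidAlgebra ℤ (FreeGroup (Fin k)))) :
    ∃ z : ℤ, vnDim {v : Fin n → MonoidAlgebra ℤ H | Matrix.vecMul v (M₀.map (inc ℤ φ)) = 0}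
      = z := by
  classical
  set M := M₀.map (inc ℤ φ) with hM
  obtain ⟨ε, h1, h2, z, hz⟩ := exists_ker_eps (M₀.map (cQ (FreeGroup (Fin k))))
  refine ⟨z, ?_⟩
  let S : Submodule (MonoidAlgebra ℤ H) (Fin n → MonoidAlgebra ℤ H) :=
    LinearMap.ker (Matrix.toLinearMapRight' M)
  have hS : ({v : Fin n → MonoidAlgebra ℤ H | Matrix.vecMul v M = 0} : Set _) = S := rfl
  rw [hS]
  have hfix : ∀ v ∈ S, Matrix.vecMul (cv v) (ε.map (inc ℚ φ)) = cv v := by
    intro v hv
    have h3 := mem_span_prjv (k := ℤ) φ hφ v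
    have h4 : ∀ z ∈ Submodule.span (MonoidAlgebra ℤ H) (Set.range (fun x : H =>
        incv ℤ φ (prjv ℤ φ hφ ((single x⁻¹ (1 : ℤ) : MonoidAlgebra ℤ H) • v)))),
        Matrix.vecMul (cv z) (ε.map (inc ℚ φ)) = cv z := by
      intro z hz
      induction hz using Submodule.span_induction with
      | mem x hx =>
        obtain ⟨x, rfl⟩ := hx
        have h5 : Matrix.vecMul ((single x⁻¹ (1 : ℤ) : MonoidAlgebra ℤ H) • v) M = 0 := by
          rw [vecMul_smul']
          have : Matrix.vecMul v M = 0 := hv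
          rw [this, smul_zero]
        have h6 : Matrix.vecMul (prjv ℤ φ hφ ((single x⁻¹ (1 : ℤ) : MonoidAlgebra ℤ H) • v)) M₀
            = 0 := by
          rw [← prjv_vecMul_inc, ← hM, h5, prjv_zero]
        change Matrix.vecMul (cv (incv ℤ φ (prjv ℤ φ hφ
          ((single x⁻¹ (1 : ℤ) : MonoidAlgebra ℤ H) • v)))) (ε.map (inc ℚ φ)) = cv (incv ℤ φ
          (prjv ℤ φ hφ ((single x⁻¹ (1 : ℤ) : MonoidAlgebra ℤ H) • v)))
        rw [cv_incv, ← incv_vecMul, h2]
        rw [← cv_vecMul, h6]
        exact funext fun _ => map_zero _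
      | zero =>
        have h : cv (0 : Fin n → MonoidAlgebra ℤ H) = 0 := funext fun _ => map_zero _
        rw [h, Matrix.zero_vecMul]
      | add x y _ _ hx hy => rw [cv_add, Matrix.add_vecMul, hx, hy]
      | smul a x _ hx => rw [cv_smul, vecMul_smul', hx]
    exact h4 v h3
  have key := vnDim_fixed ((ε.map (inc ℚ φ)).map (qR H)) S ?_ ?_
  · rw [key]
    have h3 : ∀ i, ((((ε.map (inc ℚ φ)).map (qR H)) i i).coeff 1 : ℝ)
        = (((ε i i).coeff 1 : ℚ) : ℝ) := by
      intro i
      change (qR H (inc ℚ φ (ε i i))).coeff 1 = _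
      rw [qR_coeff]
      have h4 := inc_coeff_apply φ hφ (ε i i) 1
      rw [map_one] at h4
      rw [h4]
    rw [Finset.sum_congr rfl fun i _ => h3 i]
    have h5 : ((tau ε : ℚ) : ℝ) = ∑ i, (((ε i i).coeff 1 : ℚ) : ℝ) := by
      unfold tau
      push_cast
      rfl
    rw [← h5, hz]
    push_cast
    rfl
  · intro v hv
    ext1 j
    rw [RM_qR, hfix v hv, toVs_apply]
    change Rr (qR H (cQ H (v j))) _ = _
    rw [qR_cQ]
  · intro i
    obtain ⟨N, y, hN, hy⟩ := exists_cv (ε i)
    have hyS : incv ℤ φ y ∈ S := by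
      change Matrix.vecMul (incv ℤ φ y) M = 0
      rw [hM, ← incv_vecMul]
      have h3 : Matrix.vecMul y M₀ = 0 := by
        apply cv_injective
        rw [cv_vecMul, hy]
        have h4 : Matrix.vecMul (ε i) (M₀.map (cQ (FreeGroup (Fin k)))) = 0 := by
          rw [← Matrix.mul_apply_eq_vecMul, h1]
          rfl
        have h5 : Matrix.vecMul ((N : ℚ) • ε i) (M₀.map (cQ (FreeGroup (Fin k))))
            = (N : ℚ) • Matrix.vecMul (ε i) (M₀.map (cQ (FreeGroup (Fin k)))) := by
          funext j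
          change ∑ l, ((N : ℚ) • ε i l) * _ = (N : ℚ) • ∑ l, ε i l * _
          rw [Finset.smul_sum]
          exact Finset.sum_congr rfl fun l _ => smul_mul_assoc _ _ _
        rw [h5, h4, smul_zero]
        exact (funext fun _ => map_zero _ : cv (0 : Fin m → _) = 0).symm
      rw [h3]
      exact funext fun _ => map_zero _
    have h3 : RM ((ε.map (inc ℚ φ)).map (qR H)) (dl i 1) = ((N : ℝ))⁻¹ • toVs (incv ℤ φ y) := by
      have hN' : (N : ℝ) ≠ 0 := by exact_mod_cast hN
      rw [eq_inv_smul_iff₀ hN', ← toVs_single]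
      ext1 j
      rw [PiLp.smul_apply, RM_qR, toVs_apply]
      have h4 : cv (Pi.single i (single (1 : H) (1 : ℤ)) : Fin n → MonoidAlgebra ℤ H)
          = Pi.single i 1 := by
        funext l
        change cQ H _ = _
        by_cases hl : l = i
        · subst hl
          rw [Pi.single_eq_same, Pi.single_eq_same]
          exact map_one (cQ H)
        · rw [Pi.single_eq_of_ne hl, Pi.single_eq_of_ne hl, map_zero]
      rw [h4, Matrix.single_one_vecMul]
      have h5 : cR H (incv ℤ φ y j) = (N : ℝ) • qR H (inc ℚ φ (ε i j)) := by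
        have h6 : cQ H (incv ℤ φ y j) = (N : ℚ) • inc ℚ φ (ε i j) := by
          change cQ H (inc ℤ φ (y j)) = _
          rw [cQ_inc]
          have h7 : cQ _ (y j) = (N : ℚ) • ε i j := congrFun hy j
          rw [h7, Int.cast_smul_eq_zsmul, Int.cast_smul_eq_zsmul, map_zsmul]
        rw [← qR_cQ, h6]
        ext g
        rw [qR_coeff, MonoidAlgebra.coeff_smul, Finsupp.smul_apply, MonoidAlgebra.coeff_smul,
          Finsupp.smul_apply, qR_coeff, smul_eq_mul, smul_eq_mul]
        push_cast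
        rfl
      rw [h5]
      have h8 : ∀ (c : ℝ) (a : MonoidAlgebra ℝ H) (x : Kaplansky.Hs H),
          Rr (c • a) x = c • Rr a x := by
        intro c a x
        unfold Rr
        rw [map_smul, MulOpposite.unop_smul]
        rfl
      rw [h8]
      rfl
    rw [h3]
    exact Submodule.smul_mem _ _ (Submodule.le_topologicalClosure _ (toVs_mem_sp hyS))

theorem integralKernels_of_free (H : Type u) [Group H] [IsFreeGroup H] : IntegralKernels H := by
  classical
  intro n κ _ M
  let e := Fintype.equivFin κ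
  let M' : Matrix (Fin n) (Fin (Fintype.card κ)) (MonoidAlgebra ℤ H) := fun i j => M i (e.symm j)
  have h1 : ({v : Fin n → MonoidAlgebra ℤ H | Matrix.vecMul v M = 0} : Set _)
      = {v | Matrix.vecMul v M' = 0} := by
    ext v
    simp only [Set.mem_ofPred_eq]
    constructor
    · intro hv
      funext j
      exact congrFun hv (e.symm j)
    · intro hv
      funext j
      have := congrFun hv (e j)
      rw [← e.symm_apply_apply j]
      exact this
  rw [h1]
  let Z : Finset H := Finset.univ.biUnion (fun i => Finset.univ.biUnion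
    (fun j => (M' i j).coeff.support))
  have : IsFreeGroup (⊤ : Subgroup H) := IsFreeGroup.ofMulEquiv Subgroup.topEquiv.symm
  obtain ⟨k, φ, hφ, hZ⟩ := exists_finite_free (⊤ : Subgroup H) Z (fun _ _ => trivial)
  have h2 : M' = (M'.map (prj ℤ φ hφ)).map (inc ℤ φ) := by
    ext1 i j
    change M' i j = inc ℤ φ (prj ℤ φ hφ (M' i j))
    ext g
    by_cases hg : g ∈ φ.range
    · obtain ⟨t, rfl⟩ := hg
      rw [inc_coeff_apply φ hφ, prj_coeff]
    · rw [inc_coeff_of_notMem]
      · by_contra hne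
        exact hg (hZ g (Finset.mem_biUnion.2 ⟨i, Finset.mem_univ i,
          Finset.mem_biUnion.2 ⟨j, Finset.mem_univ j, Finsupp.mem_support_iff.2 hne⟩⟩))
      · rintro ⟨t, ht⟩
        exact hg ⟨t, ht⟩
  rw [h2]
  exact integral_aux φ hφ _

theorem projStFree_of_free (H : Type u) [Group H] [IsFreeGroup H] : ProjStFree H := by
  classical
  intro Q _ _ hfin hproj
  obtain ⟨n, x, hx⟩ := Module.Finite.exists_fin (R := MonoidAlgebra ℤ H) (M := Q)
  let R := MonoidAlgebra ℤ H
  let π : (Fin n → R) →ₗ[R] Q := Fintype.linearCombination R x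
  have hπ : Function.Surjective π := by
    rw [← LinearMap.range_eq_top, Fintype.range_linearCombination, hx]
  obtain ⟨σ, hσ⟩ := Module.projective_lifting_property π LinearMap.id hπ
  have hσ' : ∀ p, π (σ p) = p := fun p => DFunLike.congr_fun hσ p
  let q : (Fin n → R) →ₗ[R] (Fin n → R) := LinearMap.id - σ ∘ₗ π
  have hq : ∀ v, q v = v - σ (π v) := fun v => rfl
  have hπq : ∀ v, π (q v) = 0 := fun v => by rw [hq, map_sub, hσ', sub_self]
  obtain ⟨e, he⟩ := (Matrix.toLinearMapRight' (m := Fin n) (n := Fin n) (R := R)).surjective q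
  have he' : ∀ v, Matrix.vecMul v e = q v := fun v => DFunLike.congr_fun he v
  have : IsFreeGroup (⊤ : Subgroup H) := IsFreeGroup.ofMulEquiv Subgroup.topEquiv.symm
  refine stFree_of_presentation_free (⊤ : Subgroup H) hproj e x hx ?_ (fun _ => 1) (fun _ => 1)
    (Or.inl ?_)
  · intro r
    have h1 : ∑ j, r j • x j = π r := (Fintype.linearCombination_apply _ _ _).symm
    rw [h1]
    constructor
    · intro h
      exact ⟨r, by rw [he', hq, h, map_zero, sub_zero]⟩
    · rintro ⟨v, rfl⟩
      rw [he', hπq]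
  · rintro i ⟨j, hj⟩
    exact absurd (fun g _ => trivial) hj

end Free

end Pool.Agent.Lib.MP_551055_al.VN
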