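import Pool.Agent.Lib.MP_551055_al.VNRelation

/-!
Two properties of a group `H`: integrality of the von Neumann dimensions of kernels of matrices
over `ℤ[H]`, and stable freeness of the finitely generated projective `ℤ[H]`-modules.
-/

set_option autoImplicit false

namespace Pool.Agent.Lib.MP_551055_al.VN

open Pool.Agent.Lib.MP_551055_al

universe u

/-- For every finite matrix `M` over `ℤ[H]` the closure in `ℓ²(H)^n` of the left kernel
`{v ∈ ℤ[H]^n | v M = 0}` has integral von Neumann dimension. -/
def IntegralKernels (H : Type u) [Group H] : Prop :=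
  ∀ (n : ℕ) (κ : Type) [Fintype κ] (M : Matrix (Fin n) κ (MonoidAlgebra ℤ H)),
    ∃ z : ℤ, vnDim {v : Fin n → MonoidAlgebra ℤ H | Matrix.vecMul v M = 0} = z

/-- Every finitely generated projective `ℤ[H]`-module is stably free. -/
def ProjStFree (H : Type u) [Group H] : Prop :=
  ∀ (Q : Type u) [AddCommGroup Q] [Module (MonoidAlgebra ℤ H) Q],
    Module.Finite (MonoidAlgebra ℤ H) Q → Module.Projective (MonoidAlgebra ℤ H) Q →
    StFree (MonoidAlgebra ℤ H) Q

end Pool.Agent.Lib.MP_551055_al.VN
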