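import Pool.Agent.Lib.MP_551055_al.VNMain
import Pool.Agent.Lib.MP_551055_al.VNDefs

/-!
The main theorem for modules given by generators and relations.
-/

set_option autoImplicit false
set_option linter.unusedSectionVars false

namespace Pool.Agent.Lib.MP_551055_al.VN

open Pool.Agent.Lib.MP_551055_al
open MonoidAlgebra

universe u v

section

variable {G : Type u} [Group G] {n l : ℕ}

theorem stFree_range_of_proj {K : Type u} [Group K] (hK : ProjStFree K)
    (ε : Matrix (Fin n) (Fin n) (MonoidAlgebra ℤ K)) (hε : ε * ε = ε) :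
    StFree (MonoidAlgebra ℤ K) (LinearMap.range (Matrix.toLinearMapRight' ε)) := by
  have h1 : Module.Projective (MonoidAlgebra ℤ K)
      (LinearMap.range (Matrix.toLinearMapRight' ε)) := by
    refine Module.Projective.of_split (LinearMap.range (Matrix.toLinearMapRight' ε)).subtype
      (Matrix.toLinearMapRight' ε).rangeRestrict ?_
    apply LinearMap.ext
    intro p
    apply Subtype.ext
    exact vecMul_of_mem_range hε p.2
  exact hK _ (Module.Finite.range _) h1

variable (H : Fin l → Subgroup G) (β : Fin n → Fin l)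
  (R : Submodule (MonoidAlgebra ℤ G) (Fin n → MonoidAlgebra ℤ G))

/-- The block vectors of the fixed vectors of an idempotent form the left kernel of a finite
matrix. -/
theorem exists_kernel_matrix (e : Matrix (Fin n) (Fin n) (MonoidAlgebra ℤ G))
    (hR : ∀ v, v ∈ R ↔ Matrix.vecMul v e = v) (b : Fin l) :
    ∃ (κ : Type) (_ : Fintype κ) (M : Matrix (Fin n) κ (MonoidAlgebra ℤ (H b))),
      (Wb (H b) β b R : Set (Fin n → MonoidAlgebra ℤ (H b))) = {v | Matrix.vecMul v M = 0} := by
  classical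
  set φ := (H b).subtype with hφdef
  have hφ : Function.Injective φ := (H b).subtype_injective
  set A := 1 - e with hA
  let S : Finset G := Finset.univ.biUnion (fun i => Finset.univ.biUnion
    (fun j => (A i j).coeff.support))
  let m := Fintype.card {y // y ∈ S}
  let eS : {y // y ∈ S} ≃ Fin m := Fintype.equivFin _
  refine ⟨(Fin m × Fin n) ⊕ Fin n, inferInstance, fun i q => Sum.elim
    (fun p => prj ℤ φ hφ (A i p.2 * single ((eS.symm p.1).1)⁻¹ 1))
    (fun j => if i = j ∧ β j ≠ b then 1 else 0) q, ?_⟩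
  ext v
  rw [SetLike.mem_coe, mem_Wb, Set.mem_ofPred_eq]
  have hR' : incv ℤ φ v ∈ R ↔ Matrix.vecMul (incv ℤ φ v) A = 0 := by
    rw [hR, hA, Matrix.vecMul_sub, Matrix.vecMul_one, sub_eq_zero, eq_comm]
  rw [hR']
  constructor
  · rintro ⟨h1, h2⟩
    funext q
    rcases q with p | j
    · change ∑ i, v i * prj ℤ φ hφ (A i p.2 * single ((eS.symm p.1).1)⁻¹ 1) = 0
      have h3 : ∀ i, v i * prj ℤ φ hφ (A i p.2 * single ((eS.symm p.1).1)⁻¹ 1)
          = prj ℤ φ hφ (inc ℤ φ (v i) * A i p.2 * single ((eS.symm p.1).1)⁻¹ 1) := by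
        intro i
        rw [mul_assoc, prj_inc_mul]
      rw [Finset.sum_congr rfl (fun i _ => h3 i), ← map_sum, ← Finset.sum_mul]
      have h4 : ∑ i, inc ℤ φ (v i) * A i p.2 = 0 := congrFun h2 p.2
      rw [h4, zero_mul, map_zero]
    · change ∑ i, v i * (if i = j ∧ β j ≠ b then 1 else 0) = 0
      refine Finset.sum_eq_zero fun i _ => ?_
      by_cases hij : i = j ∧ β j ≠ b
      · rw [if_pos hij, mul_one, hij.1, h1 j hij.2]
      · rw [if_neg hij, mul_zero]
  · intro h0
    refine ⟨?_, ?_⟩
    · intro j hj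
      have h1 : ∑ i, v i * (if i = j ∧ β j ≠ b then 1 else 0) = 0 := congrFun h0 (Sum.inr j)
      rw [Finset.sum_eq_single j] at h1
      · rw [if_pos ⟨rfl, hj⟩, mul_one] at h1
        exact h1
      · intro i _ hij
        rw [if_neg (fun h => hij h.1), mul_zero]
      · intro h; exact absurd (Finset.mem_univ j) h
    · by_contra hne
      obtain ⟨j, hj⟩ : ∃ j, Matrix.vecMul (incv ℤ φ v) A j ≠ 0 := by
        by_contra hcon
        push Not at hcon
        exact hne (funext hcon)
      obtain ⟨g, hg⟩ : ∃ g, (Matrix.vecMul (incv ℤ φ v) A j).coeff g ≠ 0 := by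
        by_contra hcon
        push Not at hcon
        exact hj (by ext g; simpa using hcon g)
      have hg' := hg
      have h2 : (Matrix.vecMul (incv ℤ φ v) A j).coeff g
          = ∑ i, (inc ℤ φ (v i) * A i j).coeff g := by
        change (∑ i, inc ℤ φ (v i) * A i j).coeff g = _
        rw [MonoidAlgebra.coeff_sum, Finsupp.finsetSum_apply]
      rw [h2] at hg
      obtain ⟨i, -, hi⟩ := Finset.exists_ne_zero_of_sum_ne_zero hg
      obtain ⟨t, y, hy, rfl⟩ := mem_support_inc_mul φ (v i) (A i j) g hi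
      have hyS : y ∈ S := Finset.mem_biUnion.2 ⟨i, Finset.mem_univ i,
        Finset.mem_biUnion.2 ⟨j, Finset.mem_univ j, Finsupp.mem_support_iff.2 hy⟩⟩
      have h3 : ∑ i, v i * prj ℤ φ hφ (A i j * single ((eS.symm (eS ⟨y, hyS⟩)).1)⁻¹ 1) = 0 :=
        congrFun h0 (Sum.inl (eS ⟨y, hyS⟩, j))
      have h4 : ∀ i, v i * prj ℤ φ hφ (A i j * single ((eS.symm (eS ⟨y, hyS⟩)).1)⁻¹ 1)
          = prj ℤ φ hφ (inc ℤ φ (v i) * A i j * single y⁻¹ 1) := by
        intro i
        rw [mul_assoc, prj_inc_mul, Equiv.symm_apply_apply]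
      rw [Finset.sum_congr rfl (fun i _ => h4 i), ← map_sum, ← Finset.sum_mul] at h3
      have h5 := congrArg (fun z => z.coeff t) h3
      simp only [MonoidAlgebra.coeff_zero, Finsupp.zero_apply] at h5
      rw [prj_coeff, MonoidAlgebra.coeff_mul_single_apply, inv_inv, mul_one] at h5
      exact hg' h5

theorem vnDim_K0_int (e : Matrix (Fin n) (Fin n) (MonoidAlgebra ℤ G))
    (hR : ∀ v, v ∈ R ↔ Matrix.vecMul v e = v) (hH : ∀ b, IntegralKernels (H b)) :
    ∃ z : ℤ, vnDim (K0 H β R : Set (Fin n → MonoidAlgebra ℤ G)) = z := by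
  have h1 : ∀ b, ∃ z : ℤ, vnDim (Wb (H b) β b R : Set (Fin n → MonoidAlgebra ℤ (H b))) = z := by
    intro b
    obtain ⟨κ, _, M, hM⟩ := exists_kernel_matrix H β R e hR b
    rw [hM]
    exact hH b n κ M
  choose z hz using h1
  refine ⟨∑ b, z b, ?_⟩
  rw [vnDim_K0]
  push_cast
  exact Finset.sum_congr rfl fun b _ => hz b

theorem sup_span_of_isEmpty (K : Submodule (MonoidAlgebra ℤ G) (Fin n → MonoidAlgebra ℤ G))
    (W : Matrix (Fin 0) (Fin n) (MonoidAlgebra ℤ G)) :
    K ⊔ Submodule.span (MonoidAlgebra ℤ G) (Set.range W) = K := by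
  refine sup_eq_left.2 ?_
  rw [Submodule.span_le]
  rintro _ ⟨i, rfl⟩
  exact i.elim0

/-- The rank conditions. -/
def RankCond (a c : ℕ) (W : Matrix (Fin a) (Fin n) (MonoidAlgebra ℤ G)) : Prop :=
  (a + c ≤ 1 ∧ ∀ b, IntegralKernels (H b)) ∨
  (vnDim ((K0 H β R ⊔ Submodule.span (MonoidAlgebra ℤ G) (Set.range W) :
        Submodule _ _) : Set (Fin n → MonoidAlgebra ℤ G))
        = vnDim (K0 H β R : Set (Fin n → MonoidAlgebra ℤ G)) ∧
    vnDim (R : Set (Fin n → MonoidAlgebra ℤ G))
        = vnDim (K0 H β R : Set (Fin n → MonoidAlgebra ℤ G)) + c)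

/-- The main theorem, for idempotent matrices. -/
theorem stFree_complement_blocks' {a c : ℕ}
    (e : Matrix (Fin n) (Fin n) (MonoidAlgebra ℤ G)) (he : e * e = e)
    (hR : ∀ v, v ∈ R ↔ Matrix.vecMul v e = v)
    (hst : ∀ b, ProjStFree (H b))
    (W : Matrix (Fin a) (Fin n) (MonoidAlgebra ℤ G))
    (W' : Matrix (Fin c) (Fin n) (MonoidAlgebra ℤ G))
    (hgen : R = K0 H β R ⊔ Submodule.span (MonoidAlgebra ℤ G) (Set.range W)
      ⊔ Submodule.span (MonoidAlgebra ℤ G) (Set.range W'))
    (hrank : RankCond H β R a c W) :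
    StFree (MonoidAlgebra ℤ G) (LinearMap.range (Matrix.toLinearMapRight' (1 - e))) := by
  have hst' : ∀ b, ∀ ε : Matrix (Fin n) (Fin n) (MonoidAlgebra ℤ (H b)), ε * ε = ε →
      StFree (MonoidAlgebra ℤ (H b)) (LinearMap.range (Matrix.toLinearMapRight' ε)) :=
    fun b ε hε => stFree_range_of_proj (hst b) ε hε
  rcases hrank with ⟨hac, hint⟩ | ⟨h1, h2⟩
  · obtain ⟨z0, hz0⟩ := vnDim_K0_int H β R e hR hint
    have hz1 := vnDim_summand R e he hR
    -- one relation
    have key : ∀ W₁ : Matrix (Fin 1) (Fin n) (MonoidAlgebra ℤ G),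
        R = K0 H β R ⊔ Submodule.span (MonoidAlgebra ℤ G) (Set.range W₁) →
        StFree (MonoidAlgebra ℤ G) (LinearMap.range (Matrix.toLinearMapRight' (1 - e))) := by
      intro W₁ hW₁
      have hW₁' : ∀ i, W₁ i ∈ R := fun i => by
        rw [hW₁]
        exact Submodule.mem_sup_right (Submodule.subset_span ⟨i, rfl⟩)
      obtain ⟨r, J, -, -, -, hformula⟩ :=
        exists_formula R (K0 H β R) (K0_le H β R) e he hR W₁ hW₁'
          (fun v hv => exists_of_mem_sup _ W₁ v (by rw [← hW₁]; exact hv))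
      have hJ0 : 0 ≤ vnDim (J : Set (Fin 1 → MonoidAlgebra ℤ G)) := dim_nonneg _
      have hJ1 : vnDim (J : Set (Fin 1 → MonoidAlgebra ℤ G)) ≤ 1 := by
        have := dim_le (sp (J : Set (Fin 1 → MonoidAlgebra ℤ G)))
        rw [Fintype.card_fin] at this
        exact_mod_cast this
      rw [hz0, hz1] at hformula
      set z1 : ℤ := ∑ i, (e i i).coeff 1 with hz1def
      have hJz : vnDim (J : Set (Fin 1 → MonoidAlgebra ℤ G)) = ((z0 + 1 - z1 : ℤ) : ℝ) := by
        push_cast
        push_cast at hformula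
        linarith only [hformula]
      rw [hJz] at hJ0 hJ1
      have hJ0' : 0 ≤ z0 + 1 - z1 := by exact_mod_cast hJ0
      have hJ1' : z0 + 1 - z1 ≤ 1 := by exact_mod_cast hJ1
      have hcase : z1 = z0 + 1 ∨ z1 = z0 := by omega
      let W₀ : Matrix (Fin 0) (Fin n) (MonoidAlgebra ℤ G) := fun i => i.elim0
      rcases hcase with hc | hc
      · refine stFree_complement_blocks H β R e he hR hst' W₀ W₁ ?_ ?_ ?_
        · rw [sup_span_of_isEmpty]; exact hW₁
        · rw [sup_span_of_isEmpty]
        · rw [hz1, hz0, hc]; push_cast; ring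
      · refine stFree_complement_blocks H β R e he hR hst' W₁ W₀ ?_ ?_ ?_
        · rw [sup_span_of_isEmpty]; exact hW₁
        · rw [← hW₁, hz1, hz0, hc]
        · rw [hz1, hz0, hc]; push_cast; ring
    rcases a with _ | a
    · rcases c with _ | c
      · rw [sup_span_of_isEmpty, sup_span_of_isEmpty] at hgen
        refine key (fun _ => 0) ?_
        rw [← hgen]
        refine (sup_eq_left.2 ?_).symm
        rw [Submodule.span_le]
        rintro _ ⟨i, rfl⟩
        exact Submodule.zero_mem _
      · have hc0 : c = 0 := by omega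
        subst hc0
        rw [sup_span_of_isEmpty] at hgen
        exact key W' hgen
    · have ha0 : a = 0 := by omega
      have hc0 : c = 0 := by omega
      subst ha0
      subst hc0
      rw [sup_span_of_isEmpty] at hgen
      exact key W hgen
  · exact stFree_complement_blocks H β R e he hR hst' W W' hgen h1 h2

/-- The main theorem, for modules given by generators and relations. -/
theorem stFree_of_relations {a c : ℕ} {P : Type v} [AddCommGroup P]
    [Module (MonoidAlgebra ℤ G) P] [Module.Projective (MonoidAlgebra ℤ G) P] (x : Fin n → P)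
    (hx : Submodule.span (MonoidAlgebra ℤ G) (Set.range x) = ⊤)
    (hR : R = LinearMap.ker (Fintype.linearCombination (MonoidAlgebra ℤ G) x))
    (hst : ∀ b, ProjStFree (H b))
    (W : Matrix (Fin a) (Fin n) (MonoidAlgebra ℤ G))
    (W' : Matrix (Fin c) (Fin n) (MonoidAlgebra ℤ G))
    (hgen : R = K0 H β R ⊔ Submodule.span (MonoidAlgebra ℤ G) (Set.range W)
      ⊔ Submodule.span (MonoidAlgebra ℤ G) (Set.range W'))
    (hrank : RankCond H β R a c W) :
    StFree (MonoidAlgebra ℤ G) P := by
  classical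
  let L := MonoidAlgebra ℤ G
  let π : (Fin n → L) →ₗ[L] P := Fintype.linearCombination L x
  have hπ : Function.Surjective π := by
    rw [← LinearMap.range_eq_top, Fintype.range_linearCombination, hx]
  obtain ⟨σ, hσ⟩ := Module.projective_lifting_property π LinearMap.id hπ
  have hσ' : ∀ p, π (σ p) = p := fun p => DFunLike.congr_fun hσ p
  let q : (Fin n → L) →ₗ[L] (Fin n → L) := LinearMap.id - σ ∘ₗ π
  have hq : ∀ v, q v = v - σ (π v) := fun v => rfl
  have hπq : ∀ v, π (q v) = 0 := fun v => by rw [hq, map_sub, hσ', sub_self]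
  obtain ⟨e, he⟩ := (Matrix.toLinearMapRight' (m := Fin n) (n := Fin n) (R := L)).surjective q
  have he' : ∀ v, Matrix.vecMul v e = q v := fun v => DFunLike.congr_fun he v
  have hee : e * e = e := by
    apply (Matrix.toLinearMapRight' (m := Fin n) (n := Fin n) (R := L)).injective
    rw [Matrix.toLinearMapRight'_mul, he]
    apply LinearMap.ext
    intro v
    change q (q v) = q v
    rw [hq (q v), hπq, map_zero, sub_zero]
  have hmem : ∀ v, v ∈ R ↔ Matrix.vecMul v e = v := by
    intro v
    rw [hR, LinearMap.mem_ker, he', hq]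
    constructor
    · intro h
      have h1 : π v = 0 := h
      rw [h1, map_zero, sub_zero]
    · intro h
      have h1 : σ (π v) = 0 := by
        have h2 : v - σ (π v) = v := h
        exact sub_eq_self.1 h2
      have h3 : π (σ (π v)) = 0 := by rw [h1, map_zero]
      rw [hσ'] at h3
      exact h3
  have hst2 := stFree_complement_blocks' H β R e hee hmem hst W W' hgen hrank
  have h1e : ∀ v, Matrix.toLinearMapRight' (1 - e) v = σ (π v) := by
    intro v
    change Matrix.vecMul v (1 - e) = σ (π v)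
    rw [Matrix.vecMul_sub, Matrix.vecMul_one, he', hq, sub_sub_cancel]
  refine hst2.congr ?_
  let F : LinearMap.range (Matrix.toLinearMapRight' (1 - e)) →ₗ[L] P :=
    π.comp (LinearMap.range (Matrix.toLinearMapRight' (1 - e))).subtype
  refine LinearEquiv.ofBijective F ⟨?_, ?_⟩
  · rw [← LinearMap.ker_eq_bot, eq_bot_iff]
    rintro ⟨_, v, rfl⟩ h0
    have h0' : π (Matrix.toLinearMapRight' (1 - e) v) = 0 := h0
    rw [h1e, hσ'] at h0'
    rw [Submodule.mem_bot]
    apply Subtype.ext
    change Matrix.toLinearMapRight' (1 - e) v = 0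
    rw [h1e, h0', map_zero]
  · intro p
    refine ⟨⟨σ p, ⟨σ p, ?_⟩⟩, hσ' p⟩
    rw [h1e, hσ']

end

end Pool.Agent.Lib.MP_551055_al.VN
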