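import Pool.Agent.Lib.MP_551055_al.FreeSubgroupPresentation

/-!
Descent of idempotent matrices over `ℤ[G]` whose rows are generated by blocks defined over
subgroups.
-/

set_option autoImplicit false
set_option linter.unusedSectionVars false

namespace Pool.Agent.Lib.MP_551055_al.VN

open Pool.Agent.Lib.MP_551055_al
open MonoidAlgebra

universe u v

section General

variable {R : Type u} [Ring R] {n : ℕ}

theorem StFree.prod {P Q : Type u} [AddCommGroup P] [Module R P] [AddCommGroup Q] [Module R Q]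
    (hP : StFree R P) (hQ : StFree R Q) : StFree R (P × Q) := by
  obtain ⟨a, b, ⟨f⟩⟩ := hP
  obtain ⟨c, d, ⟨g⟩⟩ := hQ
  refine ⟨a + c, b + d, ⟨?_⟩⟩
  let e0 : (Fin (a + c) → R) ≃ₗ[R] (Fin a → R) × (Fin c → R) :=
    (LinearEquiv.funCongrLeft R R finSumFinEquiv).trans
      (LinearEquiv.sumArrowLequivProdArrow (Fin a) (Fin c) R R)
  let e1 : ((P × Q) × ((Fin a → R) × (Fin c → R))) ≃ₗ[R]
      (P × (Fin a → R)) × (Q × (Fin c → R)) :=
    { toFun := fun z => ((z.1.1, z.2.1), (z.1.2, z.2.2))
      invFun := fun z => ((z.1.1, z.2.1), (z.1.2, z.2.2))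
      left_inv := fun z => rfl
      right_inv := fun z => rfl
      map_add' := fun z z' => rfl
      map_smul' := fun r z => rfl }
  exact (LinearEquiv.prodCongr (LinearEquiv.refl R (P × Q)) e0).trans
    (e1.trans ((LinearEquiv.prodCongr f g).trans
    ((LinearEquiv.sumArrowLequivProdArrow (Fin b) (Fin d) R R).symm.trans
      (LinearEquiv.funCongrLeft R R finSumFinEquiv.symm))))

theorem vecMul_of_mem_range {e : Matrix (Fin n) (Fin n) R} (he : e * e = e) {p : Fin n → R}
    (hp : p ∈ LinearMap.range (Matrix.toLinearMapRight' e)) : Matrix.vecMul p e = p := by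
  obtain ⟨v, rfl⟩ := hp
  change Matrix.vecMul (Matrix.vecMul v e) e = Matrix.vecMul v e
  rw [Matrix.vecMul_vecMul, he]

theorem mem_range_of_vecMul {e : Matrix (Fin n) (Fin n) R} {p : Fin n → R}
    (hp : Matrix.vecMul p e = p) : p ∈ LinearMap.range (Matrix.toLinearMapRight' e) :=
  ⟨p, hp⟩

/-- Complements of orthogonal idempotents. -/
theorem stFree_add (e f : Matrix (Fin n) (Fin n) R) (he : e * e = e) (hf : f * f = f)
    (hef : e * f = 0) (hfe : f * e = 0)
    (h1 : StFree R (LinearMap.range (Matrix.toLinearMapRight' (1 - e))))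
    (h2 : StFree R (LinearMap.range (Matrix.toLinearMapRight' (1 - f)))) :
    StFree R (LinearMap.range (Matrix.toLinearMapRight' (1 - (e + f)))) := by
  apply StFree.of_prod_free (a := n)
  refine (StFree.prod h1 h2).congr ?_
  have hE : (1 - e) * (1 - e) = 1 - e := by
    rw [Matrix.mul_sub, Matrix.mul_one, Matrix.sub_mul, Matrix.one_mul, he]; abel
  have hF : (1 - f) * (1 - f) = 1 - f := by
    rw [Matrix.mul_sub, Matrix.mul_one, Matrix.sub_mul, Matrix.one_mul, hf]; abel
  set g := 1 - (e + f) with hg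
  have hge : g * e = 0 := by
    rw [hg, Matrix.sub_mul, Matrix.one_mul, Matrix.add_mul, he, hfe, add_zero, sub_self]
  have hgf : g * f = 0 := by
    rw [hg, Matrix.sub_mul, Matrix.one_mul, Matrix.add_mul, hf, hef, zero_add, sub_self]
  have hfg : f * g = 0 := by
    rw [hg, Matrix.mul_sub, Matrix.mul_one, Matrix.mul_add, hf, hfe, zero_add, sub_self]
  have heg : e * g = 0 := by
    rw [hg, Matrix.mul_sub, Matrix.mul_one, Matrix.mul_add, he, hef, add_zero, sub_self]
  have hgg : g * g = g := by
    conv_lhs => rw [hg]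
    rw [Matrix.sub_mul, Matrix.one_mul, Matrix.add_mul, heg, hfg, add_zero, sub_zero]
  have hE1 : (1 - e) * g = g := by rw [Matrix.sub_mul, Matrix.one_mul, heg, sub_zero]
  have hF1 : (1 - f) * f = 0 := by rw [Matrix.sub_mul, Matrix.one_mul, hf, sub_self]
  have hfE : f * (1 - e) = f := by rw [Matrix.mul_sub, Matrix.mul_one, hfe, sub_zero]
  have hgE : g * (1 - e) = g := by rw [Matrix.mul_sub, Matrix.mul_one, hge, sub_zero]
  have hgF : g * (1 - f) = g := by rw [Matrix.mul_sub, Matrix.mul_one, hgf, sub_zero]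
  -- forward and backward maps
  let F : (LinearMap.range (Matrix.toLinearMapRight' (1 - e)) ×
      LinearMap.range (Matrix.toLinearMapRight' (1 - f))) →ₗ[R]
      LinearMap.range (Matrix.toLinearMapRight' g) × (Fin n → R) :=
    LinearMap.prod
      ((Matrix.toLinearMapRight' g).rangeRestrict ∘ₗ
        (LinearMap.range (Matrix.toLinearMapRight' (1 - e))).subtype ∘ₗ LinearMap.fst R _ _)
      ((Matrix.toLinearMapRight' f) ∘ₗ
        (LinearMap.range (Matrix.toLinearMapRight' (1 - e))).subtype ∘ₗ LinearMap.fst R _ _ +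
        (LinearMap.range (Matrix.toLinearMapRight' (1 - f))).subtype ∘ₗ LinearMap.snd R _ _)
  refine LinearEquiv.ofBijective F ⟨?_, ?_⟩
  · rw [← LinearMap.ker_eq_bot, eq_bot_iff]
    rintro ⟨⟨x, hx⟩, ⟨y, hy⟩⟩ h0
    have hx' := vecMul_of_mem_range hE hx
    have hy' := vecMul_of_mem_range hF hy
    have h0' : F (⟨x, hx⟩, ⟨y, hy⟩) = 0 := h0
    have a1 : Matrix.vecMul x g = 0 := congrArg Subtype.val (congrArg Prod.fst h0')
    have a2 : Matrix.vecMul x f + y = 0 := congrArg Prod.snd h0'
    have a3 : Matrix.vecMul (Matrix.vecMul x f + y) f = Matrix.vecMul x f := by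
      rw [Matrix.add_vecMul, Matrix.vecMul_vecMul, hf, ← hy', Matrix.vecMul_vecMul, hF1,
        Matrix.vecMul_zero, add_zero]
    rw [a2, Matrix.zero_vecMul] at a3
    have a4 : y = 0 := by rw [← a3, zero_add] at a2; exact a2
    have a5 : x = 0 := by
      have : Matrix.vecMul x g = x - Matrix.vecMul x e - Matrix.vecMul x f := by
        rw [hg, Matrix.vecMul_sub, Matrix.vecMul_one, Matrix.vecMul_add]; abel
      have b1 : Matrix.vecMul x e = 0 := by
        rw [← hx', Matrix.vecMul_vecMul, Matrix.sub_mul, Matrix.one_mul, he, sub_self,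
          Matrix.vecMul_zero]
      rw [a1, b1, ← a3, sub_zero, sub_zero] at this
      exact this.symm
    subst a4
    subst a5
    exact Submodule.zero_mem _
  · rintro ⟨⟨p, hp⟩, v⟩
    have hp' := vecMul_of_mem_range hgg hp
    have c1 : Matrix.vecMul (p + Matrix.vecMul v f) (1 - e) = p + Matrix.vecMul v f := by
      rw [Matrix.add_vecMul, ← hp', Matrix.vecMul_vecMul, Matrix.vecMul_vecMul, hgE, hfE]
    have c2 : Matrix.vecMul (Matrix.vecMul v (1 - f)) (1 - f) = Matrix.vecMul v (1 - f) := by
      rw [Matrix.vecMul_vecMul, hF]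
    refine ⟨(⟨_, mem_range_of_vecMul c1⟩, ⟨_, mem_range_of_vecMul c2⟩), ?_⟩
    refine Prod.ext (Subtype.ext ?_) ?_
    · change Matrix.vecMul (p + Matrix.vecMul v f) g = p
      rw [Matrix.add_vecMul, hp', Matrix.vecMul_vecMul, hfg, Matrix.vecMul_zero, add_zero]
    · change Matrix.vecMul (p + Matrix.vecMul v f) f + Matrix.vecMul v (1 - f) = v
      rw [Matrix.add_vecMul, ← hp', Matrix.vecMul_vecMul, Matrix.vecMul_vecMul, hgf, hf,
        Matrix.vecMul_zero, Matrix.vecMul_sub, Matrix.vecMul_one]
      abel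

/-- A sum of pairwise orthogonal idempotents. -/
theorem stFree_sum {l : ℕ} (E : Fin l → Matrix (Fin n) (Fin n) R)
    (hE : ∀ b, E b * E b = E b) (hEE : ∀ b b', b ≠ b' → E b * E b' = 0)
    (h : ∀ b, StFree R (LinearMap.range (Matrix.toLinearMapRight' (1 - E b))))
    (T : Finset (Fin l)) :
    (∑ b ∈ T, E b) * (∑ b ∈ T, E b) = ∑ b ∈ T, E b ∧
    StFree R (LinearMap.range (Matrix.toLinearMapRight' (1 - ∑ b ∈ T, E b))) := by
  classical
  induction T using Finset.induction_on with
  | empty =>
    refine ⟨by simp, ?_⟩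
    rw [Finset.sum_empty, sub_zero, Matrix.toLinearMapRight'_one, LinearMap.range_id]
    exact ⟨0, n, ⟨(LinearEquiv.prodUnique).trans (Submodule.topEquiv)⟩⟩
  | insert a s ha ih =>
    obtain ⟨ih1, ih2⟩ := ih
    have h1 : E a * ∑ b ∈ s, E b = 0 := by
      rw [Finset.mul_sum]
      exact Finset.sum_eq_zero fun b hb => hEE a b (fun hab => ha (hab ▸ hb))
    have h2 : (∑ b ∈ s, E b) * E a = 0 := by
      rw [Finset.sum_mul]
      exact Finset.sum_eq_zero fun b hb => hEE b a (fun hab => ha (hab ▸ hb))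
    rw [Finset.sum_insert ha]
    refine ⟨?_, stFree_add _ _ (hE a) ih1 h1 h2 (h a) ih2⟩
    rw [Matrix.add_mul, Matrix.mul_add, Matrix.mul_add, hE a, h1, h2, ih1, add_zero, zero_add]

end General

section Blocks

variable {G : Type u} [Group G] {n l : ℕ}

/-- Restriction of a vector to a block of coordinates. -/
def blk {A : Type v} [Zero A] (β : Fin n → Fin l) (b : Fin l) (v : Fin n → A) : Fin n → A :=
  fun j => if β j = b then v j else 0

/-- The vectors over `ℤ[H]` supported in a block and lying in `R`. -/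
noncomputable def Wb (H : Subgroup G) (β : Fin n → Fin l) (b : Fin l)
    (R : Submodule (MonoidAlgebra ℤ G) (Fin n → MonoidAlgebra ℤ G)) :
    Submodule (MonoidAlgebra ℤ H) (Fin n → MonoidAlgebra ℤ H) where
  carrier := {v | (∀ j, β j ≠ b → v j = 0) ∧ incv ℤ H.subtype v ∈ R}
  add_mem' := by
    rintro v w ⟨hv1, hv2⟩ ⟨hw1, hw2⟩
    refine ⟨fun j hj => ?_, ?_⟩
    · rw [Pi.add_apply, hv1 j hj, hw1 j hj, add_zero]
    · have h : incv ℤ H.subtype (v + w) = incv ℤ H.subtype v + incv ℤ H.subtype w :=
        funext fun _ => map_add _ _ _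
      rw [h]
      exact R.add_mem hv2 hw2
  zero_mem' := by
    refine ⟨fun j _ => rfl, ?_⟩
    have h : incv ℤ H.subtype (0 : Fin n → MonoidAlgebra ℤ H) = 0 := funext fun _ => map_zero _
    rw [h]
    exact R.zero_mem
  smul_mem' := by
    rintro a v ⟨hv1, hv2⟩
    refine ⟨fun j hj => ?_, ?_⟩
    · rw [Pi.smul_apply, hv1 j hj, smul_zero]
    · rw [incv_smul]
      exact R.smul_mem _ hv2

theorem mem_Wb (H : Subgroup G) (β : Fin n → Fin l) (b : Fin l)
    (R : Submodule (MonoidAlgebra ℤ G) (Fin n → MonoidAlgebra ℤ G))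
    (v : Fin n → MonoidAlgebra ℤ H) :
    v ∈ Wb H β b R ↔ (∀ j, β j ≠ b → v j = 0) ∧ incv ℤ H.subtype v ∈ R := Iff.rfl

/-- The submodule generated by the block vectors of `R`. -/
noncomputable def K0 (H : Fin l → Subgroup G) (β : Fin n → Fin l)
    (R : Submodule (MonoidAlgebra ℤ G) (Fin n → MonoidAlgebra ℤ G)) :
    Submodule (MonoidAlgebra ℤ G) (Fin n → MonoidAlgebra ℤ G) :=
  Submodule.span (MonoidAlgebra ℤ G)
    (⋃ b, (fun v => incv ℤ (H b).subtype v) '' (Wb (H b) β b R : Set _))

variable (H : Fin l → Subgroup G) (β : Fin n → Fin l)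
  (R : Submodule (MonoidAlgebra ℤ G) (Fin n → MonoidAlgebra ℤ G))

theorem incv_mem_K0 {b : Fin l} {v : Fin n → MonoidAlgebra ℤ (H b)} (hv : v ∈ Wb (H b) β b R) :
    incv ℤ (H b).subtype v ∈ K0 H β R :=
  Submodule.subset_span (Set.mem_iUnion.2 ⟨b, v, hv, rfl⟩)

theorem K0_le : K0 H β R ≤ R := by
  rw [K0, Submodule.span_le]
  intro x hx
  obtain ⟨b, v, hv, rfl⟩ := Set.mem_iUnion.1 hx
  exact hv.2

theorem K0_induction {p : (Fin n → MonoidAlgebra ℤ G) → Prop}
    (hmem : ∀ b, ∀ v ∈ Wb (H b) β b R, p (incv ℤ (H b).subtype v))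
    (hzero : p 0) (hadd : ∀ x y, p x → p y → p (x + y))
    (hsmul : ∀ (a : MonoidAlgebra ℤ G) x, p x → p (a • x)) :
    ∀ z ∈ K0 H β R, p z := by
  intro z hz
  unfold K0 at hz
  induction hz using Submodule.span_induction with
  | mem x hx =>
    obtain ⟨b, v, hv, rfl⟩ := Set.mem_iUnion.1 hx
    exact hmem b v hv
  | zero => exact hzero
  | add x y _ _ hx hy => exact hadd x y hx hy
  | smul a x _ hx => exact hsmul a x hx

theorem blk_add {A : Type v} [AddCommGroup A] (b : Fin l) (v w : Fin n → A) :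
    blk β b (v + w) = blk β b v + blk β b w := by
  funext j
  unfold blk
  by_cases h : β j = b <;> simp [h]

theorem blk_zero {A : Type v} [AddCommGroup A] (b : Fin l) :
    blk β b (0 : Fin n → A) = 0 := by
  funext j
  unfold blk
  by_cases h : β j = b <;> simp [h]

theorem blk_of_supp {A : Type v} [AddCommGroup A] (b : Fin l) (v : Fin n → A)
    (h : ∀ j, β j ≠ b → v j = 0) : blk β b v = v := by
  funext j
  unfold blk
  by_cases hj : β j = b
  · rw [if_pos hj]
  · rw [if_neg hj, h j hj]

theorem blk_of_supp_ne {A : Type v} [AddCommGroup A] (b b' : Fin l) (hbb : b ≠ b') (v : Fin n → A)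
    (h : ∀ j, β j ≠ b' → v j = 0) : blk β b v = 0 := by
  funext j
  unfold blk
  by_cases hj : β j = b
  · rw [if_pos hj, h j (by rw [hj]; exact hbb)]; rfl
  · rw [if_neg hj]; rfl

/-- The `b`-part of an element of `K0` lies in `Wb`. -/
theorem prjv_blk_mem (b : Fin l) : ∀ z ∈ K0 H β R, ∀ r : MonoidAlgebra ℤ G,
    prjv ℤ (H b).subtype (H b).subtype_injective (blk β b (r • z)) ∈ Wb (H b) β b R := by
  apply K0_induction
  · intro b' v hv r
    by_cases hbb : b = b'
    · subst hbb
      rw [blk_of_supp]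
      · rw [prjv_smul_incv]
        exact (Wb (H b) β b R).smul_mem _ hv
      · intro j hj
        rw [Pi.smul_apply]
        change r • inc ℤ _ (v j) = 0
        rw [hv.1 j hj, map_zero, smul_zero]
    · rw [blk_of_supp_ne β b b' hbb, prjv_zero]
      · exact Submodule.zero_mem _
      · intro j hj
        rw [Pi.smul_apply]
        change r • inc ℤ _ (v j) = 0
        rw [hv.1 j hj, map_zero, smul_zero]
  · intro r
    rw [smul_zero, blk_zero, prjv_zero]
    exact Submodule.zero_mem _
  · intro x y hx hy r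
    rw [smul_add, blk_add, prjv_add]
    exact Submodule.add_mem _ (hx r) (hy r)
  · intro a x hx r
    rw [smul_smul]
    exact hx _

/-- The block descent lemma. -/
theorem stFree_of_blocks
    (hst : ∀ b, ∀ ε : Matrix (Fin n) (Fin n) (MonoidAlgebra ℤ (H b)), ε * ε = ε →
      StFree (MonoidAlgebra ℤ (H b)) (LinearMap.range (Matrix.toLinearMapRight' ε)))
    (e₁ : Matrix (Fin n) (Fin n) (MonoidAlgebra ℤ G))
    (h1 : ∀ i, e₁ i ∈ K0 H β R)
    (h2 : ∀ v ∈ K0 H β R, Matrix.vecMul v e₁ = v) :
    StFree (MonoidAlgebra ℤ G) (LinearMap.range (Matrix.toLinearMapRight' (1 - e₁))) := by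
  classical
  let ε : ∀ b, Matrix (Fin n) (Fin n) (MonoidAlgebra ℤ (H b)) := fun b i j =>
    if β i = b then prj ℤ (H b).subtype (H b).subtype_injective (blk β b (e₁ i) j) else 0
  have hrow : ∀ b i, ε b i ∈ Wb (H b) β b R := by
    intro b i
    by_cases hi : β i = b
    · have h3 : ε b i = prjv ℤ (H b).subtype (H b).subtype_injective (blk β b (e₁ i)) := by
        funext j
        change (if β i = b then _ else _) = _
        rw [if_pos hi]; rfl
      rw [h3]
      have h4 := prjv_blk_mem H β R b (e₁ i) (h1 i) 1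
      rwa [one_smul] at h4
    · have h3 : ε b i = 0 := by
        funext j
        change (if β i = b then _ else _) = _
        rw [if_neg hi]; rfl
      rw [h3]
      exact Submodule.zero_mem _
  have hw : ∀ b, ∀ v ∈ Wb (H b) β b R, Matrix.vecMul v (ε b) = v := by
    intro b v hv
    have h3 : Matrix.vecMul (incv ℤ (H b).subtype v) e₁ = incv ℤ (H b).subtype v :=
      h2 _ (incv_mem_K0 H β R hv)
    funext j
    change ∑ i, v i * ε b i j = v j
    by_cases hj : β j = b
    · have h4 : ∀ i, v i * ε b i j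
          = prj ℤ (H b).subtype (H b).subtype_injective (inc ℤ (H b).subtype (v i) * e₁ i j) := by
        intro i
        rw [prj_inc_mul]
        by_cases hi : β i = b
        · change v i * (if β i = b then _ else _) = _
          rw [if_pos hi]
          unfold blk
          rw [if_pos hj]
        · rw [hv.1 i hi, zero_mul, zero_mul]
      rw [Finset.sum_congr rfl (fun i _ => h4 i), ← map_sum]
      have h5 : ∑ i, inc ℤ (H b).subtype (v i) * e₁ i j = inc ℤ (H b).subtype (v j) :=
        congrFun h3 j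
      rw [h5, prj_inc]
    · rw [hv.1 j hj]
      refine Finset.sum_eq_zero fun i _ => ?_
      by_cases hi : β i = b
      · change v i * (if β i = b then _ else _) = _
        rw [if_pos hi]
        unfold blk
        rw [if_neg hj, map_zero, mul_zero]
      · rw [hv.1 i hi, zero_mul]
  have hidem : ∀ b, ε b * ε b = ε b := by
    intro b
    funext i
    rw [Matrix.mul_apply_eq_vecMul]
    exact hw b _ (hrow b i)
  let E : Fin l → Matrix (Fin n) (Fin n) (MonoidAlgebra ℤ G) := fun b =>
    (ε b).map (inc ℤ (H b).subtype)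
  have hEidem : ∀ b, E b * E b = E b := fun b => by
    change (ε b).map _ * (ε b).map _ = (ε b).map _
    rw [← Matrix.map_mul, hidem]
  have hErow : ∀ b i, β i ≠ b → E b i = 0 := by
    intro b i hi
    funext j
    change inc ℤ (H b).subtype (if β i = b then _ else _) = 0
    rw [if_neg hi, map_zero]
  have hEcol : ∀ b i j, β j ≠ b → E b i j = 0 := by
    intro b i j hj
    change inc ℤ (H b).subtype (ε b i j) = 0
    rw [(hrow b i).1 j hj, map_zero]
  have hEE : ∀ b b', b ≠ b' → E b * E b' = 0 := by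
    intro b b' hbb
    ext1 i j
    rw [Matrix.mul_apply]
    refine Finset.sum_eq_zero fun k _ => ?_
    by_cases hk : β k = b
    · have : E b' k = 0 := hErow b' k (by rw [hk]; exact hbb)
      rw [this]
      exact mul_zero _
    · rw [hEcol b i k hk, zero_mul]
  have hEst : ∀ b, StFree (MonoidAlgebra ℤ G)
      (LinearMap.range (Matrix.toLinearMapRight' (1 - E b))) := by
    intro b
    have h3 : (1 - ε b) * (1 - ε b) = 1 - ε b := by
      rw [Matrix.mul_sub, Matrix.mul_one, Matrix.sub_mul, Matrix.one_mul, hidem b, sub_self,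
        sub_zero]
    have h4 := stFree_map (inc ℤ (H b).subtype) (1 - ε b) h3 (hst b _ h3)
    have hmap : (1 - ε b).map (inc ℤ (H b).subtype) = 1 - E b := by
      rw [Matrix.map_sub _ (map_sub _), Matrix.map_one _ (map_zero _) (map_one _)]
    rwa [hmap] at h4
  obtain ⟨hsum1, hsum2⟩ := stFree_sum E hEidem hEE hEst Finset.univ
  set E' := ∑ b, E b with hE'
  have hfix : ∀ z ∈ K0 H β R, Matrix.vecMul z E' = z := by
    apply K0_induction
    · intro b v hv
      rw [hE', Matrix.vecMul_sum, Finset.sum_eq_single b]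
      · change Matrix.vecMul (incv ℤ (H b).subtype v) ((ε b).map (inc ℤ (H b).subtype)) = _
        rw [← incv_vecMul, hw b v hv]
      · intro b' _ hb'
        funext j
        change ∑ i, inc ℤ (H b).subtype (v i) * E b' i j = 0
        refine Finset.sum_eq_zero fun i _ => ?_
        by_cases hi : β i = b
        · rw [hErow b' i (by rw [hi]; exact Ne.symm hb')]
          exact mul_zero _
        · rw [hv.1 i hi, map_zero, zero_mul]
      · intro h; exact absurd (Finset.mem_univ b) h
    · exact Matrix.zero_vecMul _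
    · intro x y hx hy
      rw [Matrix.add_vecMul, hx, hy]
    · intro a x hx
      rw [vecMul_smul', hx]
  have ha : e₁ * E' = e₁ := by
    funext i
    rw [Matrix.mul_apply_eq_vecMul]
    exact hfix _ (h1 i)
  have hb : E' * e₁ = E' := by
    funext i
    rw [Matrix.mul_apply_eq_vecMul]
    apply h2
    have h3 : E' i = ∑ b, E b i := by
      funext j
      rw [hE', Matrix.sum_apply, Finset.sum_apply]
    rw [h3]
    refine Submodule.sum_mem _ fun b _ => ?_
    exact incv_mem_K0 H β R (hrow b i)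
  obtain ⟨Φ⟩ := complement_equiv E' e₁ hb ha
  exact hsum2.congr Φ

end Blocks

end Pool.Agent.Lib.MP_551055_al.VN
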