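import Pool.Agent.Lib.MP_551055_al.Collapse
import Pool.Agent.Lib.MP_551055_al.OneRelation

/-!
Projective modules over `ℤ[G]`, `G` torsion-free, with all but one relation two-term.
-/

set_option autoImplicit false

namespace Pool.Agent.Lib.MP_551055_al

universe u v w

open MonoidAlgebra

variable {G : Type u} [Group G]

/-- A vector over `ℤ[G]` with at most two terms: a sum of two vectors, each with at most one
nonzero coordinate, that coordinate being an integer multiple of a group element. -/
def IsTwoTerm {n : ℕ} (r : Fin n → MonoidAlgebra ℤ G) : Prop :=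
  ∃ (i j : Fin n) (g h : G) (a b : ℤ), r = Pi.single i (single g a) + Pi.single j (single h b)

theorem pi_single_coeff {n : ℕ} (i i' : Fin n) (g g' : G) (a : ℤ) [Decidable (i = i' ∧ g = g')] :
    ((Pi.single i (single g a) : Fin n → MonoidAlgebra ℤ G) i').coeff g'
      = if i = i' ∧ g = g' then a else 0 := by
  classical
  by_cases hi : i = i'
  · subst hi
    rw [Pi.single_eq_same, MonoidAlgebra.coeff_single, Finsupp.single_apply]
    by_cases hg : g = g' <;> simp [hg]
  · rw [Pi.single_eq_of_ne (Ne.symm hi)]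
    simp [hi]

theorem IsTwoTerm.rigidRel {P : Type v} [AddCommGroup P] [Module (MonoidAlgebra ℤ G) P] {n : ℕ}
    {x : Fin n → P} {r : Fin n → MonoidAlgebra ℤ G} (hr : IsTwoTerm r)
    (h0 : Fintype.linearCombination (MonoidAlgebra ℤ G) x r = 0) : RigidRel x r := by
  classical
  obtain ⟨i, j, g, h, a, b, rfl⟩ := hr
  intro i1 g1 i2 g2 h1 h2 hx1 hx2
  rw [map_add, Fintype.linearCombination_apply_single,
    Fintype.linearCombination_apply_single, single_smul_eq, single_smul_eq h] at h0
  rw [Pi.add_apply, MonoidAlgebra.coeff_add, Finsupp.add_apply, pi_single_coeff,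
    pi_single_coeff] at h1 h2
  have hne : ∀ k l, ((if i = k ∧ g = l then a else 0) + (if j = k ∧ h = l then b else 0)) ≠ 0 →
      (i = k ∧ g = l) ∨ (j = k ∧ h = l) := by
    intro k l hkl
    by_contra hcon
    push Not at hcon
    obtain ⟨c1, c2⟩ := hcon
    rw [if_neg (fun hh => c1 hh.1 hh.2), if_neg (fun hh => c2 hh.1 hh.2)] at hkl
    exact hkl rfl
  by_cases hsame : i = j ∧ g = h
  · obtain ⟨rfl, rfl⟩ := hsame
    have e1 : i = i1 ∧ g = g1 := by
      rcases hne _ _ h1 with hh | hh <;> exact hh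
    have e2 : i = i2 ∧ g = g2 := by
      rcases hne _ _ h2 with hh | hh <;> exact hh
    obtain ⟨rfl, rfl⟩ := e1
    obtain ⟨rfl, rfl⟩ := e2
    exact ⟨1, 1, one_ne_zero, one_ne_zero, rfl⟩
  · have hab : a • ((single g (1 : ℤ) : MonoidAlgebra ℤ G) • x i)
        = (-b) • ((single h (1 : ℤ) : MonoidAlgebra ℤ G) • x j) := by
      rw [neg_smul]; exact eq_neg_of_add_eq_zero_left h0
    have hsame' : ¬ (j = i ∧ h = g) := fun hh => hsame ⟨hh.1.symm, hh.2.symm⟩
    rcases hne _ _ h1 with ⟨rfl, rfl⟩ | ⟨rfl, rfl⟩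
    · rcases hne _ _ h2 with ⟨rfl, rfl⟩ | ⟨rfl, rfl⟩
      · exact ⟨1, 1, one_ne_zero, one_ne_zero, rfl⟩
      · rw [if_neg hsame', if_pos ⟨rfl, rfl⟩, add_zero] at h1
        rw [if_neg hsame, if_pos ⟨rfl, rfl⟩, zero_add] at h2
        exact ⟨a, -b, h1, neg_ne_zero.2 h2, hab⟩
    · rcases hne _ _ h2 with ⟨rfl, rfl⟩ | ⟨rfl, rfl⟩
      · rw [if_neg hsame, if_pos ⟨rfl, rfl⟩, zero_add] at h1
        rw [if_neg hsame', if_pos ⟨rfl, rfl⟩, add_zero] at h2
        exact ⟨-b, a, neg_ne_zero.2 h1, h2, hab.symm⟩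
      · exact ⟨1, 1, one_ne_zero, one_ne_zero, rfl⟩

/-- All relations but one are rigid. -/
theorem stFree_of_rigid_relations (hG : ∀ g : G, IsOfFinOrder g → g = 1)
    {P : Type v} [AddCommGroup P] [Module (MonoidAlgebra ℤ G) P]
    [Module.Projective (MonoidAlgebra ℤ G) P] {n : ℕ} (x : Fin n → P)
    (hx : Submodule.span (MonoidAlgebra ℤ G) (Set.range x) = ⊤)
    (T : Set (Fin n → MonoidAlgebra ℤ G)) (w : Fin n → MonoidAlgebra ℤ G)
    (hT : ∀ r ∈ T, Fintype.linearCombination (MonoidAlgebra ℤ G) x r = 0 → RigidRel x r)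
    (hker : LinearMap.ker (Fintype.linearCombination (MonoidAlgebra ℤ G) x)
      = Submodule.span (MonoidAlgebra ℤ G) (insert w T)) :
    StFree (MonoidAlgebra ℤ G) P := by
  have hsurj : Function.Surjective (Fintype.linearCombination (MonoidAlgebra ℤ G) x) := by
    rw [← LinearMap.range_eq_top, Fintype.range_linearCombination, hx]
  have : Module.Finite (MonoidAlgebra ℤ G) P := Module.Finite.of_surjective _ hsurj
  have hP : IsRigid (G := G) P := isRigid_of_projective hG P
  obtain ⟨k, y, s, hs, hys, hrig⟩ := collapse hP x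
  apply stFree_of_cyclic_kernel Kaplansky.idempotent_trivial
    (Fintype.linearCombination (MonoidAlgebra ℤ G) y) _ (s w)
  · -- the kernel
    apply le_antisymm
    · intro v hv
      obtain ⟨u, rfl⟩ := hs v
      have hu : u ∈ LinearMap.ker (Fintype.linearCombination (MonoidAlgebra ℤ G) x) := by
        rw [LinearMap.mem_ker, ← hys]; exact hv
      rw [hker] at hu
      have h1 : s u ∈ Submodule.map s (Submodule.span (MonoidAlgebra ℤ G) (insert w T)) :=
        ⟨u, hu, rfl⟩
      rw [Submodule.map_span] at h1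
      refine Submodule.span_le.2 ?_ h1
      rintro _ ⟨r, hr, rfl⟩
      rcases hr with rfl | hr
      · exact Submodule.mem_span_singleton_self _
      · have hr0 : Fintype.linearCombination (MonoidAlgebra ℤ G) x r = 0 := by
          have : r ∈ LinearMap.ker (Fintype.linearCombination (MonoidAlgebra ℤ G) x) := by
            rw [hker]; exact Submodule.subset_span (Or.inr hr)
          exact this
        rw [hrig r hr0 (hT r hr hr0)]
        exact Submodule.zero_mem _
    · rw [Submodule.span_le]
      rintro _ rfl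
      change Fintype.linearCombination (MonoidAlgebra ℤ G) y (s w) = 0
      rw [hys]
      have : w ∈ LinearMap.ker (Fintype.linearCombination (MonoidAlgebra ℤ G) x) := by
        rw [hker]; exact Submodule.subset_span (Or.inl rfl)
      exact this
  · -- surjectivity
    intro p
    obtain ⟨u, rfl⟩ := hsurj p
    exact ⟨s u, hys u⟩

/-- Row version. -/
theorem stFree_of_twoTerm_relations (hG : ∀ g : G, IsOfFinOrder g → g = 1)
    {P : Type v} [AddCommGroup P] [Module (MonoidAlgebra ℤ G) P]
    [Module.Projective (MonoidAlgebra ℤ G) P] {n : ℕ} (x : Fin n → P)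
    (hx : Submodule.span (MonoidAlgebra ℤ G) (Set.range x) = ⊤)
    (T : Set (Fin n → MonoidAlgebra ℤ G)) (w : Fin n → MonoidAlgebra ℤ G)
    (hT : ∀ r ∈ T, IsTwoTerm r)
    (hker : LinearMap.ker (Fintype.linearCombination (MonoidAlgebra ℤ G) x)
      = Submodule.span (MonoidAlgebra ℤ G) (insert w T)) :
    StFree (MonoidAlgebra ℤ G) P :=
  stFree_of_rigid_relations hG x hx T w (fun r hr h0 => (hT r hr).rigidRel h0) hker

end Pool.Agent.Lib.MP_551055_al
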