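import Pool.Agent.Lib.MP_551055_al.VNRelation
import Pool.Agent.Lib.MP_551055_al.VNBlocks

/-!
The von Neumann dimension of the submodule generated by blocks defined over subgroups is the sum of
the dimensions of the blocks.
-/

set_option autoImplicit false
set_option linter.unusedSectionVars false

namespace Pool.Agent.Lib.MP_551055_al.VN

open scoped InnerProductSpace
open Pool.Agent.Lib.MP_551055_al.Kaplansky Pool.Agent.Lib.MP_551055_al.KaplanskyMatrix
open Pool.Agent.Lib.MP_551055_al
open MonoidAlgebra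

universe u v

theorem ext_bs' {X : Type u} {E : Type v} [NormedAddCommGroup E] [NormedSpace ℝ E]
    {A B : Hs X →L[ℝ] E} (h : ∀ g, A (bs X g) = B (bs X g)) : A = B := by
  apply ContinuousLinearMap.ext_on (s := Set.range (bs X))
  · have := (bs X).dense_span
    rw [Submodule.dense_iff_topologicalClosure_eq_top]
    exact this
  · rintro _ ⟨g, rfl⟩
    exact h g

/-- The isometry induced by an injective map. -/
noncomputable def Jm {X Y : Type u} (f : X → Y) (hf : Function.Injective f) :
    Hs X →ₗᵢ[ℝ] Hs Y :=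
  (((bs Y).orthonormal.comp f hf).orthogonalFamily).linearIsometry

theorem bs_eq_single {X : Type u} [DecidableEq X] (x : X) :
    bs X x = lp.single 2 x (1 : ℝ) := by
  have h := (bs X).repr_self x
  have h2 : (bs X).repr (bs X x) = bs X x := rfl
  rw [← h2, h]

theorem Jm_bs {X Y : Type u} (f : X → Y) (hf : Function.Injective f) (x : X) :
    Jm f hf (bs X x) = bs Y (f x) := by
  classical
  unfold Jm
  rw [bs_eq_single, OrthogonalFamily.linearIsometry_apply_single]
  simp

open Classical in
theorem inner_bs' {X : Type u} (g h : X) : ⟪bs X g, bs X h⟫_ℝ = if g = h then 1 else 0 := by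
  have := (bs X).orthonormal
  rw [orthonormal_iff_ite] at this
  exact this g h

theorem inner_Jm_of_notMem {X Y : Type u} (f : X → Y) (hf : Function.Injective f) (y : Y)
    (hy : y ∉ Set.range f) (x : Hs X) : ⟪bs Y y, Jm f hf x⟫_ℝ = 0 := by
  classical
  have h : (innerSL ℝ (bs Y y)) ∘L (Jm f hf).toContinuousLinearMap = 0 := by
    apply ext_bs'
    intro g
    change ⟪bs Y y, Jm f hf (bs X g)⟫_ℝ = 0
    rw [Jm_bs, inner_bs', if_neg]
    rintro rfl
    exact hy ⟨g, rfl⟩
  exact DFunLike.congr_fun h x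

section
variable {ι : Type} [Fintype ι] {X Y : Type u}

/-- The induced map on vectors. -/
noncomputable def JV (f : X → Y) (hf : Function.Injective f) : Vs X ι →L[ℝ] Vs Y ι :=
  (PiLp.continuousLinearEquiv 2 ℝ (fun _ : ι => Hs Y)).symm.toContinuousLinearMap ∘L
    ContinuousLinearMap.pi (fun i => (Jm f hf).toContinuousLinearMap ∘L
      (PiLp.proj 2 (fun _ : ι => Hs X) i))

theorem JV_apply (f : X → Y) (hf : Function.Injective f) (x : Vs X ι) (i : ι) :
    (JV f hf x) i = Jm f hf (x i) := by
  simp [JV]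

theorem inner_JV (f : X → Y) (hf : Function.Injective f) (x y : Vs X ι) :
    ⟪JV f hf x, JV f hf y⟫_ℝ = ⟪x, y⟫_ℝ := by
  rw [PiLp.inner_apply, PiLp.inner_apply]
  refine Finset.sum_congr rfl fun i _ => ?_
  rw [JV_apply, JV_apply, LinearIsometry.inner_map_map]

theorem JV_dl [DecidableEq ι] (f : X → Y) (hf : Function.Injective f) (i : ι) (x : X) :
    JV f hf (PiLp.single 2 i (bs X x) : Vs X ι) = PiLp.single 2 i (bs Y (f x)) := by
  ext1 j
  rw [JV_apply]
  by_cases hij : j = i
  · subst hij
    rw [PiLp.single_eq_same, PiLp.single_eq_same, Jm_bs]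
  · rw [PiLp.single_eq_of_ne _ hij, PiLp.single_eq_of_ne _ hij, map_zero]

end

section
variable {G : Type u} [Group G] {H : Type u} [Group H] {ι : Type} [Fintype ι]
variable (φ : H →* G) (hφ : Function.Injective φ)

theorem Jm_Lt (h : H) (x : Hs H) : Jm φ hφ (Lt h x) = Lt (φ h) (Jm φ hφ x) := by
  have : (Jm φ hφ).toContinuousLinearMap ∘L (Lt h).toContinuousLinearEquiv.toContinuousLinearMap
      = (Lt (φ h)).toContinuousLinearEquiv.toContinuousLinearMap ∘L
        (Jm φ hφ).toContinuousLinearMap := by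
    apply ext_bs'
    intro g
    change Jm φ hφ (Lt h (bs H g)) = Lt (φ h) (Jm φ hφ (bs H g))
    rw [Lt_bs, Jm_bs, Jm_bs, Lt_bs, map_mul]
  exact DFunLike.congr_fun this x

theorem JV_LV (h : H) (x : Vs H ι) : JV φ hφ (LV h x) = LV (φ h) (JV φ hφ x) := by
  ext1 i
  rw [JV_apply, LV_apply, LV_apply, JV_apply, Jm_Lt]

theorem inner_Jm_Lt (g : G) (hg : g ∉ φ.range) (x y : Hs H) :
    ⟪Jm φ hφ x, Lt g (Jm φ hφ y)⟫_ℝ = 0 := by
  rw [← (bs G).tsum_inner_mul_inner]
  have h0 : ∀ k : G, ⟪Jm φ hφ x, bs G k⟫_ℝ * ⟪bs G k, Lt g (Jm φ hφ y)⟫_ℝ = 0 := by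
    intro k
    by_cases hk : k ∈ Set.range φ
    · have h1 : bs G k = Lt g (bs G (g⁻¹ * k)) := by rw [Lt_bs, mul_inv_cancel_left]
      have h2 : ⟪bs G k, Lt g (Jm φ hφ y)⟫_ℝ = 0 := by
        rw [h1, LinearIsometryEquiv.inner_map_map]
        apply inner_Jm_of_notMem
        rintro ⟨a, ha⟩
        obtain ⟨b, rfl⟩ := hk
        apply hg
        refine ⟨b * a⁻¹, ?_⟩
        rw [map_mul, map_inv, ha]
        group
      rw [h2, mul_zero]
    · rw [real_inner_comm, inner_Jm_of_notMem φ hφ k hk, zero_mul]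
  rw [tsum_congr h0, tsum_zero]

theorem inner_JV_LV (g : G) (hg : g ∉ φ.range) (x y : Vs H ι) :
    ⟪JV φ hφ x, LV g (JV φ hφ y)⟫_ℝ = 0 := by
  rw [PiLp.inner_apply]
  refine Finset.sum_eq_zero fun i _ => ?_
  rw [JV_apply, LV_apply, JV_apply, inner_Jm_Lt φ hφ g hg]

theorem JV_toVs {n : ℕ} (v : Fin n → MonoidAlgebra ℤ H) :
    JV φ hφ (toVs v) = toVs (incv ℤ φ v) := by
  apply sub_eq_zero.1
  apply eq_zero_of_inner_dl
  intro i g
  rw [inner_sub_right, real_inner_comm (toVs (incv ℤ φ v)), inner_toVs_dl]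
  have h1 : ⟪(dl i g : Vs G (Fin n)), JV φ hφ (toVs v)⟫_ℝ
      = ((incv ℤ φ v i).coeff g : ℝ) := by
    rw [inner_dl, JV_apply]
    change _ = (((inc ℤ φ (v i)).coeff g : ℤ) : ℝ)
    by_cases hg : g ∈ Set.range φ
    · obtain ⟨h, rfl⟩ := hg
      have h2 : ⟪bs H h, (toVs v) i⟫_ℝ = ((v i).coeff h : ℝ) := by
        rw [← inner_dl, real_inner_comm, inner_toVs_dl]
      rw [inc_coeff_apply φ hφ, ← Jm_bs φ hφ, LinearIsometry.inner_map_map, h2]
    · rw [inner_Jm_of_notMem φ hφ g hg, inc_coeff_of_notMem φ _ g hg]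
      simp
  rw [h1, sub_self]

end

theorem map_closure' {E F : Type u} [NormedAddCommGroup E] [NormedSpace ℝ E]
    [NormedAddCommGroup F] [NormedSpace ℝ F] {K : Submodule ℝ E} {K' : Submodule ℝ F}
    (A : E →L[ℝ] F) (h : ∀ x ∈ K, A x ∈ K'.topologicalClosure) :
    ∀ x ∈ K.topologicalClosure, A x ∈ K'.topologicalClosure := by
  intro x hx
  have h2 : IsClosed {x | A x ∈ K'.topologicalClosure} :=
    (K'.isClosed_topologicalClosure).preimage A.continuous
  have h3 : closure (K : Set E) ⊆ {x | A x ∈ K'.topologicalClosure} :=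
    closure_minimal (fun x hx => h x hx) h2
  exact h3 hx

section Blocks

variable {G : Type u} [Group G] {n l : ℕ}
variable (H : Fin l → Subgroup G) (β : Fin n → Fin l)
  (R : Submodule (MonoidAlgebra ℤ G) (Fin n → MonoidAlgebra ℤ G))

theorem closure_Wb_supp (b : Fin l) (x : Vs (H b) (Fin n))
    (hx : x ∈ (sp (Wb (H b) β b R : Set (Fin n → MonoidAlgebra ℤ (H b)))).topologicalClosure)
    (i : Fin n) (hi : β i ≠ b) : x i = 0 := by
  have hc : IsClosed {x : Vs (H b) (Fin n) | x i = 0} :=
    isClosed_eq (PiLp.proj 2 (fun _ : Fin n => Hs (H b)) (𝕜 := ℝ) i).continuous continuous_const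
  have h3 : closure (sp (Wb (H b) β b R : Set (Fin n → MonoidAlgebra ℤ (H b))) :
      Set (Vs (H b) (Fin n))) ⊆ {x | x i = 0} := by
    apply closure_minimal _ hc
    intro x hx
    change x ∈ sp (Wb (H b) β b R : Set (Fin n → MonoidAlgebra ℤ (H b))) at hx
    induction hx using Submodule.span_induction with
    | mem x hx =>
      obtain ⟨v, hv, rfl⟩ := hx
      change toVs v i = 0
      rw [toVs_apply, hv.1 i hi, map_zero, Rr_zero]
      rfl
    | zero => rfl
    | add x y _ _ hx hy =>
      change x i + y i = 0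
      rw [show x i = 0 from hx, show y i = 0 from hy, add_zero]
    | smul a x _ hx =>
      change a • x i = 0
      rw [show x i = 0 from hx, smul_zero]
  exact h3 hx

theorem toVs_zsmul {ι : Type} [Fintype ι] [DecidableEq ι] (c : ℤ) (v : ι → MonoidAlgebra ℤ G) :
    toVs (c • v) = (c : ℝ) • toVs v := by
  apply sub_eq_zero.1
  apply eq_zero_of_inner_dl
  intro i g
  rw [inner_sub_right, inner_smul_right, real_inner_comm, inner_toVs_dl, real_inner_comm,
    inner_toVs_dl, coeff_zsmul]
  push_cast
  ring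

/-- The projection onto the closure of `K0` of a basis vector in the block `b`. -/
theorem pr_K0 (j : Fin n) :
    pr (sp (K0 H β R : Set (Fin n → MonoidAlgebra ℤ G))) (dl j 1) =
      JV (H (β j)).subtype (H (β j)).subtype_injective
        (pr (sp (Wb (H (β j)) β (β j) R : Set (Fin n → MonoidAlgebra ℤ (H (β j))))) (dl j 1)) := by
  set b := β j with hb
  set φ := (H b).subtype with hφdef
  have hφ : Function.Injective φ := (H b).subtype_injective
  set Kb := sp (Wb (H b) β b R : Set (Fin n → MonoidAlgebra ℤ (H b))) with hKb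
  set K := sp (K0 H β R : Set (Fin n → MonoidAlgebra ℤ G)) with hK
  set y : Vs (H b) (Fin n) := dl j 1 - pr Kb (dl j 1) with hy
  have hd : (dl j 1 : Vs G (Fin n)) = JV φ hφ (dl j 1) := by
    unfold dl
    rw [JV_dl, map_one φ]
  have horth : ∀ w ∈ Kb.topologicalClosure, ⟪y, w⟫_ℝ = 0 := fun w hw =>
    Kb.topologicalClosure.starProjection_inner_eq_zero _ w hw
  have hysupp : ∀ i, β i ≠ b → y i = 0 := by
    intro i hi
    have h1 : (pr Kb (dl j 1)) i = 0 := closure_Wb_supp H β R b _ (pr_mem Kb _) i hi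
    have h2 : (dl j 1 : Vs (H b) (Fin n)) i = 0 := by
      unfold dl
      apply PiLp.single_eq_of_ne
      rintro rfl
      exact hi hb.symm
    rw [hy, PiLp.sub_apply, h1, h2, sub_zero]
  have key : ∀ z ∈ K0 H β R, ∀ g : G, ⟪JV φ hφ y, LV g (toVs z)⟫_ℝ = 0 := by
    apply K0_induction
    · intro b' v hv g
      rw [← JV_toVs (H b').subtype (H b').subtype_injective]
      by_cases hbb : b' = b
      · subst hbb
        by_cases hg : g ∈ φ.range
        · obtain ⟨h, rfl⟩ := hg
          rw [← JV_LV, inner_JV, ← toVs_smul]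
          apply horth
          exact Submodule.le_topologicalClosure _ (toVs_mem_sp ((Wb _ β _ R).smul_mem _ hv))
        · exact inner_JV_LV φ hφ g hg _ _
      · rw [PiLp.inner_apply]
        refine Finset.sum_eq_zero fun i _ => ?_
        by_cases hi : β i = b
        · have h1 : (toVs v) i = 0 := by
            rw [toVs_apply, hv.1 i (by rw [hi]; exact Ne.symm hbb), map_zero, Rr_zero]; rfl
          rw [LV_apply, JV_apply, JV_apply, h1, map_zero, map_zero, inner_zero_right]
        · rw [JV_apply, hysupp i hi, map_zero, inner_zero_left]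
    · intro g
      rw [toVs_zero, map_zero, inner_zero_right]
    · intro z z' hz hz' g
      rw [toVs_add, map_add, inner_add_right, hz, hz', add_zero]
    · intro a z hz
      induction a using MonoidAlgebra.induction_linear with
      | zero =>
        intro g
        rw [zero_smul, toVs_zero, map_zero, inner_zero_right]
      | add a a' ha ha' =>
        intro g
        rw [add_smul, toVs_add, map_add, inner_add_right, ha, ha', add_zero]
      | single h c =>
        intro g
        have h1 : (single h c : MonoidAlgebra ℤ G) • z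
            = c • ((single h (1 : ℤ) : MonoidAlgebra ℤ G) • z) := by
          rw [← smul_assoc]
          congr 1
          rw [MonoidAlgebra.smul_single, smul_eq_mul, mul_one]
        rw [h1, toVs_zsmul, map_smul, inner_smul_right, toVs_smul]
        have h2 : LV g (LV h (toVs z)) = LV (g * h) (toVs z) := by
          ext1 i
          rw [LV_apply, LV_apply, LV_apply]
          have h3 : (Lt g).toContinuousLinearEquiv.toContinuousLinearMap ∘L
              (Lt h).toContinuousLinearEquiv.toContinuousLinearMap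
              = (Lt (g * h)).toContinuousLinearEquiv.toContinuousLinearMap := by
            apply ext_bs
            intro k
            change Lt g (Lt h (bs G k)) = Lt (g * h) (bs G k)
            rw [Lt_bs, Lt_bs, Lt_bs, mul_assoc]
          exact DFunLike.congr_fun h3 _
        rw [h2, hz, mul_zero]
  refine (K.topologicalClosure.eq_starProjection_of_mem_of_inner_eq_zero ?_ ?_).symm ▸ rfl
  · refine map_closure' (JV φ hφ) ?_ _ (pr_mem Kb _)
    intro x hx
    induction hx using Submodule.span_induction with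
    | mem x hx =>
      obtain ⟨v, hv, rfl⟩ := hx
      rw [JV_toVs]
      exact Submodule.le_topologicalClosure _ (toVs_mem_sp (incv_mem_K0 H β R hv))
    | zero => rw [map_zero]; exact Submodule.zero_mem _
    | add x y _ _ hx hy => rw [map_add]; exact Submodule.add_mem _ hx hy
    | smul a x _ hx => rw [map_smul]; exact Submodule.smul_mem _ _ hx
  · intro w hw
    have hd2 : (dl j 1 : Vs G (Fin n)) - JV φ hφ (pr Kb (dl j 1)) = JV φ hφ y := by
      rw [hy, map_sub, ← hd]
    rw [hd2]
    have hc : IsClosed {w : Vs G (Fin n) | ⟪JV φ hφ y, w⟫_ℝ = 0} :=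
      isClosed_eq (continuous_const.inner continuous_id) continuous_const
    have h3 : closure (K : Set (Vs G (Fin n))) ⊆ {w | ⟪JV φ hφ y, w⟫_ℝ = 0} := by
      apply closure_minimal _ hc
      intro x hx
      change x ∈ K at hx
      induction hx using Submodule.span_induction with
      | mem x hx =>
        obtain ⟨v, hv, rfl⟩ := hx
        have h4 := key v hv 1
        have h5 : LV (1 : G) (toVs v) = toVs v := by
          rw [← toVs_smul]
          congr 1
          exact one_smul (MonoidAlgebra ℤ G) v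
        rw [h5] at h4
        exact h4
      | zero => exact inner_zero_right _
      | add x y _ _ hx hy =>
        change ⟪_, x + y⟫_ℝ = 0
        rw [inner_add_right, show ⟪_, x⟫_ℝ = 0 from hx, show ⟪_, y⟫_ℝ = 0 from hy, add_zero]
      | smul a x _ hx =>
        change ⟪_, a • x⟫_ℝ = 0
        rw [inner_smul_right, show ⟪_, x⟫_ℝ = 0 from hx, mul_zero]
    exact h3 hw

theorem norm_JV {ι : Type} [Fintype ι] {X Y : Type u} (f : X → Y) (hf : Function.Injective f)
    (x : Vs X ι) : ‖JV f hf x‖ ^ 2 = ‖x‖ ^ 2 := by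
  rw [← real_inner_self_eq_norm_sq, inner_JV, real_inner_self_eq_norm_sq]

/-- The dimension of `K0` is the sum of the dimensions of the blocks. -/
theorem vnDim_K0 : vnDim (K0 H β R : Set (Fin n → MonoidAlgebra ℤ G)) =
    ∑ b, vnDim (Wb (H b) β b R : Set (Fin n → MonoidAlgebra ℤ (H b))) := by
  unfold vnDim dim
  have h1 : ∀ b, ∑ i, ‖pr (sp (Wb (H b) β b R : Set (Fin n → MonoidAlgebra ℤ (H b))))
      (dl i 1)‖ ^ 2 = ∑ i, if β i = b then
        ‖pr (sp (Wb (H b) β b R : Set (Fin n → MonoidAlgebra ℤ (H b)))) (dl i 1)‖ ^ 2 else 0 := by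
    intro b
    refine Finset.sum_congr rfl fun i _ => ?_
    by_cases hi : β i = b
    · rw [if_pos hi]
    · rw [if_neg hi]
      have h2 : pr (sp (Wb (H b) β b R : Set (Fin n → MonoidAlgebra ℤ (H b)))) (dl i 1) = 0 := by
        set Kb := sp (Wb (H b) β b R : Set (Fin n → MonoidAlgebra ℤ (H b)))
        have h3 : ⟪pr Kb (dl i 1), pr Kb (dl i 1)⟫_ℝ = 0 := by
          rw [pr_sa, pr_of_mem Kb (pr_mem Kb _), inner_dl,
            closure_Wb_supp H β R b _ (pr_mem Kb _) i hi, inner_zero_right]
        exact inner_self_eq_zero.1 h3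
      rw [h2, norm_zero]
      norm_num
  rw [Finset.sum_congr rfl (fun b _ => h1 b), Finset.sum_comm]
  refine Finset.sum_congr rfl fun j _ => ?_
  rw [Finset.sum_ite_eq, if_pos (Finset.mem_univ _), pr_K0, norm_JV]

end Blocks

end Pool.Agent.Lib.MP_551055_al.VN
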