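import Pool.Agent.Lib.MP_551055_al.VNInduce

/-!
Projective modules over `ℤ[G]` whose relations are generated by relations over subgroups (in
blocks of generators) and a few more relations.
-/

set_option autoImplicit false
set_option linter.unusedSectionVars false

namespace Pool.Agent.Lib.MP_551055_al.VN

open Pool.Agent.Lib.MP_551055_al
open MonoidAlgebra

universe u v

section Main

variable {G : Type u} [Group G] {n l k : ℕ}
variable (H : Fin l → Subgroup G) (β : Fin n → Fin l)
  (R : Submodule (MonoidAlgebra ℤ G) (Fin n → MonoidAlgebra ℤ G))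

theorem sub_vecMul_mem {A : Type u} [Ring A] {κ : Type} [Fintype κ]
    (K : Submodule A (Fin n → A)) (e : Matrix (Fin n) (Fin n) A) (r₀ : Matrix (Fin n) κ A)
    (W : Matrix κ (Fin n) A) (h : ∀ i, e i - Matrix.vecMul (r₀ i) W ∈ K) (v : Fin n → A)
    (hv : Matrix.vecMul v e = v) : v - Matrix.vecMul (Matrix.vecMul v r₀) W ∈ K := by
  have h1 : v - Matrix.vecMul (Matrix.vecMul v r₀) W
      = ∑ i, v i • (e i - Matrix.vecMul (r₀ i) W) := by
    simp only [smul_sub]
    rw [Finset.sum_sub_distrib]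
    congr 1
    · conv_lhs => rw [← hv]
      funext j
      rw [Finset.sum_apply]
      rfl
    · funext j
      rw [Finset.sum_apply]
      change ∑ t, (∑ i, v i * r₀ i t) * W t j = ∑ i, v i * ∑ t, r₀ i t * W t j
      simp only [Finset.sum_mul, Finset.mul_sum]
      rw [Finset.sum_comm]
      exact Finset.sum_congr rfl fun i _ => Finset.sum_congr rfl fun t _ => mul_assoc _ _ _
  rw [h1]
  exact Submodule.sum_mem _ fun i _ => Submodule.smul_mem _ _ (h i)

theorem eq_zero_of_prj_mul_single (φ : Subgroup G) (z : MonoidAlgebra ℤ G)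
    (h : ∀ y : G, prj ℤ φ.subtype φ.subtype_injective (z * single y⁻¹ 1) = 0) : z = 0 := by
  ext y
  have h1 := congrArg (fun q => q.coeff 1) (h y)
  simp only [MonoidAlgebra.coeff_zero, Finsupp.zero_apply] at h1
  rw [prj_coeff, MonoidAlgebra.coeff_mul_single_apply, inv_inv, mul_one, map_one, one_mul] at h1
  rw [h1]; rfl

/-- If adding the rows of `W` does not increase the dimension, all relations are generated by
the block relations. -/
theorem mem_K0_of_dim (e : Matrix (Fin n) (Fin n) (MonoidAlgebra ℤ G))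
    (hR : ∀ v, v ∈ R ↔ Matrix.vecMul v e = v)
    (W : Matrix (Fin k) (Fin n) (MonoidAlgebra ℤ G))
    (r : Matrix (Fin n) (Fin k) (MonoidAlgebra ℤ G))
    (hr : ∀ v ∈ R, v - Matrix.vecMul (Matrix.vecMul v r) W ∈ K0 H β R)
    (J : Submodule (MonoidAlgebra ℤ G) (Fin k → MonoidAlgebra ℤ G))
    (hJ : ∀ x, x ∈ J ↔ Matrix.vecMul x W ∈ K0 H β R)
    (hdim : vnDim (J : Set (Fin k → MonoidAlgebra ℤ G)) = Fintype.card (Fin k)) :
    ∀ v ∈ R, v ∈ K0 H β R := by
  classical
  intro v hv
  have hzero : ∀ w ∈ R, ∀ t, ∑ j, w j * (1 - e) j t = 0 := by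
    intro w hw t
    have h1 : Matrix.vecMul w (1 - e) = 0 := by
      rw [Matrix.vecMul_sub, Matrix.vecMul_one, (hR w).1 hw, sub_self]
    exact congrFun h1 t
  have hblk : ∀ b, blk β b v ∈ K0 H β R := by
    intro b
    set φ := (H b).subtype with hφdef
    have hφ : Function.Injective φ := (H b).subtype_injective
    have h0 := mem_span_prjv (k := ℤ) φ hφ (blk β b v)
    refine Submodule.span_le.2 ?_ h0
    rintro _ ⟨x, rfl⟩
    change incv ℤ φ (prjv ℤ φ hφ ((single x⁻¹ (1 : ℤ) : MonoidAlgebra ℤ G) • blk β b v))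
      ∈ K0 H β R
    set u := prjv ℤ φ hφ ((single x⁻¹ (1 : ℤ) : MonoidAlgebra ℤ G) • blk β b v) with hu
    have husupp : ∀ j, β j ≠ b → u j = 0 := by
      intro j hj
      change prj ℤ φ hφ (single x⁻¹ (1 : ℤ) * (if β j = b then v j else 0)) = 0
      rw [if_neg hj, mul_zero, map_zero]
    refine incv_mem_K0 H β R (v := u) ⟨husupp, ?_⟩
    rw [hR]
    -- it suffices to kill the columns of `1 - e`
    suffices hs : Matrix.vecMul (incv ℤ φ u) (1 - e) = 0 by
      rw [Matrix.vecMul_sub, Matrix.vecMul_one, sub_eq_zero] at hs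
      exact hs.symm
    funext t
    change ∑ j, inc ℤ φ (u j) * (1 - e) j t = 0
    apply eq_zero_of_prj_mul_single (H b)
    intro y
    rw [Finset.sum_mul, map_sum]
    let c : Fin n → MonoidAlgebra ℤ (H b) := fun j => prj ℤ φ hφ ((1 - e) j t * single y⁻¹ 1)
    let f : Fin n → MonoidAlgebra ℤ G := fun j => if β j = b then inc ℤ φ (c j) else 0
    have hK : ∀ w ∈ K0 H β R, ∑ j, w j * f j = 0 := by
      apply K0_induction
      · intro b' v' hv'
        by_cases hbb : b' = b
        · subst hbb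
          have h1 : ∀ j, incv ℤ (H b').subtype v' j * f j
              = inc ℤ φ (prj ℤ φ hφ (inc ℤ φ (v' j) * ((1 - e) j t * single y⁻¹ 1))) := by
            intro j
            rw [prj_inc_mul, map_mul]
            by_cases hj : β j = b'
            · change inc ℤ φ (v' j) * (if β j = b' then _ else _) = _
              rw [if_pos hj]
            · rw [hv'.1 j hj, map_zero, zero_mul]
              change inc ℤ (H b').subtype (v' j) * f j = 0
              rw [hv'.1 j hj, map_zero, zero_mul]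
          rw [Finset.sum_congr rfl (fun j _ => h1 j), ← map_sum, ← map_sum]
          have h2 : ∑ j, inc ℤ φ (v' j) * ((1 - e) j t * single y⁻¹ (1 : ℤ))
              = (∑ j, incv ℤ φ v' j * (1 - e) j t) * single y⁻¹ (1 : ℤ) := by
            rw [Finset.sum_mul]
            exact Finset.sum_congr rfl fun j _ => (mul_assoc _ _ _).symm
          rw [h2, hzero _ hv'.2 t, zero_mul, map_zero, map_zero]
        · refine Finset.sum_eq_zero fun j _ => ?_
          by_cases hj : β j = b
          · change inc ℤ (H b').subtype (v' j) * f j = 0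
            rw [hv'.1 j (by rw [hj]; exact Ne.symm hbb), map_zero, zero_mul]
          · change _ * (if β j = b then _ else _) = _
            rw [if_neg hj, mul_zero]
      · exact Finset.sum_eq_zero fun j _ => zero_mul _
      · intro x y hx hy
        have : ∀ j, (x + y) j * f j = x j * f j + y j * f j := fun j => add_mul _ _ _
        rw [Finset.sum_congr rfl (fun j _ => this j), Finset.sum_add_distrib, hx, hy, add_zero]
      · intro a x hx
        have : ∀ j, (a • x) j * f j = a * (x j * f j) := fun j => mul_assoc _ _ _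
        rw [Finset.sum_congr rfl (fun j _ => this j), ← Finset.mul_sum, hx, mul_zero]
    have hcomm : ∀ x : Fin k → MonoidAlgebra ℤ G, ∑ j, Matrix.vecMul x W j * f j
        = ∑ i, x i * ∑ j, W i j * f j := by
      intro x
      change ∑ j, (∑ i, x i * W i j) * f j = ∑ i, x i * ∑ j, W i j * f j
      simp only [Finset.sum_mul, Finset.mul_sum]
      rw [Finset.sum_comm]
      exact Finset.sum_congr rfl fun i _ => Finset.sum_congr rfl fun j _ => mul_assoc _ _ _
    have hWf : (fun i => ∑ j, W i j * f j) = 0 := by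
      apply col_eq_zero_of_vnDim J hdim
      intro x hx
      rw [← hcomm]
      exact hK _ ((hJ x).1 hx)
    have hvf : ∑ j, v j * f j = 0 := by
      have h1 := hK _ (hr v hv)
      have h2 : ∀ j, (v - Matrix.vecMul (Matrix.vecMul v r) W) j * f j
          = v j * f j - Matrix.vecMul (Matrix.vecMul v r) W j * f j := fun j => sub_mul _ _ _
      rw [Finset.sum_congr rfl (fun j _ => h2 j), Finset.sum_sub_distrib, hcomm] at h1
      have h3 : ∑ i, Matrix.vecMul v r i * ∑ j, W i j * f j = 0 :=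
        Finset.sum_eq_zero fun i _ => by
          have : ∑ j, W i j * f j = 0 := congrFun hWf i
          rw [this, mul_zero]
      rw [h3, sub_zero] at h1
      exact h1
    have h4 : ∀ j, prj ℤ (H b).subtype (H b).subtype_injective
        (inc ℤ φ (u j) * (1 - e) j t * single y⁻¹ 1)
        = prj ℤ φ hφ (single x⁻¹ (1 : ℤ) * (v j * f j)) := by
      intro j
      rw [mul_assoc, prj_inc_mul]
      by_cases hj : β j = b
      · have h5 : f j = inc ℤ φ (c j) := if_pos hj
        rw [h5, ← mul_assoc, prj_mul_inc]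
        congr 1
        change prj ℤ φ hφ (single x⁻¹ (1 : ℤ) * (if β j = b then v j else 0)) = _
        rw [if_pos hj]
      · have h5 : f j = 0 := if_neg hj
        rw [husupp j hj, zero_mul, h5, mul_zero, mul_zero, map_zero]
    rw [Finset.sum_congr rfl (fun j _ => h4 j), ← map_sum, ← Finset.mul_sum, hvf, mul_zero,
      map_zero]
  have hsum : v = ∑ b, blk β b v := by
    funext j
    rw [Finset.sum_apply]
    have h6 : ∀ b, blk β b v j = if β j = b then v j else 0 := fun b => rfl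
    rw [Finset.sum_congr rfl (fun b _ => h6 b), Finset.sum_ite_eq, if_pos (Finset.mem_univ _)]
  rw [hsum]
  exact Submodule.sum_mem _ fun b _ => hblk b

/-- A section of the map to the additional relations. -/
theorem exists_section (K : Submodule (MonoidAlgebra ℤ G) (Fin n → MonoidAlgebra ℤ G))
    (e : Matrix (Fin n) (Fin n) (MonoidAlgebra ℤ G)) (he : e * e = e)
    (hR : ∀ v, v ∈ R ↔ Matrix.vecMul v e = v)
    (W : Matrix (Fin k) (Fin n) (MonoidAlgebra ℤ G))
    (hgen : ∀ v ∈ R, ∃ x : Fin k → MonoidAlgebra ℤ G, v - Matrix.vecMul x W ∈ K) :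
    ∃ r : Matrix (Fin n) (Fin k) (MonoidAlgebra ℤ G), e * r = r ∧
      ∀ v ∈ R, v - Matrix.vecMul (Matrix.vecMul v r) W ∈ K := by
  classical
  have hei : ∀ i, e i ∈ R := fun i => by
    rw [hR, ← Matrix.mul_apply_eq_vecMul, he]
  choose r₀ hr₀ using fun i => hgen (e i) (hei i)
  refine ⟨e * Matrix.of r₀, by rw [← Matrix.mul_assoc, he], ?_⟩
  intro v hv
  have hvr : Matrix.vecMul v (e * Matrix.of r₀) = Matrix.vecMul v (Matrix.of r₀) := by
    rw [← Matrix.vecMul_vecMul, (hR v).1 hv]
  rw [hvr]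
  exact sub_vecMul_mem K e (Matrix.of r₀) W hr₀ v ((hR v).1 hv)

theorem vecMul_rows_mem (W : Matrix (Fin k) (Fin n) (MonoidAlgebra ℤ G)) (hW : ∀ i, W i ∈ R)
    (x : Fin k → MonoidAlgebra ℤ G) : Matrix.vecMul x W ∈ R := by
  have : Matrix.vecMul x W = ∑ i, x i • W i := by
    funext j
    rw [Finset.sum_apply]
    rfl
  rw [this]
  exact Submodule.sum_mem _ fun i _ => Submodule.smul_mem _ _ (hW i)

/-- The dimension formula for a submodule `K` of a direct summand `R` generated by `K` and the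
rows of `W`. -/
theorem exists_formula (K : Submodule (MonoidAlgebra ℤ G) (Fin n → MonoidAlgebra ℤ G))
    (hKR : K ≤ R) (e : Matrix (Fin n) (Fin n) (MonoidAlgebra ℤ G)) (he : e * e = e)
    (hR : ∀ v, v ∈ R ↔ Matrix.vecMul v e = v)
    (W : Matrix (Fin k) (Fin n) (MonoidAlgebra ℤ G)) (hW : ∀ i, W i ∈ R)
    (hgen : ∀ v ∈ R, ∃ x : Fin k → MonoidAlgebra ℤ G, v - Matrix.vecMul x W ∈ K) :
    ∃ (r : Matrix (Fin n) (Fin k) (MonoidAlgebra ℤ G))
      (J : Submodule (MonoidAlgebra ℤ G) (Fin k → MonoidAlgebra ℤ G)), e * r = r ∧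
      (∀ v ∈ R, v - Matrix.vecMul (Matrix.vecMul v r) W ∈ K) ∧
      (∀ x, x ∈ J ↔ Matrix.vecMul x W ∈ K) ∧
      vnDim (R : Set (Fin n → MonoidAlgebra ℤ G)) + vnDim (J : Set (Fin k → MonoidAlgebra ℤ G))
        = vnDim (K : Set (Fin n → MonoidAlgebra ℤ G)) + k := by
  obtain ⟨r, her, hr⟩ := exists_section R K e he hR W hgen
  refine ⟨r, K.comap (Matrix.toLinearMapRight' W), her, hr, fun x => Iff.rfl, ?_⟩
  have h := vnDim_formula R K (K.comap (Matrix.toLinearMapRight' W)) W r hKR
    (vecMul_rows_mem R W hW) hr (fun x => Iff.rfl)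
  rw [Fintype.card_fin] at h
  exact h

/-- If the additional relations increase the dimension by their number, they split off. -/
theorem split_case (K : Submodule (MonoidAlgebra ℤ G) (Fin n → MonoidAlgebra ℤ G))
    (hKR : K ≤ R) (e : Matrix (Fin n) (Fin n) (MonoidAlgebra ℤ G)) (he : e * e = e)
    (hR : ∀ v, v ∈ R ↔ Matrix.vecMul v e = v)
    (W : Matrix (Fin k) (Fin n) (MonoidAlgebra ℤ G)) (hW : ∀ i, W i ∈ R)
    (hgen : ∀ v ∈ R, ∃ x : Fin k → MonoidAlgebra ℤ G, v - Matrix.vecMul x W ∈ K)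
    (hrank : vnDim (R : Set (Fin n → MonoidAlgebra ℤ G))
        = vnDim (K : Set (Fin n → MonoidAlgebra ℤ G)) + k) :
    ∃ e₁ : Matrix (Fin n) (Fin n) (MonoidAlgebra ℤ G), e₁ * e₁ = e₁ ∧
      (∀ v, v ∈ K ↔ Matrix.vecMul v e₁ = v) ∧
      Nonempty (LinearMap.range (Matrix.toLinearMapRight' (1 - e₁)) ≃ₗ[MonoidAlgebra ℤ G]
        LinearMap.range (Matrix.toLinearMapRight' (1 - e)) × (Fin k → MonoidAlgebra ℤ G)) := by
  classical
  obtain ⟨r, J, her, hr, hJ, hformula⟩ := exists_formula R K hKR e he hR W hW hgen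
  have hWR := vecMul_rows_mem R W hW
  have hei : ∀ i, e i ∈ R := fun i => by
    rw [hR, ← Matrix.mul_apply_eq_vecMul, he]
  have hfixK : ∀ v ∈ K, Matrix.vecMul v e = v := fun v hv => (hR v).1 (hKR hv)
  have hdim : vnDim (J : Set (Fin k → MonoidAlgebra ℤ G)) = 0 := by
    linarith only [hformula, hrank]
  have hJ0 := eq_bot_of_vnDim J hdim
  have hKr : ∀ y ∈ K, Matrix.vecMul y r = 0 := by
    intro y hy
    apply hJ0
    rw [hJ]
    have h1 := hr y (hKR hy)
    have h2 : Matrix.vecMul (Matrix.vecMul y r) W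
        = y - (y - Matrix.vecMul (Matrix.vecMul y r) W) := by abel
    rw [h2]
    exact Submodule.sub_mem _ hy h1
  have hWr : W * r = 1 := by
    have h1 : ∀ x : Fin k → MonoidAlgebra ℤ G, Matrix.vecMul x (1 - W * r) = 0 := by
      intro x
      apply hJ0
      rw [hJ, Matrix.vecMul_sub, Matrix.vecMul_one, Matrix.sub_vecMul, ← Matrix.vecMul_vecMul]
      exact hr _ (hWR x)
    have h2 : 1 - W * r = 0 := by
      funext i
      have h3 := h1 (Pi.single i 1)
      rw [Matrix.single_one_vecMul] at h3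
      exact h3
    exact (sub_eq_zero.1 h2).symm
  set e₁ := e - r * W with he₁
  have hrow : ∀ i, e₁ i ∈ K := by
    intro i
    have h1 := hr (e i) (hei i)
    have h2 : Matrix.vecMul (e i) r = r i := by
      rw [← Matrix.mul_apply_eq_vecMul, her]
    rw [h2] at h1
    have h3 : e₁ i = e i - Matrix.vecMul (r i) W := by
      rw [he₁, ← Matrix.mul_apply_eq_vecMul]; rfl
    rw [h3]
    exact h1
  have hfix : ∀ v ∈ K, Matrix.vecMul v e₁ = v := by
    intro v hv
    rw [he₁, Matrix.vecMul_sub, ← Matrix.vecMul_vecMul, hKr v hv, Matrix.zero_vecMul, sub_zero,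
      hfixK v hv]
  have he₁₁ : e₁ * e₁ = e₁ := by
    funext i
    rw [Matrix.mul_apply_eq_vecMul]
    exact hfix _ (hrow i)
  have hE : (1 - e) * (1 - e) = 1 - e := by
    rw [Matrix.mul_sub, Matrix.mul_one, Matrix.sub_mul, Matrix.one_mul, he]; abel
  have hE₁ : (1 - e₁) * (1 - e₁) = 1 - e₁ := by
    rw [Matrix.mul_sub, Matrix.mul_one, Matrix.sub_mul, Matrix.one_mul, he₁₁]; abel
  refine ⟨e₁, he₁₁, fun v => ⟨hfix v, fun hv => ?_⟩, ⟨?_⟩⟩
  · rw [← hv]
    exact vecMul_mem_of_rows e₁ K hrow v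
  let F : LinearMap.range (Matrix.toLinearMapRight' (1 - e₁)) →ₗ[MonoidAlgebra ℤ G]
      (LinearMap.range (Matrix.toLinearMapRight' (1 - e)) × (Fin k → MonoidAlgebra ℤ G)) :=
    (LinearMap.prod (Matrix.toLinearMapRight' (1 - e)).rangeRestrict
      (Matrix.toLinearMapRight' r)).comp
      (LinearMap.range (Matrix.toLinearMapRight' (1 - e₁))).subtype
  refine LinearEquiv.ofBijective F ⟨?_, ?_⟩
  · rw [← LinearMap.ker_eq_bot, eq_bot_iff]
    rintro ⟨v, hv⟩ h0
    have h0' : F ⟨v, hv⟩ = 0 := h0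
    have h1 : Matrix.vecMul v (1 - e) = 0 := congrArg Subtype.val (congrArg Prod.fst h0')
    have h2 : Matrix.vecMul v r = 0 := congrArg Prod.snd h0'
    have h3 := vecMul_of_mem_range hE₁ hv
    have h4 : Matrix.vecMul v e₁ = 0 := by
      rw [Matrix.vecMul_sub, Matrix.vecMul_one] at h3
      exact sub_eq_self.1 h3
    rw [he₁, Matrix.vecMul_sub, ← Matrix.vecMul_vecMul, h2, Matrix.zero_vecMul, sub_zero] at h4
    rw [Matrix.vecMul_sub, Matrix.vecMul_one, h4, sub_zero] at h1
    rw [Submodule.mem_bot]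
    exact Subtype.ext h1
  · rintro ⟨⟨p, hp⟩, a⟩
    have hp' := vecMul_of_mem_range hE hp
    have hpe : Matrix.vecMul p e = 0 := by
      rw [Matrix.vecMul_sub, Matrix.vecMul_one] at hp'
      exact sub_eq_self.1 hp'
    have hpr : Matrix.vecMul p r = 0 := by
      rw [← her, ← Matrix.vecMul_vecMul, hpe, Matrix.zero_vecMul]
    have haW : Matrix.vecMul (Matrix.vecMul a W) e = Matrix.vecMul a W := (hR _).1 (hWR a)
    have h1 : Matrix.vecMul (p + Matrix.vecMul a W) r = a := by
      rw [Matrix.add_vecMul, hpr, zero_add, Matrix.vecMul_vecMul, hWr, Matrix.vecMul_one]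
    have h2 : Matrix.vecMul (p + Matrix.vecMul a W) e = Matrix.vecMul a W := by
      rw [Matrix.add_vecMul, hpe, zero_add, haW]
    have h3 : Matrix.vecMul (p + Matrix.vecMul a W) (1 - e₁) = p + Matrix.vecMul a W := by
      rw [Matrix.vecMul_sub, Matrix.vecMul_one, he₁, Matrix.vecMul_sub, h2,
        ← Matrix.vecMul_vecMul, h1, sub_self, sub_zero]
    refine ⟨⟨_, mem_range_of_vecMul h3⟩, ?_⟩
    refine Prod.ext (Subtype.ext ?_) h1
    change Matrix.vecMul (p + Matrix.vecMul a W) (1 - e) = p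
    rw [Matrix.vecMul_sub, Matrix.vecMul_one, h2, add_sub_cancel_right]

/-- If the additional relations do not increase the dimension, they are redundant. -/
theorem redundant_case (e : Matrix (Fin n) (Fin n) (MonoidAlgebra ℤ G)) (he : e * e = e)
    (hR : ∀ v, v ∈ R ↔ Matrix.vecMul v e = v)
    (hst : ∀ b, ∀ ε : Matrix (Fin n) (Fin n) (MonoidAlgebra ℤ (H b)), ε * ε = ε →
      StFree (MonoidAlgebra ℤ (H b)) (LinearMap.range (Matrix.toLinearMapRight' ε)))
    (W : Matrix (Fin k) (Fin n) (MonoidAlgebra ℤ G)) (hW : ∀ i, W i ∈ R)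
    (hgen : ∀ v ∈ R, ∃ x : Fin k → MonoidAlgebra ℤ G, v - Matrix.vecMul x W ∈ K0 H β R)
    (hrank : vnDim (R : Set (Fin n → MonoidAlgebra ℤ G))
        = vnDim (K0 H β R : Set (Fin n → MonoidAlgebra ℤ G))) :
    StFree (MonoidAlgebra ℤ G) (LinearMap.range (Matrix.toLinearMapRight' (1 - e))) := by
  obtain ⟨r, J, her, hr, hJ, hformula⟩ :=
    exists_formula R (K0 H β R) (K0_le H β R) e he hR W hW hgen
  have hdim : vnDim (J : Set (Fin k → MonoidAlgebra ℤ G)) = Fintype.card (Fin k) := by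
    rw [Fintype.card_fin]
    linarith only [hformula, hrank]
  have hRK := mem_K0_of_dim H β R e hR W r hr J hJ hdim
  have hei : ∀ i, e i ∈ R := fun i => by
    rw [hR, ← Matrix.mul_apply_eq_vecMul, he]
  exact stFree_of_blocks H β R hst e (fun i => hRK _ (hei i))
    (fun v hv => (hR v).1 (K0_le H β R hv))

theorem exists_of_mem_sup {a : ℕ} (K : Submodule (MonoidAlgebra ℤ G) (Fin n → MonoidAlgebra ℤ G))
    (W : Matrix (Fin a) (Fin n) (MonoidAlgebra ℤ G)) (v : Fin n → MonoidAlgebra ℤ G)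
    (hv : v ∈ K ⊔ Submodule.span (MonoidAlgebra ℤ G) (Set.range W)) :
    ∃ x : Fin a → MonoidAlgebra ℤ G, v - Matrix.vecMul x W ∈ K := by
  obtain ⟨y, hy, t, ht, rfl⟩ := Submodule.mem_sup.1 hv
  obtain ⟨c, rfl⟩ := (Submodule.mem_span_range_iff_exists_fun _).1 ht
  refine ⟨c, ?_⟩
  have h1 : Matrix.vecMul c W = ∑ i, c i • W i := by
    funext j
    rw [Finset.sum_apply]
    rfl
  rw [h1, add_sub_cancel_right]
  exact hy

/-- The main theorem, for idempotent matrices. -/
theorem stFree_complement_blocks {a c : ℕ}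
    (e : Matrix (Fin n) (Fin n) (MonoidAlgebra ℤ G)) (he : e * e = e)
    (hR : ∀ v, v ∈ R ↔ Matrix.vecMul v e = v)
    (hst : ∀ b, ∀ ε : Matrix (Fin n) (Fin n) (MonoidAlgebra ℤ (H b)), ε * ε = ε →
      StFree (MonoidAlgebra ℤ (H b)) (LinearMap.range (Matrix.toLinearMapRight' ε)))
    (W : Matrix (Fin a) (Fin n) (MonoidAlgebra ℤ G))
    (W' : Matrix (Fin c) (Fin n) (MonoidAlgebra ℤ G))
    (hgen : R = K0 H β R ⊔ Submodule.span (MonoidAlgebra ℤ G) (Set.range W)
      ⊔ Submodule.span (MonoidAlgebra ℤ G) (Set.range W'))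
    (hrank : vnDim ((K0 H β R ⊔ Submodule.span (MonoidAlgebra ℤ G) (Set.range W) :
        Submodule _ _) : Set (Fin n → MonoidAlgebra ℤ G))
        = vnDim (K0 H β R : Set (Fin n → MonoidAlgebra ℤ G)))
    (hrank' : vnDim (R : Set (Fin n → MonoidAlgebra ℤ G))
        = vnDim (K0 H β R : Set (Fin n → MonoidAlgebra ℤ G)) + c) :
    StFree (MonoidAlgebra ℤ G) (LinearMap.range (Matrix.toLinearMapRight' (1 - e))) := by
  set K := K0 H β R ⊔ Submodule.span (MonoidAlgebra ℤ G) (Set.range W) with hK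
  have hKR : K ≤ R := by rw [hgen]; exact le_sup_left
  have hW' : ∀ i, W' i ∈ R := fun i => by
    rw [hgen]
    exact Submodule.mem_sup_right (Submodule.subset_span ⟨i, rfl⟩)
  obtain ⟨e₁, he₁, hR₁, ⟨Φ⟩⟩ := split_case R K hKR e he hR W' hW'
    (fun v hv => exists_of_mem_sup K W' v (by rw [← hgen]; exact hv))
    (by rw [hrank, hrank'])
  apply StFree.of_prod_free (a := c)
  refine StFree.congr Φ ?_
  -- the block vectors of `K` and `R` are the same
  have hWb : ∀ b, Wb (H b) β b K = Wb (H b) β b R := by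
    intro b
    apply le_antisymm
    · intro v hv
      exact ⟨hv.1, hKR hv.2⟩
    · intro v hv
      exact ⟨hv.1, Submodule.mem_sup_left (incv_mem_K0 H β R hv)⟩
  have hK0 : K0 H β K = K0 H β R := by
    unfold K0
    simp only [hWb]
  have hW : ∀ i, W i ∈ K := fun i =>
    Submodule.mem_sup_right (Submodule.subset_span ⟨i, rfl⟩)
  refine redundant_case H β K e₁ he₁ hR₁ hst W hW
    (fun v hv => exists_of_mem_sup (K0 H β K) W v (by rw [hK0]; exact hv)) ?_
  rw [hK0, hrank]

/-- The dimension of a direct summand is an integer. -/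
theorem vnDim_summand (e : Matrix (Fin n) (Fin n) (MonoidAlgebra ℤ G)) (he : e * e = e)
    (hR : ∀ v, v ∈ R ↔ Matrix.vecMul v e = v) :
    vnDim (R : Set (Fin n → MonoidAlgebra ℤ G)) = ((∑ i, (e i i).coeff 1 : ℤ) : ℝ) := by
  rw [vnDim_fixed (e.map (cR G)) R]
  · push_cast
    exact Finset.sum_congr rfl fun i _ => cR_coeff _ _
  · intro v hv
    rw [← toVs_vecMul, (hR v).1 hv]
  · intro i
    rw [← toVs_single, ← toVs_vecMul]
    refine Submodule.le_topologicalClosure _ (toVs_mem_sp ?_)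
    rw [SetLike.mem_coe, hR, Matrix.vecMul_vecMul, he]

end Main

end Pool.Agent.Lib.MP_551055_al.VN
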