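import Pool.Agent.Lib.MP_551055_al.VNTrace

/-!
The von Neumann dimension of left submodules of `ℤ[G]^ι`, and the dimension formula for adding
finitely many relations.
-/

set_option autoImplicit false
set_option linter.unusedSectionVars false

namespace Pool.Agent.Lib.MP_551055_al.VN

open scoped InnerProductSpace
open Pool.Agent.Lib.MP_551055_al.Kaplansky Pool.Agent.Lib.MP_551055_al.KaplanskyMatrix
open MonoidAlgebra

universe u

variable {G : Type u} [Group G]
variable {ι κ μ : Type} [Fintype ι] [Fintype κ] [Fintype μ]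

/-- `ℤ[G] → ℝ[G]`. -/
noncomputable def cR (G : Type u) [Group G] : MonoidAlgebra ℤ G →+* MonoidAlgebra ℝ G :=
  MonoidAlgebra.mapRingHom G (Int.castRingHom ℝ)

theorem cR_coeff (a : MonoidAlgebra ℤ G) (g : G) : (cR G a).coeff g = ((a.coeff g : ℤ) : ℝ) := by
  simp [cR, MonoidAlgebra.coeff_mapRingHom]

/-- The vector of `ℓ²(G)^ι` given by a vector over `ℤ[G]`. -/
noncomputable def toVs (v : ι → MonoidAlgebra ℤ G) : Vs G ι :=
  WithLp.toLp 2 fun i => (v i).coeff.sum fun g c => (c : ℝ) • bs G g

theorem toVs_apply (v : ι → MonoidAlgebra ℤ G) (i : ι) :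
    (toVs v) i = Rr (cR G (v i)) (bs G 1) := by
  classical
  change ((v i).coeff.sum fun g c => (c : ℝ) • bs G g) = _
  rw [Rr_bs]
  have h1 : (cR G (v i)).coeff.support = (v i).coeff.support := by
    ext g
    rw [Finsupp.mem_support_iff, Finsupp.mem_support_iff, cR_coeff]
    simp
  rw [Finsupp.sum, Finsupp.sum, h1]
  refine Finset.sum_congr rfl fun g _ => ?_
  rw [cR_coeff, one_mul]

theorem toVs_add (v w : ι → MonoidAlgebra ℤ G) : toVs (v + w) = toVs v + toVs w := by
  ext1 i
  rw [PiLp.add_apply, toVs_apply, toVs_apply, toVs_apply, Pi.add_apply, map_add, Rr_add]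
  rfl

theorem toVs_zero : toVs (0 : ι → MonoidAlgebra ℤ G) = 0 := by
  ext1 i
  rw [toVs_apply, Pi.zero_apply, map_zero, Rr_zero]
  rfl

theorem toVs_vecMul (v : ι → MonoidAlgebra ℤ G) (M : Matrix ι κ (MonoidAlgebra ℤ G)) :
    toVs (Matrix.vecMul v M) = RM (M.map (cR G)) (toVs v) := by
  ext1 j
  rw [toVs_apply, RM_apply]
  change Rr (cR G (∑ i, v i * M i j)) (bs G 1) = _
  rw [map_sum, Rr_sum, sum_apply]
  refine Finset.sum_congr rfl fun i _ => ?_
  rw [map_mul, Rr_mul, toVs_apply]
  rfl

theorem toVs_smul (g : G) (v : ι → MonoidAlgebra ℤ G) :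
    toVs ((single g (1 : ℤ) : MonoidAlgebra ℤ G) • v) = LV g (toVs v) := by
  ext1 i
  rw [toVs_apply, LV_apply, toVs_apply, ← Rr_comm_Lt, Lt_bs, mul_one, Pi.smul_apply, smul_eq_mul,
    map_mul, Rr_mul]
  have h1 : cR G (single g (1 : ℤ)) = single g (1 : ℝ) := by
    ext h
    classical
    rw [cR_coeff, MonoidAlgebra.coeff_single, MonoidAlgebra.coeff_single, Finsupp.single_apply,
      Finsupp.single_apply]
    split_ifs <;> simp
  rw [h1]
  change Rr (cR G (v i)) (Rr (single g (1 : ℝ)) (bs G 1)) = _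
  congr 1
  rw [Rr_bs, MonoidAlgebra.coeff_single, Finsupp.sum_single_index (by simp)]
  simp

section
variable [DecidableEq ι]

theorem inner_toVs_dl (v : ι → MonoidAlgebra ℤ G) (i : ι) (g : G) :
    ⟪toVs v, dl i g⟫_ℝ = ((v i).coeff g : ℝ) := by
  rw [real_inner_comm, inner_dl, real_inner_comm, toVs_apply, inner_Rr_bs_one, cR_coeff]

theorem toVs_injective {v : ι → MonoidAlgebra ℤ G} (h : toVs v = 0) : v = 0 := by
  funext i
  ext g
  have h1 := inner_toVs_dl v i g
  rw [h, inner_zero_left] at h1
  have : (v i).coeff g = 0 := by exact_mod_cast h1.symm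
  rw [this]; rfl

theorem toVs_single (i : ι) (g : G) :
    toVs (Pi.single i (single g (1 : ℤ)) : ι → MonoidAlgebra ℤ G) = dl i g := by
  apply sub_eq_zero.1
  apply eq_zero_of_inner_dl
  intro j h
  classical
  rw [inner_sub_right, real_inner_comm, inner_toVs_dl, inner_dl]
  unfold dl
  by_cases hij : i = j
  · subst hij
    rw [Pi.single_eq_same, PiLp.single_eq_same, inner_bs, MonoidAlgebra.coeff_single,
      Finsupp.single_apply]
    by_cases hg : g = h
    · subst hg; simp
    · rw [if_neg hg, if_neg (Ne.symm hg)]; simp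
  · rw [Pi.single_eq_of_ne (Ne.symm hij), PiLp.single_eq_of_ne _ (Ne.symm hij), inner_zero_right]
    simp

end

/-- The real span in `ℓ²(G)^ι` of a set of vectors over `ℤ[G]`. -/
noncomputable def sp (S : Set (ι → MonoidAlgebra ℤ G)) : Submodule ℝ (Vs G ι) :=
  Submodule.span ℝ (toVs '' S)

theorem toVs_mem_sp {S : Set (ι → MonoidAlgebra ℤ G)} {v : ι → MonoidAlgebra ℤ G} (hv : v ∈ S) :
    toVs v ∈ sp S := Submodule.subset_span ⟨v, hv, rfl⟩

/-- The von Neumann dimension of the closure in `ℓ²(G)^ι` of a set of vectors over `ℤ[G]`. -/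
noncomputable def vnDim [DecidableEq ι] (S : Set (ι → MonoidAlgebra ℤ G)) : ℝ := dim (sp S)

theorem inv_sp (S : Submodule (MonoidAlgebra ℤ G) (ι → MonoidAlgebra ℤ G)) :
    Inv (sp (S : Set (ι → MonoidAlgebra ℤ G))) := by
  intro s x hx
  induction hx using Submodule.span_induction with
  | mem x hx =>
    obtain ⟨v, hv, rfl⟩ := hx
    rw [← toVs_smul]
    exact toVs_mem_sp (S.smul_mem _ hv)
  | zero => rw [map_zero]; exact Submodule.zero_mem _
  | add x y _ _ hx hy => rw [map_add]; exact Submodule.add_mem _ hx hy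
  | smul a x _ hx => rw [map_smul]; exact Submodule.smul_mem _ _ hx

theorem RM_mem_closure {S : Set (ι → MonoidAlgebra ℤ G)} {S' : Set (κ → MonoidAlgebra ℤ G)}
    (M : Matrix ι κ (MonoidAlgebra ℤ G)) (h : ∀ v ∈ S, Matrix.vecMul v M ∈ S') :
    ∀ x ∈ (sp S).topologicalClosure, RM (M.map (cR G)) x ∈ (sp S').topologicalClosure := by
  apply map_closure
  intro x hx
  induction hx using Submodule.span_induction with
  | mem x hx =>
    obtain ⟨v, hv, rfl⟩ := hx
    rw [← toVs_vecMul]
    exact Submodule.le_topologicalClosure _ (toVs_mem_sp (h v hv))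
  | zero => rw [map_zero]; exact Submodule.zero_mem _
  | add x y _ _ hx hy => rw [map_add]; exact Submodule.add_mem _ hx hy
  | smul a x _ hx => rw [map_smul]; exact Submodule.smul_mem _ _ hx

section
variable [DecidableEq ι] [DecidableEq κ]

theorem sp_univ_closure (x : Vs G ι) :
    x ∈ (sp (Set.univ : Set (ι → MonoidAlgebra ℤ G))).topologicalClosure := by
  set K := sp (Set.univ : Set (ι → MonoidAlgebra ℤ G)) with hK
  have h1 : ∀ i g, (dl i g : Vs G ι) ∈ K := by
    intro i g
    rw [← toVs_single]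
    exact toVs_mem_sp (Set.mem_univ _)
  have h2 : x - pr K x = 0 := by
    apply eq_zero_of_inner_dl
    intro i g
    rw [real_inner_comm]
    exact K.topologicalClosure.starProjection_inner_eq_zero x _
      (Submodule.le_topologicalClosure _ (h1 i g))
  rw [sub_eq_zero] at h2
  rw [h2]
  exact pr_mem K x

/-- The dimension of the fixed vectors of an idempotent matrix. -/
theorem vnDim_fixed (e : Matrix ι ι (MonoidAlgebra ℝ G))
    (S : Submodule (MonoidAlgebra ℤ G) (ι → MonoidAlgebra ℤ G))
    (h1 : ∀ v ∈ S, RM e (toVs v) = toVs v)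
    (h2 : ∀ i, RM e (dl i 1) ∈ (sp (S : Set (ι → MonoidAlgebra ℤ G))).topologicalClosure) :
    vnDim (S : Set (ι → MonoidAlgebra ℤ G)) = ∑ i, (e i i).coeff 1 := by
  set K := sp (S : Set (ι → MonoidAlgebra ℤ G)) with hK
  have hfix : ∀ x ∈ K.topologicalClosure, RM e x = x := by
    intro x hx
    have hc : IsClosed {x : Vs G ι | RM e x = x} := isClosed_eq (RM e).continuous continuous_id
    have h3 : closure (K : Set (Vs G ι)) ⊆ {x | RM e x = x} := by
      apply closure_minimal _ hc
      intro x hx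
      change x ∈ K at hx
      induction hx using Submodule.span_induction with
      | mem x hx =>
        obtain ⟨v, hv, rfl⟩ := hx
        exact h1 v hv
      | zero => exact map_zero _
      | add x y _ _ hx hy =>
        change RM e (x + y) = x + y
        rw [map_add]
        exact congrArg₂ _ hx hy
      | smul a x _ hx =>
        change RM e (a • x) = a • x
        rw [map_smul]
        exact congrArg _ hx
    exact h3 hx
  have hinv : Inv K := inv_sp S
  have hrange : ∀ x, RM e x ∈ K.topologicalClosure := by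
    have h4 : ∀ x ∈ (sp (Set.univ : Set (ι → MonoidAlgebra ℤ G))).topologicalClosure,
        RM e x ∈ K.topologicalClosure := by
      apply map_closure
      intro x hx
      induction hx using Submodule.span_induction with
      | mem x hx =>
        obtain ⟨v, -, rfl⟩ := hx
        have h5 : toVs v = ∑ i, (v i).coeff.sum fun g c => (c : ℝ) • (dl i g : Vs G ι) := by
          apply sub_eq_zero.1
          apply eq_zero_of_inner_dl
          intro j h
          classical
          rw [inner_sub_right, real_inner_comm, inner_toVs_dl, inner_sum,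
            Finset.sum_eq_single j]
          · rw [Finsupp.sum, inner_sum]
            have h6 : ∀ g, ⟪(dl j h : Vs G ι), ((v j).coeff g : ℝ) • (dl j g : Vs G ι)⟫_ℝ
                = if g = h then ((v j).coeff g : ℝ) else 0 := by
              intro g
              rw [inner_smul_right, inner_dl]
              unfold dl
              rw [PiLp.single_eq_same, inner_bs]
              by_cases hg : g = h
              · subst hg; simp
              · rw [if_neg (Ne.symm hg), if_neg hg, mul_zero]
            rw [Finset.sum_congr rfl (fun g _ => h6 g), Finset.sum_ite_eq']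
            split_ifs with h7
            · simp
            · simp only [Finsupp.mem_support_iff, not_not] at h7
              rw [h7]; simp
          · intro i _ hij
            rw [Finsupp.sum, inner_sum]
            refine Finset.sum_eq_zero fun g _ => ?_
            rw [inner_smul_right, inner_dl]
            unfold dl
            rw [PiLp.single_eq_of_ne _ (Ne.symm hij), inner_zero_right, mul_zero]
          · intro h; exact absurd (Finset.mem_univ j) h
        rw [h5, map_sum]
        refine Submodule.sum_mem _ fun i _ => ?_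
        rw [Finsupp.sum, map_sum]
        refine Submodule.sum_mem _ fun g _ => ?_
        rw [map_smul]
        refine Submodule.smul_mem _ _ ?_
        have h8 : (dl i g : Vs G ι) = LV g (dl i 1) := by rw [LV_dl, mul_one]
        rw [h8, RM_comm_LV]
        exact hinv.closure g _ (h2 i)
      | zero => rw [map_zero]; exact Submodule.zero_mem _
      | add x y _ _ hx hy => rw [map_add]; exact Submodule.add_mem _ hx hy
      | smul a x _ hx => rw [map_smul]; exact Submodule.smul_mem _ _ hx
    exact fun x => h4 x (sp_univ_closure x)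
  have ha : (RM e) ∘L (pr K) = pr K := by
    ext1 x
    exact hfix _ (pr_mem K x)
  have hb : (pr K) ∘L (RM e) = RM e := by
    ext1 x
    exact pr_of_mem K (hrange x)
  unfold vnDim
  rw [dim_eq_tr, ← tr_RM, ← hb, ← ha]
  conv_rhs => rw [ha]
  exact tr_comm _ _ (eqv_pr hinv) (eqv_RM e)

/-- The dimension formula for adding the relations given by the rows of `W`. -/
theorem vnDim_formula
    (R K : Submodule (MonoidAlgebra ℤ G) (ι → MonoidAlgebra ℤ G))
    (J : Submodule (MonoidAlgebra ℤ G) (κ → MonoidAlgebra ℤ G))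
    (W : Matrix κ ι (MonoidAlgebra ℤ G)) (r : Matrix ι κ (MonoidAlgebra ℤ G))
    (hKR : K ≤ R) (hW : ∀ x, Matrix.vecMul x W ∈ R)
    (hr : ∀ v ∈ R, v - Matrix.vecMul (Matrix.vecMul v r) W ∈ K)
    (hJ : ∀ x, x ∈ J ↔ Matrix.vecMul x W ∈ K) :
    vnDim (R : Set (ι → MonoidAlgebra ℤ G)) + vnDim (J : Set (κ → MonoidAlgebra ℤ G))
      = vnDim (K : Set (ι → MonoidAlgebra ℤ G)) + Fintype.card κ := by
  set sR := sp (R : Set (ι → MonoidAlgebra ℤ G)) with hsR
  set sK := sp (K : Set (ι → MonoidAlgebra ℤ G)) with hsK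
  set sJ := sp (J : Set (κ → MonoidAlgebra ℤ G)) with hsJ
  set p := pr sR with hp
  set p0 := pr sK with hp0
  set q := pr sJ with hq
  set w := RM (W.map (cR G)) with hw
  set ρ := RM (r.map (cR G)) with hρ
  set a := RM ((1 - r * W).map (cR G)) with ha
  set b := RM ((1 - W * r).map (cR G)) with hb
  have hmap1 : (1 - r * W).map (cR G) = 1 - r.map (cR G) * W.map (cR G) := by
    rw [Matrix.map_sub _ (map_sub _), Matrix.map_one _ (map_zero _) (map_one _), Matrix.map_mul]
  have hmap2 : (1 - W * r).map (cR G) = 1 - W.map (cR G) * r.map (cR G) := by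
    rw [Matrix.map_sub _ (map_sub _), Matrix.map_one _ (map_zero _) (map_one _), Matrix.map_mul]
  have ea : ∀ x, a x = x - w (ρ x) := by
    intro x
    rw [ha, hmap1, RM_sub, RM_one, RM_mul]
  have eb : ∀ x, b x = x - ρ (w x) := by
    intro x
    rw [hb, hmap2, RM_sub, RM_one, RM_mul]
  have iR : Inv sR := inv_sp R
  have iK : Inv sK := inv_sp K
  have iJ : Inv sJ := inv_sp J
  -- membership facts
  have m1 : ∀ x ∈ sR.topologicalClosure, a x ∈ sK.topologicalClosure := by
    apply RM_mem_closure
    intro v hv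
    rw [Matrix.vecMul_sub, Matrix.vecMul_one, ← Matrix.vecMul_vecMul]
    exact hr v hv
  have m2 : ∀ x, w x ∈ sR.topologicalClosure := by
    intro x
    refine RM_mem_closure (S := Set.univ) W (fun v _ => hW v) x (sp_univ_closure x)
  have m3 : ∀ x ∈ sJ.topologicalClosure, w x ∈ sK.topologicalClosure := by
    apply RM_mem_closure
    intro v hv
    exact (hJ v).1 hv
  have m4 : ∀ x ∈ sK.topologicalClosure, ρ x ∈ sJ.topologicalClosure := by
    apply RM_mem_closure
    intro v hv
    rw [SetLike.mem_coe, hJ]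
    have h1 := hr v (hKR hv)
    have h2 : Matrix.vecMul (Matrix.vecMul v r) W
        = v - (v - Matrix.vecMul (Matrix.vecMul v r) W) := by abel
    rw [h2]
    exact K.sub_mem hv h1
  have m5 : ∀ x, b x ∈ sJ.topologicalClosure := by
    intro x
    refine RM_mem_closure (S := Set.univ) _ (fun v _ => ?_) x (sp_univ_closure x)
    rw [SetLike.mem_coe, hJ, Matrix.vecMul_sub, Matrix.vecMul_one, Matrix.sub_vecMul,
      ← Matrix.vecMul_vecMul]
    exact hr _ (hW v)
  have m6 : ∀ x ∈ sK.topologicalClosure, x ∈ sR.topologicalClosure :=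
    fun x hx => Submodule.topologicalClosure_mono
      (Submodule.span_mono (Set.image_mono hKR)) hx
  have ep : Eqv p := eqv_pr iR
  have ep0 : Eqv p0 := eqv_pr iK
  have eq' : Eqv q := eqv_pr iJ
  have ew : Eqv w := eqv_RM _
  have eρ : Eqv ρ := eqv_RM _
  have eea : Eqv a := eqv_RM _
  have eeb : Eqv b := eqv_RM _
  -- the operators
  let M11 := a ∘L p
  let M12 := ρ ∘L p
  let M21 := w ∘L q
  let M22 := q
  let N11 := p0
  let N12 := ρ ∘L p0
  let N21 := w
  let N22 := b
  have t1 : p = N11 ∘L M11 + N21 ∘L M12 := by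
    ext1 x
    change p x = p0 (a (p x)) + w (ρ (p x))
    rw [pr_of_mem sK (m1 _ (pr_mem sR x)), ea, sub_add_cancel]
  have t2 : q = N12 ∘L M21 + N22 ∘L M22 := by
    ext1 x
    change q x = ρ (p0 (w (q x))) + b (q x)
    rw [pr_of_mem sK (m3 _ (pr_mem sJ x)), eb, add_sub_cancel]
  have t3 : p0 = M11 ∘L N11 + M21 ∘L N12 := by
    ext1 x
    change p0 x = a (p (p0 x)) + w (q (ρ (p0 x)))
    rw [pr_of_mem sR (m6 _ (pr_mem sK x)), pr_of_mem sJ (m4 _ (pr_mem sK x)), ea, sub_add_cancel]
  have t4 : ContinuousLinearMap.id ℝ (Vs G κ) = M12 ∘L N21 + M22 ∘L N22 := by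
    ext1 x
    change x = ρ (p (w x)) + q (b x)
    rw [pr_of_mem sR (m2 x), pr_of_mem sJ (m5 x), eb, add_sub_cancel]
  have d1 : vnDim (R : Set (ι → MonoidAlgebra ℤ G)) = tr p := dim_eq_tr sR
  have d2 : vnDim (J : Set (κ → MonoidAlgebra ℤ G)) = tr q := dim_eq_tr sJ
  have d3 : vnDim (K : Set (ι → MonoidAlgebra ℤ G)) = tr p0 := dim_eq_tr sK
  rw [d1, d2, d3, ← tr_id (G := G) (ι := κ)]
  conv_lhs => rw [t1, t2]
  conv_rhs => rw [t3, t4]
  rw [tr_add, tr_add, tr_add, tr_add,
    tr_comm M11 N11 (eea.comp ep) ep0, tr_comm M12 N21 (eρ.comp ep) ew,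
    tr_comm M21 N12 (ew.comp eq') (eρ.comp ep0), tr_comm M22 N22 eq' eeb]
  ring

/-- A submodule of dimension zero is zero. -/
theorem eq_bot_of_vnDim (S : Submodule (MonoidAlgebra ℤ G) (ι → MonoidAlgebra ℤ G))
    (h : vnDim (S : Set (ι → MonoidAlgebra ℤ G)) = 0) : ∀ v ∈ S, v = 0 := by
  intro v hv
  exact toVs_injective (eq_zero_of_dim (inv_sp S) h _
    (Submodule.le_topologicalClosure _ (toVs_mem_sp hv)))

/-- Columns killed by a submodule of full dimension vanish. -/
theorem col_eq_zero_of_vnDim (S : Submodule (MonoidAlgebra ℤ G) (ι → MonoidAlgebra ℤ G))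
    (h : vnDim (S : Set (ι → MonoidAlgebra ℤ G)) = Fintype.card ι)
    (c : ι → MonoidAlgebra ℤ G) (hc : ∀ v ∈ S, ∑ i, v i * c i = 0) : c = 0 := by
  let M : Matrix ι (Fin 1) (MonoidAlgebra ℤ G) := fun i _ => c i
  have h0 : ∀ x ∈ sp (S : Set (ι → MonoidAlgebra ℤ G)), RM (M.map (cR G)) x = 0 := by
    intro x hx
    induction hx using Submodule.span_induction with
    | mem x hx =>
      obtain ⟨v, hv, rfl⟩ := hx
      rw [← toVs_vecMul]
      have : Matrix.vecMul v M = 0 := by
        funext j
        exact hc v hv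
      rw [this, toVs_zero]
    | zero => exact map_zero _
    | add x y _ _ hx hy => rw [map_add, hx, hy, add_zero]
    | smul a x _ hx => rw [map_smul, hx, smul_zero]
  funext i
  have h1 := apply_dl_eq_zero_of_dim_full (E := Vs G (Fin 1)) (inv_sp S) h
    (RM (M.map (cR G))) (RM (M.map (cR G))).continuous h0 i 1
  rw [← toVs_single, ← toVs_vecMul] at h1
  have h2 := congrFun (toVs_injective h1) 0
  have h3 : Matrix.vecMul (Pi.single i (single (1 : G) (1 : ℤ)) : ι → MonoidAlgebra ℤ G) M 0
      = c i := by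
    change ∑ j, (Pi.single i (single (1 : G) (1 : ℤ)) : ι → MonoidAlgebra ℤ G) j * c j = c i
    rw [Finset.sum_eq_single i]
    · rw [Pi.single_eq_same]; exact one_mul _
    · intro j _ hj
      rw [Pi.single_eq_of_ne hj, zero_mul]
    · intro h; exact absurd (Finset.mem_univ i) h
  rw [h3] at h2
  exact h2

end

end Pool.Agent.Lib.MP_551055_al.VN
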