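import Pool.Agent.Lib.MP_551055_al.FreeSubgroupPresentation

/-!
The von Neumann trace for operators on `ℓ²(G)^ι` commuting with left translations, and the von
Neumann dimension of left submodules of `ℤ[G]^ι`.
-/

set_option autoImplicit false
set_option linter.unusedSectionVars false

namespace Pool.Agent.Lib.MP_551055_al.VN

open scoped InnerProductSpace
open Pool.Agent.Lib.MP_551055_al.Kaplansky Pool.Agent.Lib.MP_551055_al.KaplanskyMatrix

universe u

variable {G : Type u} [Group G]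
variable {ι κ μ : Type} [Fintype ι] [Fintype κ] [Fintype μ]

/-! ### Right multiplication -/

/-- Right translations as an anti-homomorphism. -/
noncomputable def rho : G →* (Hs G →L[ℝ] Hs G)ᵐᵒᵖ where
  toFun g := MulOpposite.op (Rt g).toContinuousLinearEquiv.toContinuousLinearMap
  map_one' := by
    rw [← MulOpposite.op_one]
    congr 1
    apply ext_bs
    intro g
    change Rt 1 (bs G g) = _
    rw [Rt_bs]
    simp
  map_mul' a b := by
    rw [← MulOpposite.op_mul]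
    congr 1
    apply ext_bs
    intro g
    change Rt (a * b) (bs G g) = Rt b (Rt a (bs G g))
    rw [Rt_bs, Rt_bs, Rt_bs, mul_assoc]

/-- Right multiplication by an element of `ℝ[G]`. -/
noncomputable def Rr (a : MonoidAlgebra ℝ G) : Hs G →L[ℝ] Hs G :=
  (MonoidAlgebra.lift ℝ (Hs G →L[ℝ] Hs G)ᵐᵒᵖ G rho a).unop

theorem Rr_add (a b : MonoidAlgebra ℝ G) : Rr (a + b) = Rr a + Rr b := by
  unfold Rr; rw [map_add, MulOpposite.unop_add]

theorem Rr_neg (a : MonoidAlgebra ℝ G) : Rr (-a) = -Rr a := by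
  unfold Rr; rw [map_neg, MulOpposite.unop_neg]

theorem Rr_zero : Rr (0 : MonoidAlgebra ℝ G) = 0 := by
  unfold Rr; rw [map_zero, MulOpposite.unop_zero]

theorem Rr_one : Rr (1 : MonoidAlgebra ℝ G) = 1 := by
  unfold Rr; rw [map_one, MulOpposite.unop_one]

theorem Rr_mul (a b : MonoidAlgebra ℝ G) : Rr (a * b) = Rr b * Rr a := by
  unfold Rr; rw [map_mul, MulOpposite.unop_mul]

theorem Rr_sum {T : Type} (s : Finset T) (f : T → MonoidAlgebra ℝ G) :
    Rr (∑ t ∈ s, f t) = ∑ t ∈ s, Rr (f t) := by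
  classical
  induction s using Finset.induction_on with
  | empty => simp [Rr_zero]
  | insert a s ha ih => rw [Finset.sum_insert ha, Finset.sum_insert ha, Rr_add, ih]

theorem Rr_apply (a : MonoidAlgebra ℝ G) (x : Hs G) :
    Rr a x = a.coeff.sum fun h c => c • Rt h x := by
  unfold Rr
  simp only [MonoidAlgebra.lift_apply, Finsupp.sum]
  have h1 : ∀ (s : Finset G) (f : G → (Hs G →L[ℝ] Hs G)ᵐᵒᵖ),
      (∑ t ∈ s, f t).unop = ∑ t ∈ s, (f t).unop := fun s f =>
    map_sum (MulOpposite.opAddEquiv (α := Hs G →L[ℝ] Hs G)).symm f s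
  rw [h1, sum_apply]
  refine Finset.sum_congr rfl fun h _ => ?_
  rw [MulOpposite.unop_smul, smul_apply]
  rfl

theorem Rr_bs (a : MonoidAlgebra ℝ G) (g : G) :
    Rr a (bs G g) = a.coeff.sum fun h c => c • bs G (g * h) := by
  rw [Rr_apply]
  simp only [Finsupp.sum]
  refine Finset.sum_congr rfl fun h _ => ?_
  rw [Rt_bs]

theorem inner_Rr_bs_one (a : MonoidAlgebra ℝ G) (g : G) :
    ⟪Rr a (bs G 1), bs G g⟫_ℝ = a.coeff g := by
  classical
  rw [Rr_bs, Finsupp.sum, sum_inner]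
  simp only [one_mul, real_inner_smul_left, inner_bs, mul_ite, mul_one, mul_zero]
  rw [Finset.sum_ite_eq']
  split_ifs with h
  · rfl
  · simp only [Finsupp.mem_support_iff, not_not] at h
    rw [h]

/-- Left translation. -/
noncomputable def Lt (s : G) : Hs G ≃ₗᵢ[ℝ] Hs G := Tp (Equiv.mulLeft s)

theorem Lt_bs (s g : G) : Lt s (bs G g) = bs G (s * g) := by
  change Tp (Equiv.mulLeft s) (bs G g) = _
  rw [Tp_bs]; rfl

theorem Lt_inv (s : G) (x : Hs G) : Lt s (Lt s⁻¹ x) = x := by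
  have : (Lt s).toContinuousLinearEquiv.toContinuousLinearMap ∘L
    (Lt s⁻¹).toContinuousLinearEquiv.toContinuousLinearMap = ContinuousLinearMap.id ℝ _ := by
    apply ext_bs
    intro g
    change Lt s (Lt s⁻¹ (bs G g)) = _
    rw [Lt_bs, Lt_bs]; simp
  exact DFunLike.congr_fun this x

theorem Rt_comm_Lt (h s : G) (x : Hs G) : Rt h (Lt s x) = Lt s (Rt h x) := lam_comm_Rt s h x |>.symm

theorem Rr_comm_Lt (a : MonoidAlgebra ℝ G) (s : G) (x : Hs G) : Rr a (Lt s x) = Lt s (Rr a x) := by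
  rw [Rr_apply, Rr_apply, Finsupp.sum, Finsupp.sum, map_sum]
  refine Finset.sum_congr rfl fun h _ => ?_
  rw [map_smul, Rt_comm_Lt]

/-! ### Operators on `ℓ²(G)^ι` -/

/-- Left translation. -/
noncomputable def LV (s : G) : Vs G ι ≃ₗᵢ[ℝ] Vs G ι :=
  LinearIsometryEquiv.piLpCongrRight 2 (fun _ : ι => Lt s)

theorem LV_apply (s : G) (x : Vs G ι) (i : ι) : (LV s x) i = Lt s (x i) := rfl

theorem LV_inv (s : G) (x : Vs G ι) : LV s (LV s⁻¹ x) = x := by
  ext1 i
  rw [LV_apply, LV_apply, Lt_inv]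

theorem LV_inv' (s : G) (x : Vs G ι) : LV s⁻¹ (LV s x) = x := by
  have := LV_inv s⁻¹ x
  rwa [inv_inv] at this

section
variable [DecidableEq ι] [DecidableEq κ] [DecidableEq μ]

theorem LV_single (s : G) (i : ι) (a : Hs G) :
    LV s (PiLp.single 2 i a : Vs G ι) = PiLp.single 2 i (Lt s a) :=
  LinearIsometryEquiv.piLpCongrRight_single (fun _ : ι => Lt s) i a

/-- The basis vectors. -/
noncomputable def dl (i : ι) (g : G) : Vs G ι := PiLp.single 2 i (bs G g)

theorem LV_dl (s : G) (i : ι) (g : G) : LV s (dl i g : Vs G ι) = dl i (s * g) := by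
  unfold dl
  rw [LV_single, Lt_bs]

theorem inner_dl (i : ι) (g : G) (x : Vs G ι) : ⟪dl i g, x⟫_ℝ = ⟪bs G g, x i⟫_ℝ :=
  inner_single i (bs G g) x

theorem eq_zero_of_inner_dl (x : Vs G ι) (h : ∀ i g, ⟪dl i g, x⟫_ℝ = 0) : x = 0 := by
  ext1 i
  have h5 : (bs G).repr (x i) = 0 := by
    ext g
    rw [HilbertBasis.repr_apply_apply, ← inner_dl]
    exact h i g
  exact (bs G).repr.injective (h5.trans (map_zero (bs G).repr).symm)

end

/-- Right multiplication by a matrix over `ℝ[G]`. -/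
noncomputable def RM (M : Matrix ι κ (MonoidAlgebra ℝ G)) : Vs G ι →L[ℝ] Vs G κ :=
  (PiLp.continuousLinearEquiv 2 ℝ (fun _ : κ => Hs G)).symm.toContinuousLinearMap ∘L
    ContinuousLinearMap.pi (fun j => ∑ i, (Rr (M i j)) ∘L (PiLp.proj 2 (fun _ : ι => Hs G) i))

theorem RM_apply (M : Matrix ι κ (MonoidAlgebra ℝ G)) (x : Vs G ι) (j : κ) :
    (RM M x) j = ∑ i, Rr (M i j) (x i) := by
  simp [RM]

theorem RM_mul (M : Matrix ι κ (MonoidAlgebra ℝ G)) (N : Matrix κ μ (MonoidAlgebra ℝ G))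
    (x : Vs G ι) : RM (M * N) x = RM N (RM M x) := by
  ext1 l
  rw [RM_apply, RM_apply]
  simp only [RM_apply, Matrix.mul_apply, map_sum]
  simp only [Rr_sum, Rr_mul, sum_apply]
  rw [Finset.sum_comm]
  rfl

theorem RM_add (M N : Matrix ι κ (MonoidAlgebra ℝ G)) (x : Vs G ι) :
    RM (M + N) x = RM M x + RM N x := by
  ext1 l
  rw [RM_apply, PiLp.add_apply, RM_apply, RM_apply, ← Finset.sum_add_distrib]
  refine Finset.sum_congr rfl fun i _ => ?_
  rw [Matrix.add_apply, Rr_add]; rfl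

theorem RM_neg (M : Matrix ι κ (MonoidAlgebra ℝ G)) (x : Vs G ι) :
    RM (-M) x = -RM M x := by
  ext1 l
  rw [RM_apply, PiLp.neg_apply, RM_apply, ← Finset.sum_neg_distrib]
  refine Finset.sum_congr rfl fun i _ => ?_
  rw [Matrix.neg_apply, Rr_neg]; rfl

theorem RM_sub (M N : Matrix ι κ (MonoidAlgebra ℝ G)) (x : Vs G ι) :
    RM (M - N) x = RM M x - RM N x := by
  rw [sub_eq_add_neg, RM_add, RM_neg, sub_eq_add_neg]

theorem RM_one [DecidableEq ι] (x : Vs G ι) : RM (1 : Matrix ι ι (MonoidAlgebra ℝ G)) x = x := by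
  ext1 j
  rw [RM_apply, Finset.sum_eq_single j]
  · rw [Matrix.one_apply_eq, Rr_one]; rfl
  · intro i _ hi
    rw [Matrix.one_apply_ne hi, Rr_zero]; rfl
  · intro h; exact absurd (Finset.mem_univ j) h

theorem RM_comm_LV (M : Matrix ι κ (MonoidAlgebra ℝ G)) (s : G) (x : Vs G ι) :
    RM M (LV s x) = LV s (RM M x) := by
  ext1 j
  rw [RM_apply, LV_apply, RM_apply, map_sum]
  refine Finset.sum_congr rfl fun i _ => ?_
  rw [LV_apply, Rr_comm_Lt]

/-! ### The trace -/

/-- Operators commuting with left translations. -/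
def Eqv (A : Vs G ι →L[ℝ] Vs G κ) : Prop := ∀ s x, A (LV s x) = LV s (A x)

theorem Eqv.comp {A : Vs G κ →L[ℝ] Vs G μ} {B : Vs G ι →L[ℝ] Vs G κ} (hA : Eqv A) (hB : Eqv B) :
    Eqv (A ∘L B) := fun s x => by
  change A (B (LV s x)) = LV s (A (B x))
  rw [hB, hA]

theorem eqv_RM (M : Matrix ι κ (MonoidAlgebra ℝ G)) : Eqv (RM M) := fun s x => RM_comm_LV M s x

section
variable [DecidableEq ι] [DecidableEq κ] [DecidableEq μ]

/-- The von Neumann trace. -/
noncomputable def tr (A : Vs G ι →L[ℝ] Vs G ι) : ℝ := ∑ i, ⟪A (dl i 1), dl i 1⟫_ℝ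

theorem tr_add (A B : Vs G ι →L[ℝ] Vs G ι) : tr (A + B) = tr A + tr B := by
  unfold tr
  rw [← Finset.sum_add_distrib]
  exact Finset.sum_congr rfl fun i _ => inner_add_left _ _ _

theorem tr_id : tr (ContinuousLinearMap.id ℝ (Vs G ι)) = Fintype.card ι := by
  classical
  unfold tr
  have : ∀ i : ι, ⟪ContinuousLinearMap.id ℝ (Vs G ι) (dl i 1), (dl i 1 : Vs G ι)⟫_ℝ = 1 := by
    intro i
    change ⟪(dl i 1 : Vs G ι), (dl i 1 : Vs G ι)⟫_ℝ = 1
    rw [inner_dl]
    unfold dl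
    rw [PiLp.single_eq_same, inner_bs, if_pos rfl]
  rw [Finset.sum_congr rfl (fun i _ => this i)]
  simp

theorem inner_comp_expand (A : Vs G ι →L[ℝ] Vs G κ) (B : Vs G κ →L[ℝ] Vs G ι) (hB : Eqv B)
    (i : ι) : ⟪B (A (dl i 1)), dl i 1⟫_ℝ =
      ∑ j, ∑' g, ⟪A (dl i 1), dl j g⟫_ℝ * ⟪B (dl j 1), dl i g⁻¹⟫_ℝ := by
  have h1 : ⟪B (A (dl i 1)), dl i 1⟫_ℝ = ⟪A (dl i 1), B.adjoint (dl i 1)⟫_ℝ := by
    rw [ContinuousLinearMap.adjoint_inner_right]
  rw [h1, PiLp.inner_apply]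
  refine Finset.sum_congr rfl fun j _ => ?_
  rw [← (bs G).tsum_inner_mul_inner]
  refine tsum_congr fun g => ?_
  have h2 : ⟪A (dl i 1), dl j g⟫_ℝ = ⟪(A (dl i 1)) j, bs G g⟫_ℝ := by
    rw [real_inner_comm, inner_dl, real_inner_comm]
  have h3 : ⟪bs G g, (B.adjoint (dl i 1)) j⟫_ℝ = ⟪B (dl j 1), dl i g⁻¹⟫_ℝ := by
    rw [← inner_dl, ContinuousLinearMap.adjoint_inner_right]
    have h4 : (dl j g : Vs G κ) = LV g (dl j 1) := by rw [LV_dl, mul_one]
    have h5 : (dl i 1 : Vs G ι) = LV g (dl i g⁻¹) := by rw [LV_dl, mul_inv_cancel]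
    conv_lhs => rw [h4, hB, h5, LinearIsometryEquiv.inner_map_map]
  rw [h2, h3]

theorem tr_comm (A : Vs G ι →L[ℝ] Vs G κ) (B : Vs G κ →L[ℝ] Vs G ι) (hA : Eqv A) (hB : Eqv B) :
    tr (B ∘L A) = tr (A ∘L B) := by
  unfold tr
  change ∑ i, ⟪B (A (dl i 1)), dl i 1⟫_ℝ = ∑ j, ⟪A (B (dl j 1)), dl j 1⟫_ℝ
  rw [Finset.sum_congr rfl (fun i _ => inner_comp_expand A B hB i),
    Finset.sum_congr rfl (fun j _ => inner_comp_expand B A hA j), Finset.sum_comm]
  refine Finset.sum_congr rfl fun j _ => Finset.sum_congr rfl fun i _ => ?_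
  rw [← (Equiv.inv G).tsum_eq]
  refine tsum_congr fun g => ?_
  simp only [Equiv.inv_apply, inv_inv]
  rw [mul_comm]

theorem tr_RM (M : Matrix ι ι (MonoidAlgebra ℝ G)) : tr (RM M) = ∑ i, (M i i).coeff 1 := by
  unfold tr
  refine Finset.sum_congr rfl fun i _ => ?_
  rw [real_inner_comm, inner_dl, RM_apply, Finset.sum_eq_single i]
  · unfold dl
    rw [PiLp.single_eq_same, real_inner_comm, inner_Rr_bs_one]
  · intro j _ hj
    unfold dl
    rw [PiLp.single_eq_of_ne _ hj, map_zero]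
  · intro h; exact absurd (Finset.mem_univ i) h

end

/-! ### Closed invariant subspaces -/

/-- Invariance under left translations. -/
def Inv (K : Submodule ℝ (Vs G ι)) : Prop := ∀ s x, x ∈ K → LV s x ∈ K

/-- The orthogonal projection onto the closure. -/
noncomputable def pr (K : Submodule ℝ (Vs G ι)) : Vs G ι →L[ℝ] Vs G ι :=
  K.topologicalClosure.starProjection

theorem pr_mem (K : Submodule ℝ (Vs G ι)) (x : Vs G ι) : pr K x ∈ K.topologicalClosure :=
  K.topologicalClosure.starProjection_apply_mem x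

theorem pr_of_mem (K : Submodule ℝ (Vs G ι)) {x : Vs G ι} (hx : x ∈ K.topologicalClosure) :
    pr K x = x := K.topologicalClosure.starProjection_eq_self_iff.2 hx

theorem pr_sa (K : Submodule ℝ (Vs G ι)) (x y : Vs G ι) : ⟪pr K x, y⟫_ℝ = ⟪x, pr K y⟫_ℝ :=
  K.topologicalClosure.inner_starProjection_left_eq_right x y

theorem Inv.closure {K : Submodule ℝ (Vs G ι)} (h : Inv K) : Inv K.topologicalClosure := by
  intro s x hx
  have h1 : Set.MapsTo (LV s) (K : Set (Vs G ι)) (K : Set (Vs G ι)) := fun y hy => h s y hy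
  exact h1.closure (LV s).continuous hx

theorem eqv_pr {K : Submodule ℝ (Vs G ι)} (h : Inv K) : Eqv (pr K) := by
  intro s x
  have hK := h.closure
  apply K.topologicalClosure.eq_starProjection_of_mem_of_inner_eq_zero (hK s _ (pr_mem K x))
  intro w hw
  have h2 : LV s⁻¹ w ∈ K.topologicalClosure := hK _ _ hw
  rw [← LV_inv s w, ← map_sub, LinearIsometryEquiv.inner_map_map]
  exact K.topologicalClosure.starProjection_inner_eq_zero x _ h2

section
variable [DecidableEq ι] [DecidableEq κ]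

/-- The von Neumann dimension of the closure of a subspace. -/
noncomputable def dim (K : Submodule ℝ (Vs G ι)) : ℝ := ∑ i, ‖pr K (dl i 1)‖ ^ 2

theorem dim_eq_tr (K : Submodule ℝ (Vs G ι)) : dim K = tr (pr K) := by
  unfold dim tr
  refine Finset.sum_congr rfl fun i _ => ?_
  rw [← real_inner_self_eq_norm_sq, ← pr_sa, pr_of_mem K (pr_mem K _)]

theorem dim_nonneg (K : Submodule ℝ (Vs G ι)) : 0 ≤ dim K :=
  Finset.sum_nonneg fun _ _ => by positivity

theorem norm_dl (i : ι) (g : G) : ‖(dl i g : Vs G ι)‖ = 1 := by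
  classical
  have h : ‖(dl i g : Vs G ι)‖ ^ 2 = 1 := by
    rw [← real_inner_self_eq_norm_sq, inner_dl]
    unfold dl
    rw [PiLp.single_eq_same, inner_bs, if_pos rfl]
  have h2 := norm_nonneg (dl i g : Vs G ι)
  nlinarith

theorem eq_zero_of_pr {K : Submodule ℝ (Vs G ι)} (h : ∀ i g, pr K (dl i g) = 0) :
    ∀ x ∈ K.topologicalClosure, x = 0 := by
  intro x hx
  apply eq_zero_of_inner_dl
  intro i g
  rw [← pr_of_mem K hx, ← pr_sa, h, inner_zero_left]

theorem eq_zero_of_dim {K : Submodule ℝ (Vs G ι)} (hK : Inv K) (h : dim K = 0) :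
    ∀ x ∈ K.topologicalClosure, x = 0 := by
  unfold dim at h
  rw [Finset.sum_eq_zero_iff_of_nonneg (fun i _ => by positivity)] at h
  apply eq_zero_of_pr
  intro i g
  have h1 : pr K (dl i 1) = 0 := by
    have := h i (Finset.mem_univ i)
    rwa [sq_eq_zero_iff, norm_eq_zero] at this
  have h2 : (dl i g : Vs G ι) = LV g (dl i 1) := by rw [LV_dl, mul_one]
  rw [h2, eqv_pr hK, h1, map_zero]

theorem norm_pr_le (K : Submodule ℝ (Vs G ι)) (x : Vs G ι) : ‖pr K x‖ ≤ ‖x‖ :=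
  K.topologicalClosure.norm_starProjection_apply_le x

theorem dim_le (K : Submodule ℝ (Vs G ι)) : dim K ≤ Fintype.card ι := by
  unfold dim
  have h : ∀ i : ι, ‖pr K (dl i 1)‖ ^ 2 ≤ 1 := by
    intro i
    have h1 := norm_pr_le K (dl i 1)
    rw [norm_dl] at h1
    have h2 := norm_nonneg (pr K (dl i 1))
    nlinarith
  calc ∑ i, ‖pr K (dl i 1)‖ ^ 2 ≤ ∑ _i : ι, (1 : ℝ) := Finset.sum_le_sum fun i _ => h i
    _ = _ := by simp

theorem pr_eq_of_dim_full {K : Submodule ℝ (Vs G ι)} (hK : Inv K)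
    (h : dim K = Fintype.card ι) : ∀ i g, pr K (dl i g) = dl i g := by
  have h0 : ∀ i : ι, ‖pr K (dl i 1)‖ ^ 2 ≤ 1 := by
    intro i
    have h1 := norm_pr_le K (dl i 1)
    rw [norm_dl] at h1
    have h2 := norm_nonneg (pr K (dl i 1))
    nlinarith
  have h1 : ∀ i : ι, ‖pr K (dl i 1)‖ ^ 2 = 1 := by
    have h2 : ∑ i : ι, (1 - ‖pr K (dl i 1)‖ ^ 2) = 0 := by
      rw [Finset.sum_sub_distrib]
      have : dim K = ∑ i : ι, ‖pr K (dl i 1)‖ ^ 2 := rfl
      rw [← this, h]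
      simp
    rw [Finset.sum_eq_zero_iff_of_nonneg (fun i _ => by linarith [h0 i])] at h2
    intro i
    have := h2 i (Finset.mem_univ i)
    linarith
  intro i g
  have h3 : pr K (dl i 1) = dl i 1 := by
    have h4 : ‖(dl i 1 : Vs G ι) - pr K (dl i 1)‖ ^ 2 = 0 := by
      rw [← real_inner_self_eq_norm_sq, inner_sub_left, inner_sub_right, inner_sub_right,
        real_inner_self_eq_norm_sq, real_inner_self_eq_norm_sq, norm_dl, h1]
      have h5 : ⟪pr K (dl i 1), (dl i 1 : Vs G ι)⟫_ℝ = 1 := by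
        rw [← pr_of_mem K (pr_mem K (dl i 1)), pr_sa, real_inner_self_eq_norm_sq, h1]
      rw [h5, real_inner_comm, h5]
      norm_num
    rw [sq_eq_zero_iff, norm_eq_zero, sub_eq_zero] at h4
    exact h4.symm
  have h2 : (dl i g : Vs G ι) = LV g (dl i 1) := by rw [LV_dl, mul_one]
  rw [h2, eqv_pr hK, h3]

/-- An operator vanishing on an invariant subspace of full dimension vanishes. -/
theorem apply_dl_eq_zero_of_dim_full {K : Submodule ℝ (Vs G ι)} (hK : Inv K)
    (h : dim K = Fintype.card ι) {E : Type u} [NormedAddCommGroup E] [NormedSpace ℝ E]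
    (A : Vs G ι → E) (hA : Continuous A) (h0 : ∀ x ∈ K, A x = 0) (i : ι) (g : G) :
    A (dl i g) = 0 := by
  have h1 : (dl i g : Vs G ι) ∈ K.topologicalClosure := by
    rw [← pr_eq_of_dim_full hK h i g]
    exact pr_mem K _
  have h2 : IsClosed {x | A x = 0} := isClosed_eq hA continuous_const
  have h3 : closure (K : Set (Vs G ι)) ⊆ {x | A x = 0} := closure_minimal (fun x hx => h0 x hx) h2
  exact h3 h1

end

theorem map_closure {K : Submodule ℝ (Vs G ι)} {K' : Submodule ℝ (Vs G κ)}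
    (A : Vs G ι →L[ℝ] Vs G κ) (h : ∀ x ∈ K, A x ∈ K'.topologicalClosure) :
    ∀ x ∈ K.topologicalClosure, A x ∈ K'.topologicalClosure := by
  intro x hx
  have h2 : IsClosed {x | A x ∈ K'.topologicalClosure} :=
    (K'.isClosed_topologicalClosure).preimage A.continuous
  have h3 : closure (K : Set (Vs G ι)) ⊆ {x | A x ∈ K'.topologicalClosure} :=
    closure_minimal (fun x hx => h x hx) h2
  exact h3 hx

end Pool.Agent.Lib.MP_551055_al.VN
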